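import Pool.Agent.H91.GE.FlowJoint

/-!
# Smooth dependence of flows on the initial condition
-/

set_option autoImplicit false

open scoped Topology ContDiff
open Set Filter Metric

namespace Pool.Agent.H91.GE

section

variable {G : Type*} [NormedAddCommGroup G] [NormedSpace ℝ G] [FiniteDimensional ℝ G]
  {X : G → G} {K K₂ : NNReal} {Φ : ℝ → G → G}

/-- Solutions of the variational equation give the derivative of the flow. -/
theorem IsFlow.variation (hX : IsVF X K K₂) (hΦ : IsFlow X Φ) {w ξ : G} {δ : ℝ} (hδ : 0 ≤ δ)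
    {Z : ℝ → G} (hZ0 : Z 0 = ξ)
    (hZ : ∀ s ∈ Icc 0 δ, HasDerivWithinAt Z (fderiv ℝ X (Φ s w) (Z s)) (Icc 0 δ) s) :
    fderiv ℝ (Φ δ) w ξ = Z δ := by
  set M : ℝ → G →L[ℝ] G := fun s => fderiv ℝ X (Φ s w) with hM
  have hMK : ∀ s, ‖M s‖ ≤ K := fun s => norm_fderiv_le_of_lipschitz ℝ hX.lip
  set C : ℝ := Real.exp (K * δ) with hC
  have hC1 : 0 < C := Real.exp_pos _
  set C' : ℝ := (K₂ * C * C * ‖ξ‖ ^ 2) / (K + 1) * (Real.exp ((K + 1) * δ) - 1) with hC'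
  have hest : ∀ ε : ℝ, ‖Φ δ (w + ε • ξ) - Φ δ w - ε • Z δ‖ ≤ C' * ε ^ 2 := by
    intro ε
    set e : ℝ → G := fun s => Φ s (w + ε • ξ) - Φ s w - ε • Z s with he
    set e' : ℝ → G := fun s => X (Φ s (w + ε • ξ)) - X (Φ s w) - ε • M s (Z s) with he'
    have hed : ∀ s ∈ Icc 0 δ, HasDerivWithinAt e (e' s) (Icc 0 δ) s := fun s hs =>
      (((hΦ.deriv s (w + ε • ξ)).sub (hΦ.deriv s w)).hasDerivWithinAt).sub
        ((hZ s hs).const_smul ε)
    have hgap : ∀ s ∈ Icc 0 δ, ‖Φ s (w + ε • ξ) - Φ s w‖ ≤ (|ε| * ‖ξ‖) * C := by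
      intro s hs
      have h1 := hΦ.dist_le_of_nonneg hX hs.1 (w + ε • ξ) w
      rw [dist_eq_norm, dist_eq_norm, add_sub_cancel_left, norm_smul, Real.norm_eq_abs] at h1
      refine h1.trans (mul_le_mul_of_nonneg_left ?_ (by positivity))
      exact Real.exp_le_exp.2 (mul_le_mul_of_nonneg_left hs.2 K.2)
    have hb : ∀ s ∈ Icc 0 δ, ‖e' s‖ ≤ (K + 1) * ‖e s‖ + K₂ * C * C * ‖ξ‖ ^ 2 * ε ^ 2 := by
      intro s hs
      have h1 : e' s = (X (Φ s (w + ε • ξ)) - X (Φ s w) - M s (Φ s (w + ε • ξ) - Φ s w))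
          + M s (e s) := by
        simp only [he, he', map_sub, map_smul]; abel
      have h2 := hX.remainder (Φ s w) (Φ s (w + ε • ξ))
      have h3 : ‖M s (e s)‖ ≤ K * ‖e s‖ := (M s).le_of_opNorm_le (hMK s) _
      have h4 := hgap s hs
      have h5 : (K₂ : ℝ) * ‖Φ s (w + ε • ξ) - Φ s w‖ * ‖Φ s (w + ε • ξ) - Φ s w‖
          ≤ K₂ * C * C * ‖ξ‖ ^ 2 * ε ^ 2 := by
        have h6 : ‖Φ s (w + ε • ξ) - Φ s w‖ * ‖Φ s (w + ε • ξ) - Φ s w‖
            ≤ ((|ε| * ‖ξ‖) * C) * ((|ε| * ‖ξ‖) * C) :=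
          mul_self_le_mul_self (norm_nonneg _) h4
        have h7 := mul_le_mul_of_nonneg_left h6 K₂.2
        calc (K₂ : ℝ) * ‖Φ s (w + ε • ξ) - Φ s w‖ * ‖Φ s (w + ε • ξ) - Φ s w‖
            = K₂ * (‖Φ s (w + ε • ξ) - Φ s w‖ * ‖Φ s (w + ε • ξ) - Φ s w‖) := by ring
          _ ≤ K₂ * (((|ε| * ‖ξ‖) * C) * ((|ε| * ‖ξ‖) * C)) := h7
          _ = K₂ * C * C * ‖ξ‖ ^ 2 * |ε| ^ 2 := by ring
          _ = _ := by rw [sq_abs]
      have h8 : ‖e' s‖ ≤ ‖X (Φ s (w + ε • ξ)) - X (Φ s w) - M s (Φ s (w + ε • ξ) - Φ s w)‖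
          + ‖M s (e s)‖ := by rw [h1]; exact norm_add_le _ _
      have h9 : 0 ≤ ‖e s‖ := norm_nonneg _
      linarith
    have hcont : ContinuousOn e (Icc 0 δ) := fun s hs => (hed s hs).continuousWithinAt
    have hder : ∀ s ∈ Ico 0 δ, HasDerivWithinAt e (e' s) (Ici s) s := by
      intro s hs
      refine (hed s ⟨hs.1, hs.2.le⟩).mono_of_mem_nhdsWithin ?_
      rw [mem_nhdsWithin]
      refine ⟨Iio δ, isOpen_Iio, hs.2, fun r hr => ⟨hs.1.trans hr.2, hr.1.le⟩⟩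
    have h10 := norm_le_gronwallBound_of_norm_deriv_right_le (f := e) (f' := e') (δ := 0)
      (K := (K : ℝ) + 1) (ε := K₂ * C * C * ‖ξ‖ ^ 2 * ε ^ 2) (a := 0) (b := δ) hcont hder
      (by simp [he, hΦ.zero, hZ0]) (fun s hs => hb s ⟨hs.1, hs.2.le⟩) δ ⟨hδ, le_rfl⟩
    rw [gronwallBound_of_K_ne_0 (by positivity)] at h10
    refine h10.trans (le_of_eq ?_)
    rw [hC', sub_zero]; ring
  have h1 : HasDerivAt (fun ε : ℝ => Φ δ (w + ε • ξ)) (Z δ) 0 := by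
    rw [hasDerivAt_iff_isLittleO_nhds_zero]
    have h2 : (fun ε : ℝ => Φ δ (w + (0 + ε) • ξ) - Φ δ (w + (0 : ℝ) • ξ) - ε • Z δ)
        =O[𝓝 0] fun ε => ε ^ 2 := by
      refine Asymptotics.IsBigO.of_bound C' (Eventually.of_forall fun ε => ?_)
      rw [Real.norm_of_nonneg (by positivity : 0 ≤ ε ^ 2), zero_add, zero_smul, add_zero]
      exact hest ε
    refine h2.trans_isLittleO ?_
    have h3 : (fun ε : ℝ => ε ^ 2) =o[𝓝 0] fun ε => ε ^ 1 :=
      Asymptotics.isLittleO_pow_pow (show 1 < 2 by norm_num)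
    simpa using h3
  have h4 : HasDerivAt (fun ε : ℝ => Φ δ (w + ε • ξ)) (fderiv ℝ (Φ δ) w ξ) 0 := by
    have h5 : HasDerivAt (fun ε : ℝ => w + ε • ξ) ξ 0 := by
      simpa using ((hasDerivAt_id (0 : ℝ)).smul_const ξ).const_add w
    have h6 : HasFDerivAt (Φ δ) (fderiv ℝ (Φ δ) w) (w + (0 : ℝ) • ξ) := by
      rw [zero_smul, add_zero]; exact (hΦ.differentiable hX δ w).hasFDerivAt
    exact h6.comp_hasDerivAt (0 : ℝ) h5
  exact h4.unique h1

theorem IsFlow.deriv_right (hX : IsVF X K K₂) (hΦ : IsFlow X Φ) (z η : G) :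
    HasDerivWithinAt (fun s => fderiv ℝ (Φ s) z η) (fderiv ℝ X z η) (Ici 0) 0 := by
  set δ : ℝ := 1 / (2 * ((K : ℝ) + 1)) with hδ
  have hδ0 : 0 < δ := by positivity
  have hMc : Continuous fun s => fderiv ℝ X (Φ s z) :=
    (hX.lip'.continuous).comp (hΦ.continuous_left z)
  obtain ⟨Z, hZ0, hZ⟩ := exists_lin (K := K) hδ0.le (by rw [hδ]; field_simp; exact le_rfl)
    hMc.continuousOn (fun s _ => norm_fderiv_le_of_lipschitz ℝ hX.lip) η
  have h1 : ∀ s ∈ Icc 0 δ, fderiv ℝ (Φ s) z η = Z s := by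
    intro s hs
    refine hΦ.variation hX hs.1 hZ0 fun r hr => ?_
    exact (hZ r ⟨hr.1, hr.2.trans hs.2⟩).mono (Icc_subset_Icc_right hs.2)
  have h2 : HasDerivWithinAt Z (fderiv ℝ X z η) (Icc 0 δ) 0 := by
    have := hZ 0 ⟨le_rfl, hδ0.le⟩
    rwa [hΦ.zero, hZ0] at this
  have h3 : HasDerivWithinAt (fun s => fderiv ℝ (Φ s) z η) (fderiv ℝ X z η) (Icc 0 δ) 0 :=
    h2.congr h1 (h1 0 ⟨le_rfl, hδ0.le⟩)
  refine h3.mono_of_mem_nhdsWithin ?_
  rw [mem_nhdsWithin]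
  exact ⟨Iio δ, isOpen_Iio, hδ0, fun r hr => ⟨hr.2, hr.1.le⟩⟩

theorem IsFlow.deriv_zero (hX : IsVF X K K₂) (hΦ : IsFlow X Φ) (z η : G) :
    HasDerivAt (fun s => fderiv ℝ (Φ s) z η) (fderiv ℝ X z η) 0 := by
  have h1 := hΦ.deriv_right hX z η
  have h2 := hΦ.rev.deriv_right hX.neg z η
  have h3 : fderiv ℝ (fun w => -X w) z η = -(fderiv ℝ X z η) := by
    rw [fderiv_fun_neg]; rfl
  rw [h3] at h2
  have h4 : HasDerivWithinAt (fun s : ℝ => -s) (-1) (Iic 0) 0 :=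
    (hasDerivAt_id (0 : ℝ)).neg.hasDerivWithinAt
  have h5 : HasDerivWithinAt (fun s => fderiv ℝ (Φ s) z η) (fderiv ℝ X z η) (Iic 0) 0 := by
    have h6 := HasDerivWithinAt.scomp (t' := Ici (0 : ℝ)) (s := Iic (0 : ℝ))
      (g₁ := fun s => fderiv ℝ (fun w => Φ (-s) w) z η) (h := fun s : ℝ => -s) (0 : ℝ)
      (by rw [neg_zero]; exact h2) h4 (fun s hs => by
        simp only [mem_Ici, mem_Iic] at hs ⊢; linarith)
    simpa [Function.comp_def] using h6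
  have h7 := h5.union h1
  rw [Iic_union_Ici] at h7
  exact hasDerivWithinAt_univ.1 h7

theorem IsFlow.fderiv_add (hX : IsVF X K K₂) (hΦ : IsFlow X Φ) (s t : ℝ) (w ξ : G) :
    fderiv ℝ (Φ (s + t)) w ξ = fderiv ℝ (Φ s) (Φ t w) (fderiv ℝ (Φ t) w ξ) := by
  have h1 : Φ (s + t) = fun w => Φ s (Φ t w) := funext fun w => hΦ.add hX s t w
  have h2 : HasFDerivAt (fun w => Φ s (Φ t w)) ((fderiv ℝ (Φ s) (Φ t w)) ∘L (fderiv ℝ (Φ t) w)) w :=
    (hΦ.differentiable hX s (Φ t w)).hasFDerivAt.comp w (hΦ.differentiable hX t w).hasFDerivAt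
  rw [h1, h2.fderiv]; rfl

/-- The variational equation. -/
theorem IsFlow.deriv_fderiv (hX : IsVF X K K₂) (hΦ : IsFlow X Φ) (w ξ : G) (t : ℝ) :
    HasDerivAt (fun t => fderiv ℝ (Φ t) w ξ) (fderiv ℝ X (Φ t w) (fderiv ℝ (Φ t) w ξ)) t := by
  have h1 := hΦ.deriv_zero hX (Φ t w) (fderiv ℝ (Φ t) w ξ)
  have h2 : HasDerivAt (fun s : ℝ => s - t) 1 t := (hasDerivAt_id t).sub_const t
  have h3 : HasDerivAt (fun s => fderiv ℝ (Φ (s - t)) (Φ t w) (fderiv ℝ (Φ t) w ξ))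
      ((1 : ℝ) • fderiv ℝ X (Φ t w) (fderiv ℝ (Φ t) w ξ)) t :=
    HasDerivAt.scomp (g₁ := fun s => fderiv ℝ (Φ s) (Φ t w) (fderiv ℝ (Φ t) w ξ))
      (h := fun s : ℝ => s - t) t (by rw [sub_self]; exact h1) h2
  rw [one_smul] at h3
  have h4 : (fun t => fderiv ℝ (Φ t) w ξ)
      = fun s => fderiv ℝ (Φ (s - t)) (Φ t w) (fderiv ℝ (Φ t) w ξ) := by
    funext s
    rw [← hΦ.fderiv_add hX, sub_add_cancel]
  rw [h4]; exact h3

theorem IsFlow.norm_fderiv_le (hX : IsVF X K K₂) (hΦ : IsFlow X Φ) (t : ℝ) (w ξ : G) :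
    ‖fderiv ℝ (Φ t) w ξ‖ ≤ Real.exp (K * |t|) * ‖ξ‖ := by
  have h1 : LipschitzWith ⟨Real.exp (K * |t|), (Real.exp_pos _).le⟩ (Φ t) :=
    LipschitzWith.of_dist_le_mul fun x y => by
      have := hΦ.dist_le hX t x y
      rw [mul_comm] at this
      exact this
  exact (fderiv ℝ (Φ t) w).le_of_opNorm_le (norm_fderiv_le_of_lipschitz ℝ h1) ξ

end

/-- Linear plus smooth with compact support. -/
def IsCS {G : Type*} [NormedAddCommGroup G] [NormedSpace ℝ G] (X : G → G) : Prop :=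
  ∃ (L : G →L[ℝ] G) (Y : G → G), ContDiff ℝ ∞ Y ∧ HasCompactSupport Y ∧ ∀ z, X z = L z + Y z

section

variable {G : Type*} [NormedAddCommGroup G] [NormedSpace ℝ G] [FiniteDimensional ℝ G]

omit [FiniteDimensional ℝ G] in
theorem IsCS.contDiff {X : G → G} (hX : IsCS X) : ContDiff ℝ ∞ X := by
  obtain ⟨L, Y, hY, -, h⟩ := hX
  have : X = fun z => L z + Y z := funext h
  rw [this]; exact L.contDiff.add hY

theorem IsCS.isVF {X : G → G} (hX : IsCS X) : ∃ K K₂ : NNReal, IsVF X K K₂ := by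
  have hsm := hX.contDiff
  obtain ⟨L, Y, hY, hc, h⟩ := hX
  have hXe : X = fun z => L z + Y z := funext h
  obtain ⟨C, hC⟩ : ∃ C : NNReal, LipschitzWith C Y :=
    ContDiff.lipschitzWith_of_hasCompactSupport hc hY (by simp)
  obtain ⟨C₂, hC₂⟩ : ∃ C : NNReal, LipschitzWith C (fderiv ℝ Y) :=
    ContDiff.lipschitzWith_of_hasCompactSupport (hc.fderiv (𝕜 := ℝ))
      (hY.fderiv_right (m := ∞) (by norm_num)) (by simp)
  have hfd : ∀ z, fderiv ℝ X z = L + fderiv ℝ Y z := by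
    intro z
    have h1 : HasFDerivAt X (L + fderiv ℝ Y z) z := by
      rw [hXe]
      exact L.hasFDerivAt.add (hY.differentiable (by simp) z).hasFDerivAt
    exact h1.fderiv
  refine ⟨‖L‖₊ + C, C₂, hsm.of_le (by exact_mod_cast le_top), ?_, ?_⟩
  · rw [hXe]; exact L.lipschitz.add hC
  · refine LipschitzWith.of_dist_le_mul fun x y => ?_
    rw [hfd, hfd, dist_add_left]
    exact hC₂.dist_le_mul x y

/-- The truncated tangent vector field. -/
theorem IsCS.tangent {X : G → G} (hX : IsCS X) (R : ℝ) :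
    ∃ T : G × G → G × G, IsCS T ∧ ∀ z ξ, ‖ξ‖ ≤ R → T (z, ξ) = (X z, fderiv ℝ X z ξ) := by
  obtain ⟨L, Y, hY, hc, h⟩ := hX
  have hXe : X = fun z => L z + Y z := funext h
  have hfd : ∀ z, fderiv ℝ X z = L + fderiv ℝ Y z := by
    intro z
    have h1 : HasFDerivAt X (L + fderiv ℝ Y z) z := by
      rw [hXe]
      exact L.hasFDerivAt.add (hY.differentiable (by simp) z).hasFDerivAt
    exact h1.fderiv
  have hr : 0 < max R 1 := lt_of_lt_of_le one_pos (le_max_right _ _)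
  let χ : ContDiffBump (0 : G) := ⟨max R 1, max R 1 + 1, hr, by linarith⟩
  let Y' : G × G → G × G := fun x => (χ x.2 • Y x.1, χ x.2 • fderiv ℝ Y x.1 x.2)
  let L' : (G × G) →L[ℝ] (G × G) := L.prodMap L
  have hχ : ContDiff ℝ ∞ (fun x : G × G => χ x.2) := χ.contDiff.comp contDiff_snd
  have hdY : ContDiff ℝ ∞ (fderiv ℝ Y) := hY.fderiv_right (m := ∞) (by norm_num)
  have hY' : ContDiff ℝ ∞ Y' := by
    refine ContDiff.prodMk (hχ.smul (hY.comp contDiff_fst)) (hχ.smul ?_)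
    exact (hdY.comp contDiff_fst).clm_apply contDiff_snd
  have hc' : HasCompactSupport Y' := by
    refine HasCompactSupport.intro (K := tsupport Y ×ˢ tsupport χ)
      (hc.isCompact.prod χ.hasCompactSupport.isCompact) ?_
    rintro ⟨z, ξ⟩ hz
    rw [Set.mem_prod, not_and_or] at hz
    rcases hz with hz | hz
    · have h1 : Y z = 0 := image_eq_zero_of_notMem_tsupport hz
      have h2 : fderiv ℝ Y z = 0 := fderiv_of_notMem_tsupport ℝ hz
      show (χ ξ • Y z, χ ξ • fderiv ℝ Y z ξ) = 0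
      rw [h1, h2]; simp
    · have h1 : χ ξ = 0 := image_eq_zero_of_notMem_tsupport hz
      show (χ ξ • Y z, χ ξ • fderiv ℝ Y z ξ) = 0
      rw [h1]; simp
  refine ⟨fun x => L' x + Y' x, ⟨L', Y', hY', hc', fun _ => rfl⟩, fun z ξ hξ => ?_⟩
  have h1 : χ ξ = 1 := by
    refine χ.one_of_mem_closedBall ?_
    rw [mem_closedBall, dist_zero_right]
    exact hξ.trans (le_max_left _ _)
  show (L z + χ ξ • Y z, L ξ + χ ξ • fderiv ℝ Y z ξ) = _
  rw [h1, one_smul, one_smul, h, hfd]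
  rfl

end

universe u

/-- Flows are smooth. -/
theorem flow_contDiff_nat (k : ℕ) : ∀ (G : Type u) [NormedAddCommGroup G] [NormedSpace ℝ G]
    [FiniteDimensional ℝ G] (X : G → G) (_ : IsCS X) (Φ : ℝ → G → G) (_ : IsFlow X Φ),
    ContDiff ℝ k (fun x : ℝ × G => Φ x.1 x.2) := by
  induction k with
  | zero =>
    intro G _ _ _ X hX Φ hΦ
    obtain ⟨K, K₂, hV⟩ := hX.isVF
    exact contDiff_zero.2 (hΦ.continuous hV)
  | succ k ih =>
    intro G _ _ _ X hX Φ hΦ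
    obtain ⟨K, K₂, hV⟩ := hX.isVF
    have hk := ih G X hX Φ hΦ
    rw [show ((k + 1 : ℕ) : WithTop ℕ∞) = (k : WithTop ℕ∞) + 1 by push_cast; rfl,
      contDiff_succ_iff_hasFDerivAt]
    refine ⟨fun x => (ContinuousLinearMap.fst ℝ ℝ G).smulRight (X (Φ x.1 x.2))
        + (fderiv ℝ (Φ x.1) x.2) ∘L (ContinuousLinearMap.snd ℝ ℝ G), ?_, fun x =>
        hΦ.hasFDerivAt hV x.1 x.2⟩
    refine ContDiff.add ?_ ?_
    · refine ContDiff.smulRight contDiff_const ?_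
      exact (hX.contDiff.of_le (by exact_mod_cast le_top)).comp hk
    · refine ContDiff.clm_comp ?_ contDiff_const
      rw [contDiff_clm_apply_iff]
      intro ξ
      rw [contDiff_iff_contDiffAt]
      rintro ⟨t₀, w₀⟩
      set T : ℝ := |t₀| + 1 with hT
      obtain ⟨V, hV1, hV2⟩ := hX.tangent (Real.exp (K * T) * ‖ξ‖)
      obtain ⟨K', K₂', hV'⟩ := hV1.isVF
      obtain ⟨Ψ, hΨ⟩ := hV'.exists_flow
      have h1 := ih (G × G) V hV1 Ψ hΨ
      have h2 : ∀ t ∈ Ioo (-T) T, ∀ w, (Φ t w, fderiv ℝ (Φ t) w ξ) = Ψ t (w, ξ) := by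
        intro t ht w
        have h0T : (0 : ℝ) ∈ Ioo (-T) T := by
          have : 0 ≤ |t₀| := abs_nonneg _
          constructor <;> rw [hT] <;> linarith
        have h3 := hΨ.unique hV' h0T (γ := fun t => (Φ t w, fderiv ℝ (Φ t) w ξ)) (fun s hs => by
          have h4 : ‖fderiv ℝ (Φ s) w ξ‖ ≤ Real.exp (K * T) * ‖ξ‖ := by
            refine (hΦ.norm_fderiv_le hV s w ξ).trans (mul_le_mul_of_nonneg_right ?_ (norm_nonneg _))
            exact Real.exp_le_exp.2 (mul_le_mul_of_nonneg_left (abs_lt.2 hs).le K.2)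
          rw [hV2 _ _ h4]
          exact (hΦ.deriv s w).prodMk (hΦ.deriv_fderiv hV w ξ s)) 0 (w, ξ) (by
          have h5 : Φ 0 = fun w => w := funext hΦ.zero
          rw [add_zero, hΨ.zero]
          simp only [h5, fderiv_fun_id]
          rfl) t ht
        rw [add_zero] at h3
        exact h3
      have h6 : ContDiffAt ℝ k (fun x : ℝ × G => (Ψ x.1 (x.2, ξ)).2) (t₀, w₀) := by
        have h7 : ContDiff ℝ k (fun x : ℝ × G => (Ψ x.1 (x.2, ξ)).2) :=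
          contDiff_snd.comp (h1.comp (contDiff_fst.prodMk (contDiff_snd.prodMk contDiff_const)))
        exact h7.contDiffAt
      refine h6.congr_of_eventuallyEq ?_
      have h8 : ∀ᶠ x : ℝ × G in 𝓝 (t₀, w₀), x.1 ∈ Ioo (-T) T := by
        refine continuous_fst.continuousAt.preimage_mem_nhds (Ioo_mem_nhds ?_ ?_)
        · show -T < t₀
          rw [hT]; linarith [neg_abs_le t₀]
        · show t₀ < T
          rw [hT]; linarith [le_abs_self t₀]
      filter_upwards [h8] with x hx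
      exact congrArg Prod.snd (h2 x.1 hx x.2)

theorem flow_contDiff {G : Type*} [NormedAddCommGroup G] [NormedSpace ℝ G]
    [FiniteDimensional ℝ G] {X : G → G} (hX : IsCS X) {Φ : ℝ → G → G} (hΦ : IsFlow X Φ) :
    ContDiff ℝ ∞ (fun x : ℝ × G => Φ x.1 x.2) :=
  contDiff_infty.2 fun k => flow_contDiff_nat k G X hX Φ hΦ

end Pool.Agent.H91.GE
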