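import Pool.Agent.H91.GS.Meagre

/-!
# Loops are rare
-/

set_option autoImplicit false

open scoped InnerProductSpace Topology ContDiff
open Set Filter

namespace Pool.Agent.H91.GE

section general

theorem nowhereDense_of_slices {P Q : Type*} [TopologicalSpace P] [TopologicalSpace Q] [BaireSpace Q]
    {O C C' : Set (P × Q)} (hO : IsOpen O) (hC' : IsClosed C') (hC : C = C' ∩ O)
    (hs : ∀ p, IsMeagre {q | (p, q) ∈ C}) : IsNowhereDense C := by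
  rw [IsNowhereDense, eq_empty_iff_forall_notMem]
  intro x hx
  set V := interior (closure C) with hV
  obtain ⟨c, hcV, hcC⟩ := mem_closure_iff.1 (interior_subset hx : x ∈ closure C) V isOpen_interior hx
  have hsub : V ∩ O ⊆ C := by
    rintro y ⟨hyV, hyO⟩
    have h1 : y ∈ closure C := interior_subset hyV
    have h2 : closure C ⊆ C' := closure_minimal (by rw [hC]; exact inter_subset_left) hC'
    rw [hC]; exact ⟨h2 h1, hyO⟩
  have hcO : c ∈ O := by rw [hC] at hcC; exact hcC.2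
  have hopen : IsOpen {q : Q | (c.1, q) ∈ V ∩ O} :=
    (isOpen_interior.inter hO).preimage (Continuous.prodMk_right c.1)
  refine not_isMeagre_of_isOpen hopen ⟨c.2, hcV, hcO⟩ ?_
  exact (hs c.1).mono fun q hq => hsub hq

theorem nowhereDense_of_slices' {P Q : Type*} [TopologicalSpace P] [TopologicalSpace Q]
    [BaireSpace P] {O C C' : Set (P × Q)} (hO : IsOpen O) (hC' : IsClosed C') (hC : C = C' ∩ O)
    (hs : ∀ q, IsMeagre {p | (p, q) ∈ C}) : IsNowhereDense C := by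
  rw [IsNowhereDense, eq_empty_iff_forall_notMem]
  intro x hx
  set V := interior (closure C) with hV
  obtain ⟨c, hcV, hcC⟩ := mem_closure_iff.1 (interior_subset hx : x ∈ closure C) V isOpen_interior hx
  have hsub : V ∩ O ⊆ C := by
    rintro y ⟨hyV, hyO⟩
    have h1 : y ∈ closure C := interior_subset hyV
    have h2 : closure C ⊆ C' := closure_minimal (by rw [hC]; exact inter_subset_left) hC'
    rw [hC]; exact ⟨h2 h1, hyO⟩
  have hcO : c ∈ O := by rw [hC] at hcC; exact hcC.2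
  have hopen : IsOpen {p : P | (p, c.2) ∈ V ∩ O} :=
    (isOpen_interior.inter hO).preimage (Continuous.prodMk_left c.2)
  refine not_isMeagre_of_isOpen hopen ⟨c.1, hcV, hcO⟩ ?_
  exact (hs c.2).mono fun q hq => hsub hq

theorem meagre_curve {c : ℝ → ℝ × ℝ} (hc : ContDiff ℝ 1 c) : IsMeagre (range c) := by
  have h1 : range c = ⋃ n : ℕ, c '' Icc (-(n : ℝ)) n := by
    ext x
    constructor
    · rintro ⟨t, rfl⟩
      obtain ⟨n, hn⟩ := exists_nat_ge |t|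
      exact mem_iUnion.2 ⟨n, mem_image_of_mem _ (abs_le.1 hn)⟩
    · intro hx
      obtain ⟨n, t, -, rfl⟩ := mem_iUnion.1 hx
      exact ⟨t, rfl⟩
  have hd : Dense (range c)ᶜ := hc.dense_compl_range_of_finrank_lt_finrank (by simp)
  rw [h1]
  refine isMeagre_iUnion fun n => IsNowhereDense.isMeagre ?_
  have hcl : IsClosed (c '' Icc (-(n : ℝ)) n) := (isCompact_Icc.image hc.continuous).isClosed
  rw [hcl.isNowhereDense_iff, interior_eq_empty_iff_dense_compl]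
  exact hd.mono (compl_subset_compl.2 (image_subset_range _ _))

end general

variable {E F : Type*} [NormedAddCommGroup E] [InnerProductSpace ℝ E] [FiniteDimensional ℝ E]
  [NormedAddCommGroup F] [InnerProductSpace ℝ F] [FiniteDimensional ℝ F]
  {S : Set E} {A : E × E → E} {K K₂ : NNReal} {Φ : ℝ → E × E → E × E}

/-- Finiteness of directions which reach `Z` in bounded time. -/
theorem fin_dir (h : GFlow F S A K K₂ Φ) (hsec : Secure S) {X Z : E} (hX : X ∈ S) (hZ : Z ∈ S)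
    (T : ℝ) : {v : E | (X, v) ∈ TSet S ∧ ‖v‖ = 1 ∧ ∃ t, 0 < |t| ∧ |t| ≤ T ∧ (Φ t (X, v)).1 = Z}.Finite := by
  have hfin := finite_geodesics h.compact h.sub hsec hX hZ T
  refine ((hfin.image fun σ => ‖deriv σ 0‖⁻¹ • deriv σ 0).union
    (hfin.image fun σ => -(‖deriv σ 0‖⁻¹ • deriv σ 0))).subset ?_
  rintro v ⟨hv, hv1, t, ht0, htT, htZ⟩
  obtain ⟨h1, h2⟩ := h.isGeo hv (show ‖v‖ ≤ 2 by rw [hv1]; norm_num)
  have h3 := h1.affine 0 t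
  have h4 := deriv_affine h1 0 t
  rw [h2] at h4
  have h5 : deriv (fun s => (Φ (0 + t * s) (X, v)).1) 0 = t • v := by
    rw [h4]
    show t • (Φ (0 + t * 0) (X, v)).2 = t • v
    rw [mul_zero, add_zero, h.flow.zero]
  have hn : ‖deriv (fun s => (Φ (0 + t * s) (X, v)).1) 0‖ = |t| := by
    rw [h5, norm_smul, hv1, mul_one, Real.norm_eq_abs]
  have hmem : (fun s => (Φ (0 + t * s) (X, v)).1) ∈ {γ : ℝ → E | IsGeo S γ ∧ γ 0 = X ∧ γ 1 = Z ∧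
      deriv γ 0 ≠ 0 ∧ ‖deriv γ 0‖ ≤ T} := by
    refine ⟨h3, ?_, ?_, ?_, ?_⟩
    · show (Φ (0 + t * 0) (X, v)).1 = X
      rw [mul_zero, add_zero, h.flow.zero]
    · show (Φ (0 + t * 1) (X, v)).1 = Z
      rw [mul_one, zero_add]; exact htZ
    · rw [← norm_ne_zero_iff, hn]; exact ht0.ne'
    · rw [hn]; exact htT
  rcases lt_or_gt_of_ne (abs_pos.1 ht0) with h6 | h6
  · right
    refine ⟨_, hmem, ?_⟩
    show -(‖deriv (fun s => (Φ (0 + t * s) (X, v)).1) 0‖⁻¹ •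
      deriv (fun s => (Φ (0 + t * s) (X, v)).1) 0) = v
    rw [hn, h5, abs_of_neg h6, smul_smul, ← neg_smul]
    have h7 : -((-t)⁻¹ * t) = 1 := by
      rw [inv_neg, neg_mul, neg_neg, inv_mul_cancel₀ h6.ne]
    rw [h7, one_smul]
  · left
    refine ⟨_, hmem, ?_⟩
    show ‖deriv (fun s => (Φ (0 + t * s) (X, v)).1) 0‖⁻¹ •
      deriv (fun s => (Φ (0 + t * s) (X, v)).1) 0 = v
    rw [hn, h5, abs_of_pos h6, smul_smul, inv_mul_cancel₀ h6.ne', one_smul]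

/-- A geodesic through `X` and `Y` which passes twice through `X`. -/
def Loop (S : Set E) (X Y : E) : Prop :=
  ∃ γ : ℝ → E, IsGeo S γ ∧ deriv γ 0 ≠ 0 ∧ γ 0 = X ∧ (∃ a, a ≠ 0 ∧ γ a = X) ∧ ∃ b, γ b = Y

/-- Loops of bounded length. -/
def LM (Φ : ℝ → E × E → E × E) (S : Set E) (m : ℕ) : Set (E × E) :=
  (fun y : (E × E) × (ℝ × ℝ) => (y.1.1, (Φ y.2.2 y.1).1)) ''
    {y | y.1 ∈ TSet S ∧ ‖y.1.2‖ = 1 ∧ 1 / ((m : ℝ) + 1) ≤ |y.2.1| ∧ |y.2.1| ≤ m + 1 ∧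
      |y.2.2| ≤ m + 1 ∧ (Φ y.2.1 y.1).1 = y.1.1}

theorem isClosed_LM (h : GFlow F S A K K₂ Φ) (m : ℕ) : IsClosed (LM Φ S m) := by
  have hΦ : Continuous (fun x : ℝ × (E × E) => Φ x.1 x.2) := h.contDiff.continuous
  have c1 : Continuous fun y : (E × E) × (ℝ × ℝ) => Φ y.2.1 y.1 :=
    hΦ.comp (continuous_snd.fst.prodMk continuous_fst)
  have c2 : Continuous fun y : (E × E) × (ℝ × ℝ) => Φ y.2.2 y.1 :=
    hΦ.comp (continuous_snd.snd.prodMk continuous_fst)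
  have hcpt : IsCompact {y : (E × E) × (ℝ × ℝ) | y.1 ∈ TSet S ∧ ‖y.1.2‖ = 1 ∧
      1 / ((m : ℝ) + 1) ≤ |y.2.1| ∧ |y.2.1| ≤ m + 1 ∧
      |y.2.2| ≤ m + 1 ∧ (Φ y.2.1 y.1).1 = y.1.1} := by
    refine IsCompact.of_isClosed_subset ((h.compact.prod (isCompact_closedBall (0 : E) 1)).prod
      ((isCompact_Icc (a := -((m : ℝ) + 1)) (b := m + 1)).prod
        (isCompact_Icc (a := -((m : ℝ) + 1)) (b := m + 1)))) ?_ ?_
    · refine ((isClosed_TSet h.compact h.sub).preimage continuous_fst).inter ?_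
      refine (isClosed_eq continuous_fst.snd.norm continuous_const).inter ?_
      refine (isClosed_le continuous_const continuous_snd.fst.abs).inter ?_
      refine (isClosed_le continuous_snd.fst.abs continuous_const).inter ?_
      refine (isClosed_le continuous_snd.snd.abs continuous_const).inter ?_
      exact isClosed_eq c1.fst continuous_fst.fst
    · rintro ⟨⟨q, v⟩, ⟨a, b⟩⟩ ⟨h1, h2, -, h4, h5, -⟩
      exact ⟨⟨fst_mem_TSet h1, by simpa using h2.le⟩, abs_le.1 h4, abs_le.1 h5⟩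
  exact (hcpt.image (continuous_fst.fst.prodMk c2.fst)).isClosed

theorem mem_LM_of_Loop (h : GFlow F S A K K₂ Φ) {X Y : E} (hl : Loop S X Y) :
    ∃ m : ℕ, (X, Y) ∈ LM Φ S m := by
  obtain ⟨γ, hγ, hd, h0, ⟨a, ha, haX⟩, b, hbY⟩ := hl
  set s : ℝ := ‖deriv γ 0‖ with hs
  have hs0 : 0 < s := norm_pos_iff.2 hd
  set v : E := s⁻¹ • deriv γ 0 with hv
  have hv1 : ‖v‖ = 1 := by
    rw [hv, norm_smul, norm_inv, Real.norm_of_nonneg hs0.le, ← hs, inv_mul_cancel₀ hs0.ne']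
  have hvT : (X, v) ∈ TSet S := by
    have h1 := hγ.mem_TSet 0
    rw [h0] at h1
    exact scale_TSet h1 h.sub _
  have hfl : ∀ t, (Φ (s * t) (X, v)).1 = γ t := by
    intro t
    have := (h.of_geo_scaled hγ hs0 (by rw [← hs]; linarith) t).1
    rw [h0] at this
    exact this.symm
  obtain ⟨m₁, hm₁⟩ := exists_nat_ge |s * a|
  obtain ⟨m₂, hm₂⟩ := exists_nat_ge |s * b|
  obtain ⟨m₃, hm₃⟩ := exists_nat_ge (1 / |s * a|)
  have hsa : 0 < |s * a| := abs_pos.2 (mul_ne_zero hs0.ne' ha)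
  have hmm : ∀ (i : ℕ), i ≤ m₁ + m₂ + m₃ → (i : ℝ) ≤ ((m₁ + m₂ + m₃ : ℕ) : ℝ) + 1 := by
    intro i hi
    have : (i : ℝ) ≤ ((m₁ + m₂ + m₃ : ℕ) : ℝ) := by exact_mod_cast hi
    linarith
  refine ⟨m₁ + m₂ + m₃, ((X, v), (s * a, s * b)), ⟨hvT, hv1, ?_, ?_, ?_, ?_⟩, ?_⟩
  · show 1 / (((m₁ + m₂ + m₃ : ℕ) : ℝ) + 1) ≤ |s * a|
    have h1 : 1 / |s * a| ≤ ((m₁ + m₂ + m₃ : ℕ) : ℝ) + 1 := hm₃.trans (hmm m₃ (by omega))
    exact (one_div_le hsa (by positivity)).1 h1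
  · exact hm₁.trans (hmm m₁ (by omega))
  · exact hm₂.trans (hmm m₂ (by omega))
  · show (Φ (s * a) (X, v)).1 = X
    rw [hfl, haX]
  · show (X, (Φ (s * b) (X, v)).1) = (X, Y)
    rw [hfl, hbY]

theorem slice_LM (h : GFlow F S A K K₂ Φ) (hsec : Secure S) {Ω : Set (ℝ × ℝ)} {ψ : ℝ × ℝ → E}
    {P : E →L[ℝ] ℝ × ℝ} {W : Set E} (hc : Chart S Ω ψ P W) (X : E) (m : ℕ) :
    IsMeagre {q : ℝ × ℝ | q ∈ Ω ∧ (X, ψ q) ∈ LM Φ S m} := by
  by_cases hX : X ∈ S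
  swap
  · refine (IsMeagre.empty).mono ?_
    rintro q ⟨-, ⟨⟨q', v⟩, ⟨a, b⟩⟩, ⟨h1, -⟩, h2⟩
    have h3 : q' = X := congrArg Prod.fst h2
    exact hX (h3 ▸ fst_mem_TSet h1)
  set V := {v : E | (X, v) ∈ TSet S ∧ ‖v‖ = 1 ∧ ∃ t, 0 < |t| ∧ |t| ≤ (m : ℝ) + 1 ∧
    (Φ t (X, v)).1 = X} with hV
  have hfin : V.Finite := fin_dir h hsec hX hX _
  have hm : IsMeagre (⋃ v ∈ V, range fun t => P (Φ t (X, v)).1) := by
    haveI := hfin.countable.to_subtype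
    rw [biUnion_eq_iUnion]
    refine isMeagre_iUnion fun v => meagre_curve ?_
    refine P.contDiff.comp ?_
    have h1 : ContDiff ℝ ∞ fun t => Φ t (X, (v : E)) :=
      h.contDiff.comp (contDiff_id.prodMk contDiff_const)
    exact (h1.of_le (by exact_mod_cast le_top)).fst
  refine hm.mono ?_
  rintro q ⟨hq, ⟨⟨q', v⟩, ⟨a, b⟩⟩, ⟨h1, h2, h3, h4, h5, h6⟩, h7⟩
  have h8 : q' = X := congrArg Prod.fst h7
  subst h8
  have h9 : (Φ b (q', v)).1 = ψ q := congrArg Prod.snd h7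
  rw [mem_iUnion₂]
  refine ⟨v, ⟨h1, h2, a, ?_, h4, h6⟩, b, ?_⟩
  · refine lt_of_lt_of_le ?_ h3
    positivity
  · show P (Φ b (q', v)).1 = q
    rw [h9, hc.left _ hq]

variable {Ω₁ Ω₂ : Set (ℝ × ℝ)} {ψ₁ ψ₂ : ℝ × ℝ → E} {P₁ P₂ : E →L[ℝ] ℝ × ℝ} {W₁ W₂ : Set E}

theorem loop_meagre (h : GFlow F S A K K₂ Φ) (hsec : Secure S) (hp₁ : Par S Ω₁ ψ₁)
    (hc₂ : Chart S Ω₂ ψ₂ P₂ W₂) :
    IsMeagre {x : Pt | x.1 ∈ Ω₁ ∧ x.2 ∈ Ω₂ ∧ Loop S (ψ₁ x.1) (ψ₂ x.2)} := by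
  have hO : IsOpen {x : Pt | x.1 ∈ Ω₁ ∧ x.2 ∈ Ω₂} :=
    (hp₁.isOpen.preimage continuous_fst).inter (hc₂.isOpen.preimage continuous_snd)
  have hco : ContinuousOn (fun x : Pt => (ψ₁ x.1, ψ₂ x.2)) {x : Pt | x.1 ∈ Ω₁ ∧ x.2 ∈ Ω₂} :=
    (hp₁.smooth.continuousOn.comp continuousOn_fst fun x hx => hx.1).prodMk
      (hc₂.smooth.continuousOn.comp continuousOn_snd fun x hx => hx.2)
  have h1 : ∀ m : ℕ, IsMeagre {x : Pt | (x.1 ∈ Ω₁ ∧ x.2 ∈ Ω₂) ∧ (ψ₁ x.1, ψ₂ x.2) ∈ LM Φ S m} := by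
    intro m
    obtain ⟨C', hC', hCC⟩ := (continuousOn_iff_isClosed.1 hco) (LM Φ S m) (isClosed_LM h m)
    refine (nowhereDense_of_slices hO hC' (C := {x : Pt | (x.1 ∈ Ω₁ ∧ x.2 ∈ Ω₂) ∧
      (ψ₁ x.1, ψ₂ x.2) ∈ LM Φ S m}) ?_ fun p => ?_).isMeagre
    · rw [← hCC, inter_comm]; rfl
    · refine (slice_LM h hsec hc₂ (ψ₁ p) m).mono ?_
      intro q hq
      exact ⟨hq.1.2, hq.2⟩
  refine (isMeagre_iUnion h1).mono ?_
  rintro x ⟨hx1, hx2, hl⟩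
  obtain ⟨m, hm⟩ := mem_LM_of_Loop h hl
  exact mem_iUnion.2 ⟨m, ⟨hx1, hx2⟩, hm⟩

theorem loop_meagre' (h : GFlow F S A K K₂ Φ) (hsec : Secure S) (hc₁ : Chart S Ω₁ ψ₁ P₁ W₁)
    (hp₂ : Par S Ω₂ ψ₂) :
    IsMeagre {x : Pt | x.1 ∈ Ω₁ ∧ x.2 ∈ Ω₂ ∧ Loop S (ψ₂ x.2) (ψ₁ x.1)} := by
  have hO : IsOpen {x : Pt | x.1 ∈ Ω₁ ∧ x.2 ∈ Ω₂} :=
    (hc₁.isOpen.preimage continuous_fst).inter (hp₂.isOpen.preimage continuous_snd)
  have hco : ContinuousOn (fun x : Pt => (ψ₂ x.2, ψ₁ x.1)) {x : Pt | x.1 ∈ Ω₁ ∧ x.2 ∈ Ω₂} :=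
    (hp₂.smooth.continuousOn.comp continuousOn_snd fun x hx => hx.2).prodMk
      (hc₁.smooth.continuousOn.comp continuousOn_fst fun x hx => hx.1)
  have h1 : ∀ m : ℕ, IsMeagre {x : Pt | (x.1 ∈ Ω₁ ∧ x.2 ∈ Ω₂) ∧ (ψ₂ x.2, ψ₁ x.1) ∈ LM Φ S m} := by
    intro m
    obtain ⟨C', hC', hCC⟩ := (continuousOn_iff_isClosed.1 hco) (LM Φ S m) (isClosed_LM h m)
    refine (nowhereDense_of_slices' hO hC' (C := {x : Pt | (x.1 ∈ Ω₁ ∧ x.2 ∈ Ω₂) ∧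
      (ψ₂ x.2, ψ₁ x.1) ∈ LM Φ S m}) ?_ fun q => ?_).isMeagre
    · rw [← hCC, inter_comm]; rfl
    · refine (slice_LM h hsec hc₁ (ψ₂ q) m).mono ?_
      intro p hp
      exact ⟨hp.1.1, hp.2⟩
  refine (isMeagre_iUnion h1).mono ?_
  rintro x ⟨hx1, hx2, hl⟩
  obtain ⟨m, hm⟩ := mem_LM_of_Loop h hl
  exact mem_iUnion.2 ⟨m, ⟨hx1, hx2⟩, hm⟩

end Pool.Agent.H91.GE
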