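import Pool.Agent.H91.GS.Chart

/-!
# Christoffel symbols and Gauss curvature of a parametrised surface
-/

set_option autoImplicit false

open scoped InnerProductSpace Topology ContDiff
open Set Filter

namespace Pool.Agent.H91.GE

variable {E : Type*} [NormedAddCommGroup E] [InnerProductSpace ℝ E] [FiniteDimensional ℝ E]

/-- Metric coefficients. -/
noncomputable def gB (ψ : ℝ × ℝ → E) (x : ℝ × ℝ) : (ℝ × ℝ) →L[ℝ] (ℝ × ℝ) →L[ℝ] ℝ :=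
  (innerSL ℝ : E →L[ℝ] E →L[ℝ] ℝ).bilinearComp (fderiv ℝ ψ x) (fderiv ℝ ψ x)

omit [FiniteDimensional ℝ E] in
theorem gB_apply (ψ : ℝ × ℝ → E) (x u v : ℝ × ℝ) :
    gB ψ x u v = ⟪fderiv ℝ ψ x u, fderiv ℝ ψ x v⟫_ℝ := rfl

/-- The Gram determinant. -/
noncomputable def gD (ψ : ℝ × ℝ → E) (x : ℝ × ℝ) : ℝ :=
  gB ψ x (1, 0) (1, 0) * gB ψ x (0, 1) (0, 1) - gB ψ x (1, 0) (0, 1) ^ 2

/-- Coordinates of the tangential part. -/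
noncomputable def Qm (ψ : ℝ × ℝ → E) (x : ℝ × ℝ) : E →L[ℝ] ℝ × ℝ :=
  ((gB ψ x (0, 1) (0, 1) / gD ψ x) • innerSL ℝ (fderiv ℝ ψ x (1, 0))
    - (gB ψ x (1, 0) (0, 1) / gD ψ x) • innerSL ℝ (fderiv ℝ ψ x (0, 1))).prod
  ((gB ψ x (1, 0) (1, 0) / gD ψ x) • innerSL ℝ (fderiv ℝ ψ x (0, 1))
    - (gB ψ x (1, 0) (0, 1) / gD ψ x) • innerSL ℝ (fderiv ℝ ψ x (1, 0)))

omit [FiniteDimensional ℝ E] in
theorem Qm_apply (ψ : ℝ × ℝ → E) (x : ℝ × ℝ) (v : E) :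
    Qm ψ x v = ((gB ψ x (0, 1) (0, 1) / gD ψ x) * ⟪fderiv ℝ ψ x (1, 0), v⟫_ℝ
      - (gB ψ x (1, 0) (0, 1) / gD ψ x) * ⟪fderiv ℝ ψ x (0, 1), v⟫_ℝ,
      (gB ψ x (1, 0) (1, 0) / gD ψ x) * ⟪fderiv ℝ ψ x (0, 1), v⟫_ℝ
      - (gB ψ x (1, 0) (0, 1) / gD ψ x) * ⟪fderiv ℝ ψ x (1, 0), v⟫_ℝ) := rfl

/-- Christoffel symbols. -/
noncomputable def Chr (ψ : ℝ × ℝ → E) (x : ℝ × ℝ) : (ℝ × ℝ) →L[ℝ] (ℝ × ℝ) →L[ℝ] ℝ × ℝ :=
  (ContinuousLinearMap.compL ℝ (ℝ × ℝ) E (ℝ × ℝ) (Qm ψ x)) ∘L (fderiv ℝ (fderiv ℝ ψ) x)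

omit [FiniteDimensional ℝ E] in
theorem Chr_apply (ψ : ℝ × ℝ → E) (x u v : ℝ × ℝ) :
    Chr ψ x u v = Qm ψ x (fderiv ℝ (fderiv ℝ ψ) x u v) := rfl

/-- The normal part of the second derivative. -/
noncomputable def nB (ψ : ℝ × ℝ → E) (x u v : ℝ × ℝ) : E :=
  fderiv ℝ (fderiv ℝ ψ) x u v - fderiv ℝ ψ x (Chr ψ x u v)

/-- Gauss curvature. -/
noncomputable def GK (ψ : ℝ × ℝ → E) (x : ℝ × ℝ) : ℝ :=
  (⟪nB ψ x (1, 0) (1, 0), nB ψ x (0, 1) (0, 1)⟫_ℝ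
    - ⟪nB ψ x (1, 0) (0, 1), nB ψ x (1, 0) (0, 1)⟫_ℝ) / gD ψ x

theorem pair_eq (u : ℝ × ℝ) : u = u.1 • ((1, 0) : ℝ × ℝ) + u.2 • ((0, 1) : ℝ × ℝ) := by
  refine Prod.ext ?_ ?_ <;> simp

omit [FiniteDimensional ℝ E] in
theorem fderiv_pair (ψ : ℝ × ℝ → E) (x u : ℝ × ℝ) :
    fderiv ℝ ψ x u = u.1 • fderiv ℝ ψ x (1, 0) + u.2 • fderiv ℝ ψ x (0, 1) := by
  conv_lhs => rw [pair_eq u]
  rw [map_add, map_smul, map_smul]

variable {S : Set E} {Ω : Set (ℝ × ℝ)} {ψ : ℝ × ℝ → E}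

omit [FiniteDimensional ℝ E] in
theorem Par.gD_pos (h : Par S Ω ψ) {x : ℝ × ℝ} (hx : x ∈ Ω) : 0 < gD ψ x := by
  set a := fderiv ℝ ψ x (1, 0) with ha
  set b := fderiv ℝ ψ x (0, 1) with hb
  have hD : gD ψ x = ⟪a, a⟫_ℝ * ⟪b, b⟫_ℝ - ⟪a, b⟫_ℝ ^ 2 := rfl
  have hane : a ≠ 0 := by
    intro h0
    have h1 := h.inj x hx (a₁ := (1, 0)) (a₂ := 0) (by rw [map_zero]; exact h0)
    have := congrArg Prod.fst h1
    simp at this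
  have haa : 0 < ⟪a, a⟫_ℝ := real_inner_self_pos.2 hane
  have h2 : b - (⟪a, b⟫_ℝ / ⟪a, a⟫_ℝ) • a ≠ 0 := by
    intro h0
    have h1 := h.inj x hx (a₁ := (-(⟪a, b⟫_ℝ / ⟪a, a⟫_ℝ), 1)) (a₂ := 0) (by
      rw [map_zero, fderiv_pair]
      show -(⟪a, b⟫_ℝ / ⟪a, a⟫_ℝ) • a + (1 : ℝ) • b = 0
      rw [one_smul, neg_smul, ← h0]; abel)
    have := congrArg Prod.snd h1
    simp at this
  have h3 := real_inner_self_pos.2 h2
  have h4 : ⟪b - (⟪a, b⟫_ℝ / ⟪a, a⟫_ℝ) • a, b - (⟪a, b⟫_ℝ / ⟪a, a⟫_ℝ) • a⟫_ℝ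
      = gD ψ x / ⟪a, a⟫_ℝ := by
    rw [hD]
    simp only [inner_sub_left, inner_sub_right, inner_smul_left, inner_smul_right,
      RCLike.conj_to_real, real_inner_comm a b]
    field_simp
    ring
  rw [h4] at h3
  exact (div_pos_iff_of_pos_right haa).1 h3

omit [FiniteDimensional ℝ E] in
theorem Par.Qm_fderiv (h : Par S Ω ψ) {x : ℝ × ℝ} (hx : x ∈ Ω) (w : ℝ × ℝ) :
    Qm ψ x (fderiv ℝ ψ x w) = w := by
  have hD := (h.gD_pos hx).ne'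
  rw [Qm_apply, fderiv_pair ψ x w]
  set a := fderiv ℝ ψ x (1, 0) with ha
  set b := fderiv ℝ ψ x (0, 1) with hb
  have hDe : gD ψ x = ⟪a, a⟫_ℝ * ⟪b, b⟫_ℝ - ⟪a, b⟫_ℝ ^ 2 := rfl
  simp only [gB_apply, ← ha, ← hb, inner_add_right, inner_smul_right, real_inner_comm a b]
  refine Prod.ext ?_ ?_
  · simp only
    rw [div_mul_eq_mul_div, div_mul_eq_mul_div, ← sub_div, div_eq_iff hD, hDe]; ring
  · simp only
    rw [div_mul_eq_mul_div, div_mul_eq_mul_div, ← sub_div, div_eq_iff hD, hDe]; ring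

omit [FiniteDimensional ℝ E] in
theorem Par.inner_Qm (h : Par S Ω ψ) {x : ℝ × ℝ} (hx : x ∈ Ω) (v : E) (w : ℝ × ℝ) :
    ⟪v - fderiv ℝ ψ x (Qm ψ x v), fderiv ℝ ψ x w⟫_ℝ = 0 := by
  have hD := (h.gD_pos hx).ne'
  rw [Qm_apply, fderiv_pair ψ x w, fderiv_pair ψ x (_, _)]
  set a := fderiv ℝ ψ x (1, 0) with ha
  set b := fderiv ℝ ψ x (0, 1) with hb
  have hDe : gD ψ x = ⟪a, a⟫_ℝ * ⟪b, b⟫_ℝ - ⟪a, b⟫_ℝ ^ 2 := rfl
  have h1 : ⟪v - (((gB ψ x (0, 1) (0, 1) / gD ψ x) * ⟪a, v⟫_ℝ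
      - (gB ψ x (1, 0) (0, 1) / gD ψ x) * ⟪b, v⟫_ℝ) • a + ((gB ψ x (1, 0) (1, 0) / gD ψ x) * ⟪b, v⟫_ℝ
      - (gB ψ x (1, 0) (0, 1) / gD ψ x) * ⟪a, v⟫_ℝ) • b), a⟫_ℝ = 0 := by
    simp only [gB_apply, ← ha, ← hb, inner_sub_left, inner_add_left, inner_smul_left,
      RCLike.conj_to_real, real_inner_comm a b, real_inner_comm v a, real_inner_comm v b]
    field_simp
    rw [hDe]; ring
  have h2 : ⟪v - (((gB ψ x (0, 1) (0, 1) / gD ψ x) * ⟪a, v⟫_ℝ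
      - (gB ψ x (1, 0) (0, 1) / gD ψ x) * ⟪b, v⟫_ℝ) • a + ((gB ψ x (1, 0) (1, 0) / gD ψ x) * ⟪b, v⟫_ℝ
      - (gB ψ x (1, 0) (0, 1) / gD ψ x) * ⟪a, v⟫_ℝ) • b), b⟫_ℝ = 0 := by
    simp only [gB_apply, ← ha, ← hb, inner_sub_left, inner_add_left, inner_smul_left,
      RCLike.conj_to_real, real_inner_comm a b, real_inner_comm v a, real_inner_comm v b]
    field_simp
    rw [hDe]; ring
  rw [inner_add_right, inner_smul_right, inner_smul_right, h1, h2]; ring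

omit [FiniteDimensional ℝ E] in
theorem Par.inner_nB (h : Par S Ω ψ) {x : ℝ × ℝ} (hx : x ∈ Ω) (u v w : ℝ × ℝ) :
    ⟪nB ψ x u v, fderiv ℝ ψ x w⟫_ℝ = 0 := h.inner_Qm hx _ w

omit [FiniteDimensional ℝ E] in
theorem D2_eq (ψ : ℝ × ℝ → E) (x u v : ℝ × ℝ) :
    fderiv ℝ (fderiv ℝ ψ) x u v = fderiv ℝ ψ x (Chr ψ x u v) + nB ψ x u v := by
  rw [nB]; abel

/-- The metric is nondegenerate. -/
theorem Par.eq_of_gB (h : Par S Ω ψ) {x : ℝ × ℝ} (hx : x ∈ Ω) {u v : ℝ × ℝ}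
    (he : ∀ w, gB ψ x u w = gB ψ x v w) : u = v := by
  refine h.inj x hx ?_
  have h1 : ⟪fderiv ℝ ψ x (u - v), fderiv ℝ ψ x (u - v)⟫_ℝ = 0 := by
    have h2 := he (u - v)
    rw [gB_apply, gB_apply] at h2
    have h4 : ⟪fderiv ℝ ψ x (u - v), fderiv ℝ ψ x (u - v)⟫_ℝ
        = ⟪fderiv ℝ ψ x u, fderiv ℝ ψ x (u - v)⟫_ℝ - ⟪fderiv ℝ ψ x v, fderiv ℝ ψ x (u - v)⟫_ℝ := by
      rw [← inner_sub_left, ← map_sub]
    rw [h4, h2, sub_self]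
  have h3 := inner_self_eq_zero.1 h1
  rw [map_sub] at h3
  exact sub_eq_zero.1 h3

/-! ### Smoothness -/

omit [FiniteDimensional ℝ E] in
theorem Par.smooth1 (h : Par S Ω ψ) : ContDiffOn ℝ ∞ (fderiv ℝ ψ) Ω :=
  h.smooth.fderiv_of_isOpen h.isOpen (by simp)

omit [FiniteDimensional ℝ E] in
theorem Par.smooth2 (h : Par S Ω ψ) : ContDiffOn ℝ ∞ (fderiv ℝ (fderiv ℝ ψ)) Ω :=
  h.smooth1.fderiv_of_isOpen h.isOpen (by simp)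

omit [FiniteDimensional ℝ E] in
theorem Par.smooth_fderiv (h : Par S Ω ψ) (u : ℝ × ℝ) :
    ContDiffOn ℝ ∞ (fun x => fderiv ℝ ψ x u) Ω :=
  h.smooth1.clm_apply contDiffOn_const

theorem Par.smooth_gB' (h : Par S Ω ψ) (u v : ℝ × ℝ) :
    ContDiffOn ℝ ∞ (fun x => gB ψ x u v) Ω :=
  (h.smooth_fderiv u).inner ℝ (h.smooth_fderiv v)

theorem Par.smooth_gB (h : Par S Ω ψ) : ContDiffOn ℝ ∞ (gB ψ) Ω := by
  rw [contDiffOn_clm_apply]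
  intro u
  rw [contDiffOn_clm_apply]
  intro v
  exact h.smooth_gB' u v

theorem Par.smooth_gD (h : Par S Ω ψ) : ContDiffOn ℝ ∞ (gD ψ) Ω :=
  ((h.smooth_gB' _ _).mul (h.smooth_gB' _ _)).sub ((h.smooth_gB' _ _).pow 2)

theorem Par.smooth_Qm (h : Par S Ω ψ) : ContDiffOn ℝ ∞ (Qm ψ) Ω := by
  rw [contDiffOn_clm_apply]
  intro v
  have hin : ∀ u, ContDiffOn ℝ ∞ (fun x => ⟪fderiv ℝ ψ x u, v⟫_ℝ) Ω := fun u =>
    (h.smooth_fderiv u).inner ℝ contDiffOn_const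
  have hq : ∀ u w, ContDiffOn ℝ ∞ (fun x => gB ψ x u w / gD ψ x) Ω := fun u w =>
    (h.smooth_gB' u w).div h.smooth_gD fun x hx => (h.gD_pos hx).ne'
  exact (((hq _ _).mul (hin _)).sub ((hq _ _).mul (hin _))).prodMk
    (((hq _ _).mul (hin _)).sub ((hq _ _).mul (hin _)))

theorem Par.smooth_Chr (h : Par S Ω ψ) : ContDiffOn ℝ ∞ (Chr ψ) Ω := by
  rw [contDiffOn_clm_apply]
  intro u
  rw [contDiffOn_clm_apply]
  intro v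
  exact h.smooth_Qm.clm_apply ((h.smooth2.clm_apply contDiffOn_const).clm_apply contDiffOn_const)

theorem Par.smooth_nB (h : Par S Ω ψ) (u v : ℝ × ℝ) : ContDiffOn ℝ ∞ (fun x => nB ψ x u v) Ω :=
  ((h.smooth2.clm_apply contDiffOn_const).clm_apply contDiffOn_const).sub
    (h.smooth1.clm_apply ((h.smooth_Chr.clm_apply contDiffOn_const).clm_apply contDiffOn_const))

theorem Par.smooth_GK (h : Par S Ω ψ) : ContDiffOn ℝ ∞ (GK ψ) Ω :=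
  (((h.smooth_nB _ _).inner ℝ (h.smooth_nB _ _)).sub
    ((h.smooth_nB _ _).inner ℝ (h.smooth_nB _ _))).div h.smooth_gD
    fun x hx => (h.gD_pos hx).ne'

/-! ### Symmetry -/

omit [InnerProductSpace ℝ E] [FiniteDimensional ℝ E] in
theorem symm_of_open [NormedSpace ℝ E] {A : Type*} [NormedAddCommGroup A] [NormedSpace ℝ A]
    {Ω : Set A} (hΩ : IsOpen Ω) {f : A → E} (hf : ContDiffOn ℝ ∞ f Ω) {x : A} (hx : x ∈ Ω)
    (u v : A) : fderiv ℝ (fderiv ℝ f) x u v = fderiv ℝ (fderiv ℝ f) x v u := by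
  have h1 : ContDiffAt ℝ ∞ f x := (hf x hx).contDiffAt (hΩ.mem_nhds hx)
  exact (h1.isSymmSndFDerivAt (by
    rw [minSmoothness_of_isRCLikeNormedField]; exact two_le_infty)) u v

omit [FiniteDimensional ℝ E] in
theorem Par.symm2 (h : Par S Ω ψ) {x : ℝ × ℝ} (hx : x ∈ Ω) (u v : ℝ × ℝ) :
    fderiv ℝ (fderiv ℝ ψ) x u v = fderiv ℝ (fderiv ℝ ψ) x v u :=
  symm_of_open h.isOpen h.smooth hx u v

omit [FiniteDimensional ℝ E] in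
theorem Par.Chr_symm (h : Par S Ω ψ) {x : ℝ × ℝ} (hx : x ∈ Ω) (u v : ℝ × ℝ) :
    Chr ψ x u v = Chr ψ x v u := by
  rw [Chr_apply, Chr_apply, h.symm2 hx]

omit [FiniteDimensional ℝ E] in
theorem Par.nB_symm (h : Par S Ω ψ) {x : ℝ × ℝ} (hx : x ∈ Ω) (u v : ℝ × ℝ) :
    nB ψ x u v = nB ψ x v u := by
  rw [nB, nB, h.symm2 hx, h.Chr_symm hx]

omit [FiniteDimensional ℝ E] in
theorem nB_add_left (ψ : ℝ × ℝ → E) (x u u' v : ℝ × ℝ) :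
    nB ψ x (u + u') v = nB ψ x u v + nB ψ x u' v := by
  simp only [nB, map_add, ContinuousLinearMap.add_apply]; abel

omit [FiniteDimensional ℝ E] in
theorem nB_smul_left (ψ : ℝ × ℝ → E) (x : ℝ × ℝ) (c : ℝ) (u v : ℝ × ℝ) :
    nB ψ x (c • u) v = c • nB ψ x u v := by
  simp only [nB, map_smul, ContinuousLinearMap.smul_apply, smul_sub]

omit [FiniteDimensional ℝ E] in
theorem nB_add_right (ψ : ℝ × ℝ → E) (x u v v' : ℝ × ℝ) :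
    nB ψ x u (v + v') = nB ψ x u v + nB ψ x u v' := by
  simp only [nB, map_add]; abel

omit [FiniteDimensional ℝ E] in
theorem nB_smul_right (ψ : ℝ × ℝ → E) (x : ℝ × ℝ) (c : ℝ) (u v : ℝ × ℝ) :
    nB ψ x u (c • v) = c • nB ψ x u v := by
  simp only [nB, map_smul, smul_sub]

omit [FiniteDimensional ℝ E] in
theorem Par.nB_pair (h : Par S Ω ψ) {x : ℝ × ℝ} (hx : x ∈ Ω) (u v : ℝ × ℝ) :
    nB ψ x u v = (u.1 * v.1) • nB ψ x (1, 0) (1, 0)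
      + (u.1 * v.2 + u.2 * v.1) • nB ψ x (1, 0) (0, 1) + (u.2 * v.2) • nB ψ x (0, 1) (0, 1) := by
  conv_lhs => rw [pair_eq u, pair_eq v]
  rw [nB_add_left, nB_smul_left, nB_smul_left, nB_add_right, nB_add_right, nB_smul_right,
    nB_smul_right, nB_smul_right, nB_smul_right, h.nB_symm hx (0, 1) (1, 0)]
  module

/-- The metric is compatible with the Christoffel symbols. -/
theorem Par.compat (h : Par S Ω ψ) {x : ℝ × ℝ} (hx : x ∈ Ω) (u v w : ℝ × ℝ) :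
    fderiv ℝ (gB ψ) x u v w = gB ψ x (Chr ψ x u v) w + gB ψ x v (Chr ψ x u w) := by
  have h0 : HasFDerivAt (gB ψ) (fderiv ℝ (gB ψ) x) x := hasFDerivAt_of_open h.isOpen h.smooth_gB hx
  have h1 : HasFDerivAt (fun x => gB ψ x v w)
      (((fderiv ℝ (gB ψ) x).flip v).flip w) x := by
    have h2 := (h0.clm_apply (hasFDerivAt_const v x)).clm_apply (hasFDerivAt_const w x)
    refine h2.congr_fderiv ?_
    ext z <;> simp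
  have h3 : HasFDerivAt (fderiv ℝ ψ) (fderiv ℝ (fderiv ℝ ψ) x) x :=
    hasFDerivAt_of_open h.isOpen h.smooth1 hx
  have h4 : ∀ v, HasFDerivAt (fun x => fderiv ℝ ψ x v) ((fderiv ℝ (fderiv ℝ ψ) x).flip v) x := by
    intro v
    have h2 := h3.clm_apply (hasFDerivAt_const v x)
    refine h2.congr_fderiv ?_
    ext z <;> simp
  have h5 := (h4 v).inner ℝ (h4 w)
  have h6 := h1.unique h5
  have h7 := congrArg (fun L : ℝ × ℝ →L[ℝ] ℝ => L u) h6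
  have h8 : fderiv ℝ (gB ψ) x u v w = ⟪fderiv ℝ ψ x v, fderiv ℝ (fderiv ℝ ψ) x u w⟫_ℝ
      + ⟪fderiv ℝ (fderiv ℝ ψ) x u v, fderiv ℝ ψ x w⟫_ℝ := by
    simpa [fderivInnerCLM_apply] using h7
  rw [h8, D2_eq, D2_eq, inner_add_left, inner_add_right, h.inner_nB hx, gB_apply, gB_apply,
    real_inner_comm (nB ψ x u w), h.inner_nB hx]
  ring

end Pool.Agent.H91.GE
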