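import Pool.Agent.H91.GS.Smooth
import Pool.Agent.H91.GS.Conn
import Pool.Agent.H91.GE.Cross

/-!
# The exponential map of a compact surface in charts
-/

set_option autoImplicit false

open scoped InnerProductSpace Topology ContDiff
open Set Filter

namespace Pool.Agent.H91.GE

variable {E F : Type*} [NormedAddCommGroup E] [InnerProductSpace ℝ E] [FiniteDimensional ℝ E]
  [NormedAddCommGroup F] [InnerProductSpace ℝ F] [FiniteDimensional ℝ F]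
  {S : Set E} {A : E × E → E} {K K₂ : NNReal} {Φ : ℝ → E × E → E × E}

theorem GFlow.isCS (h : GFlow F S A K K₂ Φ) : IsCS (XF A) := by
  refine ⟨(ContinuousLinearMap.snd ℝ E E).prod 0, fun z => (0, A z), contDiff_const.prodMk
    h.field.smooth, ?_, fun z => ?_⟩
  · refine HasCompactSupport.intro (K := tsupport A) h.field.supp.isCompact fun z hz => ?_
    rw [image_eq_zero_of_notMem_tsupport hz]; rfl
  · show (z.2, A z) = (z.2, (0 : E)) + (0, A z)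
    simp

theorem GFlow.contDiff (h : GFlow F S A K K₂ Φ) : ContDiff ℝ ∞ (fun x : ℝ × (E × E) => Φ x.1 x.2) :=
  flow_contDiff h.isCS h.flow

/-- Geodesics of arbitrary speed in terms of the flow. -/
theorem GFlow.of_geo_scaled (h : GFlow F S A K K₂ Φ) {γ : ℝ → E} (hγ : IsGeo S γ) {M : ℝ}
    (hM : 0 < M) (hs : ‖deriv γ 0‖ ≤ 2 * M) (t : ℝ) :
    γ t = (Φ (M * t) (γ 0, M⁻¹ • deriv γ 0)).1 ∧
      deriv γ t = M • (Φ (M * t) (γ 0, M⁻¹ • deriv γ 0)).2 := by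
  have h1 : IsGeo S (fun s => γ (0 + M⁻¹ * s)) := hγ.affine 0 M⁻¹
  have h2 : deriv (fun s => γ (0 + M⁻¹ * s)) = fun s => M⁻¹ • deriv γ (0 + M⁻¹ * s) := by
    rw [deriv_affine hγ]
  have h3 : ‖deriv (fun s => γ (0 + M⁻¹ * s)) 0‖ ≤ 2 := by
    rw [h2]
    show ‖M⁻¹ • deriv γ (0 + M⁻¹ * 0)‖ ≤ 2
    rw [mul_zero, add_zero, norm_smul, norm_inv, Real.norm_of_nonneg hM.le, inv_mul_le_iff₀ hM]
    linarith
  have h4 := h.of_geo h1 h3 (M * t)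
  rw [h2] at h4
  simp only [mul_zero, add_zero, zero_add] at h4
  have h5 : M⁻¹ * (M * t) = t := by field_simp
  rw [h5] at h4
  constructor
  · rw [← h4]
  · rw [← h4]
    show deriv γ t = M • (M⁻¹ • deriv γ t)
    rw [smul_smul, mul_inv_cancel₀ hM.ne', one_smul]

/-- The geodesic with initial data `(q, u)`. -/
noncomputable def Geo (Φ : ℝ → E × E → E × E) (q u : E) (t : ℝ) : E :=
  (Φ ((‖u‖ + 1) * t) (q, (‖u‖ + 1)⁻¹ • u)).1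

theorem scale_TSet {q u : E} (hu : (q, u) ∈ TSet S) (hsub : IsSub F S) (c : ℝ) :
    (q, c • u) ∈ TSet S := by
  obtain ⟨U, hU, f, hf⟩ := hsub q (fst_mem_TSet hu)
  have h1 := (mem_TSet_iff hf hU).1 hu
  exact (mem_TSet_iff hf hU).2 ⟨h1.1, by rw [map_smul, h1.2, smul_zero]⟩

theorem GFlow.scaled (h : GFlow F S A K K₂ Φ) {q u : E} (hu : (q, u) ∈ TSet S) {M : ℝ}
    (hM : 0 < M) (hs : ‖u‖ ≤ 2 * M) :
    IsGeo S (fun t => (Φ (M * t) (q, M⁻¹ • u)).1) ∧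
      deriv (fun t => (Φ (M * t) (q, M⁻¹ • u)).1) = fun t => M • (Φ (M * t) (q, M⁻¹ • u)).2 := by
  have h1 : (q, M⁻¹ • u) ∈ TSet S := scale_TSet hu h.sub _
  have h2 : ‖M⁻¹ • u‖ ≤ 2 := by
    rw [norm_smul, norm_inv, Real.norm_of_nonneg hM.le, inv_mul_le_iff₀ hM]; linarith
  obtain ⟨h3, h4⟩ := h.isGeo h1 h2
  have h5 := h3.affine 0 M
  have h6 := deriv_affine h3 0 M
  simp only [zero_add] at h5 h6
  refine ⟨h5, ?_⟩
  rw [h6, h4]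

theorem GFlow.isGeo_Geo (h : GFlow F S A K K₂ Φ) {q u : E} (hu : (q, u) ∈ TSet S) :
    IsGeo S (Geo Φ q u) ∧ Geo Φ q u 0 = q ∧ deriv (Geo Φ q u) 0 = u := by
  have hM : 0 < ‖u‖ + 1 := by positivity
  obtain ⟨h1, h2⟩ := h.scaled hu hM (by linarith [norm_nonneg u])
  refine ⟨h1, ?_, ?_⟩
  · show (Φ ((‖u‖ + 1) * 0) (q, (‖u‖ + 1)⁻¹ • u)).1 = q
    rw [mul_zero, h.flow.zero]
  · show deriv (fun t => (Φ ((‖u‖ + 1) * t) (q, (‖u‖ + 1)⁻¹ • u)).1) 0 = u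
    rw [h2]
    show (‖u‖ + 1) • (Φ ((‖u‖ + 1) * 0) (q, (‖u‖ + 1)⁻¹ • u)).2 = u
    rw [mul_zero, h.flow.zero]
    show (‖u‖ + 1) • ((‖u‖ + 1)⁻¹ • u) = u
    rw [smul_smul, mul_inv_cancel₀ hM.ne', one_smul]

/-- Uniqueness of geodesics. -/
theorem GFlow.geo_unique (h : GFlow F S A K K₂ Φ) {γ η : ℝ → E} (hγ : IsGeo S γ) (hη : IsGeo S η)
    (h0 : γ 0 = η 0) (h1 : deriv γ 0 = deriv η 0) : γ = η := by
  funext t
  have hM : 0 < ‖deriv γ 0‖ + 1 := by positivity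
  rw [(h.of_geo_scaled hγ hM (by linarith [norm_nonneg (deriv γ 0)]) t).1,
    (h.of_geo_scaled hη hM (by rw [← h1]; linarith [norm_nonneg (deriv γ 0)]) t).1, h0, h1]

theorem GFlow.eq_Geo (h : GFlow F S A K K₂ Φ) {γ : ℝ → E} (hγ : IsGeo S γ) :
    γ = Geo Φ (γ 0) (deriv γ 0) := by
  obtain ⟨h1, h2, h3⟩ := h.isGeo_Geo (hγ.mem_TSet 0)
  exact h.geo_unique hγ h1 h2.symm h3.symm

theorem GFlow.Geo_eq (h : GFlow F S A K K₂ Φ) {q u : E} (hu : (q, u) ∈ TSet S) {M : ℝ}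
    (hM : 0 < M) (hs : ‖u‖ ≤ 2 * M) (t : ℝ) : Geo Φ q u t = (Φ (M * t) (q, M⁻¹ • u)).1 ∧
      deriv (Geo Φ q u) t = M • (Φ (M * t) (q, M⁻¹ • u)).2 := by
  obtain ⟨h1, h2, h3⟩ := h.isGeo_Geo hu
  have h4 := h.of_geo_scaled h1 hM (by rw [h3]; exact hs) t
  rwa [h2, h3] at h4

theorem GFlow.Geo_smul (h : GFlow F S A K K₂ Φ) {q u : E} (hu : (q, u) ∈ TSet S) (c t : ℝ) :
    Geo Φ q (c • u) t = Geo Φ q u (c * t) := by
  obtain ⟨h1, h2, h3⟩ := h.isGeo_Geo hu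
  obtain ⟨g1, g2, g3⟩ := h.isGeo_Geo (scale_TSet hu h.sub c)
  have h4 : IsGeo S (fun t => Geo Φ q u (0 + c * t)) := h1.affine 0 c
  have h5 := deriv_affine h1 0 c
  have h6 := h.geo_unique g1 h4 (by
    show Geo Φ q (c • u) 0 = Geo Φ q u (0 + c * 0)
    rw [g2, mul_zero, add_zero, h2]) (by
    rw [g3, h5]
    show c • u = c • deriv (Geo Φ q u) (0 + c * 0)
    rw [mul_zero, add_zero, h3])
  rw [h6]
  show Geo Φ q u (0 + c * t) = _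
  rw [zero_add]

/-- Restarting a geodesic. -/
theorem GFlow.Geo_add (h : GFlow F S A K K₂ Φ) {γ : ℝ → E} (hγ : IsGeo S γ) (a b t : ℝ) :
    Geo Φ (γ a) (b • deriv γ a) t = γ (a + b * t) := by
  have h4 : IsGeo S (fun t => γ (a + b * t)) := hγ.affine a b
  have h5 := deriv_affine hγ a b
  have h6 := h.eq_Geo h4
  have h7 := congrFun h6 t
  rw [h5] at h7
  simp only [mul_zero, add_zero] at h7
  exact h7.symm

/-! ### In charts -/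

/-- The geodesic with initial data given in a chart. -/
noncomputable def G1 (Φ : ℝ → E × E → E × E) (ψ : ℝ × ℝ → E) (y : (ℝ × ℝ) × (ℝ × ℝ)) (t : ℝ) : E :=
  Geo Φ (ψ y.1) (fderiv ℝ ψ y.1 y.2) t

variable {Ω : Set (ℝ × ℝ)} {ψ : ℝ × ℝ → E}

theorem GFlow.isGeo_G1 (h : GFlow F S A K K₂ Φ) (hp : Par S Ω ψ) {p : ℝ × ℝ} (hpΩ : p ∈ Ω)
    (w : ℝ × ℝ) : IsGeo S (G1 Φ ψ (p, w)) ∧ G1 Φ ψ (p, w) 0 = ψ p ∧
      deriv (G1 Φ ψ (p, w)) 0 = fderiv ℝ ψ p w :=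
  h.isGeo_Geo (hp.mem_TSet h.sub hpΩ w)

theorem GFlow.contDiffAt_G1 (h : GFlow F S A K K₂ Φ) (hp : Par S Ω ψ)
    {x : ((ℝ × ℝ) × (ℝ × ℝ)) × ℝ} (hx : x.1.1 ∈ Ω) :
    ContDiffAt ℝ ∞ (fun x : ((ℝ × ℝ) × (ℝ × ℝ)) × ℝ => G1 Φ ψ x.1 x.2) x ∧
      ContDiffAt ℝ ∞ (fun x : ((ℝ × ℝ) × (ℝ × ℝ)) × ℝ => deriv (G1 Φ ψ x.1) x.2) x := by
  set M : ℝ := ‖fderiv ℝ ψ x.1.1 x.1.2‖ + 1 with hM
  have hM0 : 0 < M := by positivity
  have hψ : ContDiffAt ℝ ∞ ψ x.1.1 := contDiffAt_of_open hp.isOpen hp.smooth hx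
  have hψ' : ContDiffAt ℝ ∞ (fderiv ℝ ψ) x.1.1 := contDiffAt_of_open hp.isOpen hp.smooth1 hx
  have c1 : ContDiffAt ℝ ∞ (fun x : ((ℝ × ℝ) × (ℝ × ℝ)) × ℝ => ψ x.1.1) x :=
    ContDiffAt.comp x hψ (contDiffAt_fst.fst)
  have c2 : ContDiffAt ℝ ∞ (fun x : ((ℝ × ℝ) × (ℝ × ℝ)) × ℝ => fderiv ℝ ψ x.1.1 x.1.2) x :=
    (ContDiffAt.comp x hψ' (contDiffAt_fst.fst)).clm_apply (contDiffAt_fst.snd)
  have c3 : ContDiffAt ℝ ∞ (fun x : ((ℝ × ℝ) × (ℝ × ℝ)) × ℝ =>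
      (M * x.2, (ψ x.1.1, M⁻¹ • fderiv ℝ ψ x.1.1 x.1.2))) x :=
    (contDiffAt_const.mul contDiffAt_snd).prodMk (c1.prodMk (contDiffAt_const.smul c2))
  have c4 : ContDiffAt ℝ ∞ (fun x : ((ℝ × ℝ) × (ℝ × ℝ)) × ℝ =>
      Φ (M * x.2) (ψ x.1.1, M⁻¹ • fderiv ℝ ψ x.1.1 x.1.2)) x :=
    ContDiffAt.comp x h.contDiff.contDiffAt c3
  have hev : ∀ᶠ y : ((ℝ × ℝ) × (ℝ × ℝ)) × ℝ in 𝓝 x, y.1.1 ∈ Ω ∧
      ‖fderiv ℝ ψ y.1.1 y.1.2‖ < 2 * M := by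
    refine Eventually.and ?_ ?_
    · exact (continuous_fst.fst.continuousAt).preimage_mem_nhds (hp.isOpen.mem_nhds hx)
    · refine c2.continuousAt.norm.eventually_lt_const ?_
      show ‖fderiv ℝ ψ x.1.1 x.1.2‖ < 2 * M
      have := norm_nonneg (fderiv ℝ ψ x.1.1 x.1.2)
      rw [hM]; linarith
  constructor
  · refine (contDiffAt_fst.comp x c4).congr_of_eventuallyEq ?_
    filter_upwards [hev] with y hy
    exact (h.Geo_eq (hp.mem_TSet h.sub hy.1 y.1.2) hM0 hy.2.le y.2).1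
  · refine (contDiffAt_const.smul (contDiffAt_snd.comp x c4)).congr_of_eventuallyEq ?_ (f := fun y =>
      M • (Φ (M * y.2) (ψ y.1.1, M⁻¹ • fderiv ℝ ψ y.1.1 y.1.2)).2)
    filter_upwards [hev] with y hy
    exact (h.Geo_eq (hp.mem_TSet h.sub hy.1 y.1.2) hM0 hy.2.le y.2).2

end Pool.Agent.H91.GE
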