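import Pool.Agent.H91.GS.Neg
import Pool.Agent.H77.PG.FlatPatch
import Pool.Agent.H59.LV.Recur

/-!
# Every secure compact surface is flat
-/

set_option autoImplicit false

open scoped InnerProductSpace Topology ContDiff
open Set Filter

namespace Pool.Agent.H91.GE

open Pool.Agent.H77.PG (CurvAt Flat1 exists_CurvAt GK_indep no_pos flat_patch)

variable {E F : Type*} [NormedAddCommGroup E] [InnerProductSpace ℝ E] [FiniteDimensional ℝ E]
  [NormedAddCommGroup F] [InnerProductSpace ℝ F] [FiniteDimensional ℝ F]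
  {S : Set E} {A : E × E → E} {K K₂ : NNReal} {Φ : ℝ → E × E → E × E}
  {Ω : Set (ℝ × ℝ)} {ψ : ℝ × ℝ → E} {P : E →L[ℝ] ℝ × ℝ} {W : Set E}

theorem GFlow.nonWand (hdim : Module.finrank ℝ E = Module.finrank ℝ F + 2)
    (h : GFlow F S A K K₂ Φ) : NonWand Φ S := by
  intro w hw hw1 O hO hwO T
  have h0 : w.2 ≠ 0 := by
    intro h0
    rw [h0, norm_zero] at hw1
    exact zero_ne_one hw1
  obtain ⟨w', h1, h2, h3, t, h4, h5⟩ := h.nonwandering_speed (n := 2) (by rw [hdim, add_comm]) hw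
    (by rw [hw1]; norm_num) h0 (hO.mem_nhds hwO) T
  exact ⟨t, h4, w', h2, h3.trans hw1, h1, h5⟩

theorem flat1 (hdim : Module.finrank ℝ E = Module.finrank ℝ F + 2)
    (h : GFlow F S A K K₂ Φ) (hsec : Secure S) : Flat1 S := by
  intro Ω ψ hp p hpΩ
  obtain ⟨U, hU, f, hf⟩ := h.sub (ψ p) (hp.mem p hpΩ)
  obtain ⟨Ω', ψ', P', W', hc, hW⟩ := exists_chart hdim hf hU (hp.mem p hpΩ)
  have hψc : ContinuousAt ψ p := (hp.hasFDerivAt hpΩ).continuousAt
  have h1 : (GK ψ) =ᶠ[𝓝 p] fun q => GK ψ' (P' (ψ q)) := by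
    have h2 : ∀ᶠ q in 𝓝 p, ψ q ∈ W' := hψc.preimage_mem_nhds (hc.W_open.mem_nhds hW)
    filter_upwards [h2, hp.isOpen.mem_nhds hpΩ] with q hq hqΩ
    obtain ⟨a1, a2⟩ := hc.right _ (hp.mem q hqΩ) hq
    exact GK_indep hdim h.sub hp hc.toPar hqΩ a1 a2.symm
  rw [h1.fderiv_eq]
  obtain ⟨a1, a2⟩ := hc.right _ (hp.mem p hpΩ) hW
  have h2 : HasFDerivAt (GK ψ') (fderiv ℝ (GK ψ') (P' (ψ p))) (P' (ψ p)) :=
    hasFDerivAt_of_open hc.isOpen hc.smooth_GK a1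
  rw [dK_zero hdim h hsec (h.nonWand hdim) hc a1] at h2
  have h3 : HasFDerivAt (fun q => P' (ψ q)) (P' ∘L fderiv ℝ ψ p) p :=
    P'.hasFDerivAt.comp p (hp.hasFDerivAt hpΩ)
  have h4 : HasFDerivAt (fun q => GK ψ' (P' (ψ q)))
      ((0 : ℝ × ℝ →L[ℝ] ℝ) ∘L (P' ∘L fderiv ℝ ψ p)) p :=
    HasFDerivAt.comp (g := GK ψ') (f := fun q => P' (ψ q)) p h2 h3
  rw [h4.fderiv]
  ext <;> simp

theorem curv_zero (hdim : Module.finrank ℝ E = Module.finrank ℝ F + 2) (hS : IsCompact S)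
    (hsub : IsSub F S) (hsec : Secure S) {X : E} (hX : X ∈ S) : Flat1 S ∧ CurvAt S X 0 := by
  obtain ⟨A, K, K₂, Φ, h⟩ := exists_GFlow hS hsub
  have hd := flat1 hdim h hsec
  obtain ⟨k, hk⟩ := exists_CurvAt hdim hsub hX
  have hpos := no_pos hdim hS hsub hsec hd hX hk
  have hneg : ¬ k < 0 := by
    obtain ⟨U, hU, f, hf⟩ := hsub X hX
    obtain ⟨Ω, ψ, P, W, hc, hW⟩ := exists_chart hdim hf hU hX
    obtain ⟨a1, a2⟩ := hc.right X hX hW
    obtain ⟨r, hr, hball⟩ := Metric.isOpen_iff.1 hc.isOpen (P X) a1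
    have hN : {x : Pt | x.1 ∈ Metric.ball (P X) r} ∈ 𝓝 (P X, P X) :=
      (continuous_fst.continuousAt (x := ((P X, P X) : Pt))).preimage_mem_nhds
        (Metric.ball_mem_nhds _ hr)
    obtain ⟨x, hx, z, hz, w, s, hweb⟩ := exists_web_near hdim h hsec (h.nonWand hdim) hc a1 hN
    have hx1 : x.1 ∈ Metric.ball (P X) r := hx
    have hGK : GK ψ x.1 = k := by
      have h1 : ∀ y ∈ Metric.ball (P X) r, HasFDerivWithinAt (GK ψ) (0 : ℝ × ℝ →L[ℝ] ℝ)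
          (Metric.ball (P X) r) y := by
        intro y hy
        have h2 : HasFDerivAt (GK ψ) (fderiv ℝ (GK ψ) y) y :=
          hasFDerivAt_of_open hc.isOpen hc.smooth_GK (hball hy)
        rw [hd Ω ψ hc.toPar y (hball hy)] at h2
        exact h2.hasFDerivWithinAt
      have h2 := (convex_ball (P X) r).norm_image_sub_le_of_norm_hasFDerivWithin_le (C := 0) h1
        (fun y _ => by simp) (Metric.mem_ball_self hr) hx1
      rw [zero_mul] at h2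
      rw [sub_eq_zero.1 (norm_le_zero_iff.1 h2)]
      exact hk Ω ψ (P X) hc.toPar a1 a2
    obtain ⟨k', hk'⟩ := exists_CurvAt hdim hsub (hc.mem _ (hball hx1))
    have h3 := hk' Ω ψ x.1 hc.toPar (hball hx1) rfl
    rw [hGK] at h3
    rw [← h3] at hk'
    exact no_neg hdim h hsec hc hc hd hweb hz hk'
  have hk0 : k = 0 := le_antisymm (not_lt.1 hpos) (not_lt.1 hneg)
  rw [hk0] at hk
  exact ⟨hd, hk⟩

/-- **Every secure compact surface is flat.** -/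
theorem secure_flat (hdim : Module.finrank ℝ E = Module.finrank ℝ F + 2) (hS : IsCompact S)
    (hsub : IsSub F S) (hsec : Secure S) {X : E} (hX : X ∈ S) :
    ∃ φ : EuclideanSpace ℝ (Fin 2) → E, ContDiff ℝ ∞ φ ∧ (∀ w, φ w ∈ S) ∧
      (∃ W : Set E, IsOpen W ∧ X ∈ W ∧ S ∩ W ⊆ range φ) ∧
      ∀ u a b, ⟪fderiv ℝ φ u a, fderiv ℝ φ u b⟫_ℝ = ⟪a, b⟫_ℝ := by
  obtain ⟨hd, hk⟩ := curv_zero hdim hS hsub hsec hX
  exact flat_patch hdim hS hsub hd hX hk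

end Pool.Agent.H91.GE
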