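import Pool.Agent.H91.GS.Nondeg

/-!
# Residual pairs of points
-/

set_option autoImplicit false

open scoped InnerProductSpace Topology ContDiff
open Set Filter

namespace Pool.Agent.H91.GE

variable {E F : Type*} [NormedAddCommGroup E] [InnerProductSpace ℝ E] [FiniteDimensional ℝ E]
  [NormedAddCommGroup F] [InnerProductSpace ℝ F] [FiniteDimensional ℝ F]
  {S : Set E} {A : E × E → E} {K K₂ : NNReal} {Φ : ℝ → E × E → E × E}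
  {Ω₁ Ω₂ : Set (ℝ × ℝ)} {ψ₁ ψ₂ : ℝ × ℝ → E} {P₁ P₂ : E →L[ℝ] ℝ × ℝ} {W₁ W₂ : Set E}

/-- Recurrence of the geodesic flow on the unit tangent bundle. -/
def NonWand (Φ : ℝ → E × E → E × E) (S : Set E) : Prop :=
  ∀ w ∈ TSet S, ‖w.2‖ = 1 → ∀ O : Set (E × E), IsOpen O → w ∈ O → ∀ T : ℝ,
    ∃ t > T, ∃ w' ∈ TSet S, ‖w'.2‖ = 1 ∧ w' ∈ O ∧ Φ t w' ∈ O

theorem nowhereDense_of_rel {P : Type*} [TopologicalSpace P] {O C C' : Set P} (hO : IsOpen O)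
    (hC' : IsClosed C') (hC : C = C' ∩ O) (hint : ∀ V : Set P, IsOpen V → V.Nonempty → ¬ V ⊆ C) :
    IsNowhereDense C := by
  rw [IsNowhereDense, eq_empty_iff_forall_notMem]
  intro x hx
  set V := interior (closure C) with hV
  obtain ⟨c, hcV, hcC⟩ := mem_closure_iff.1 (interior_subset hx : x ∈ closure C) V isOpen_interior hx
  have hsub : V ∩ O ⊆ C := by
    rintro y ⟨hyV, hyO⟩
    have h1 : y ∈ closure C := interior_subset hyV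
    have h2 : closure C ⊆ C' := closure_minimal (by rw [hC]; exact inter_subset_left) hC'
    rw [hC]; exact ⟨h2 h1, hyO⟩
  have hcO : c ∈ O := by rw [hC] at hcC; exact hcC.2
  exact hint _ (isOpen_interior.inter hO) ⟨c, hcV, hcO⟩ hsub

/-- Nondegeneracy persists. -/
theorem GFlow.nondeg_eventually (h : GFlow F S A K K₂ Φ) (hp₁ : Par S Ω₁ ψ₁) {B : Type*}
    [TopologicalSpace B] {b₀ : B} {c : B → (ℝ × ℝ) × (ℝ × ℝ)} (hc : ContinuousAt c b₀)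
    (hΩ : (c b₀).1 ∈ Ω₁) (hnd : Nondeg Φ ψ₁ (c b₀).1 (c b₀).2) :
    ∀ᶠ b in 𝓝 b₀, Nondeg Φ ψ₁ (c b).1 (c b).2 := by
  have h1 : ContinuousAt (fun y => fderiv ℝ (G11 Φ ψ₁) y) (c b₀) :=
    ((h.contDiffAt_G11 hp₁ (y := c b₀) hΩ).fderiv_right (m := ∞) (by norm_num)).continuousAt
  have h2 : ContinuousAt (fun b => (fderiv ℝ (G11 Φ ψ₁) (c b)) ∘L
      (ContinuousLinearMap.inr ℝ (ℝ × ℝ) (ℝ × ℝ))) b₀ :=
    (ContinuousAt.comp (g := fun y => fderiv ℝ (G11 Φ ψ₁) y) h1 hc).clm_comp continuousAt_const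
  have h3 : IsOpen {L : (ℝ × ℝ) →L[ℝ] E | Function.Injective L} :=
    ContinuousLinearMap.isOpen_injective
  exact h2.preimage_mem_nhds (h3.mem_nhds hnd)

/-- Pairs joined by a long nondegenerate geodesic. -/
def UT (Φ : ℝ → E × E → E × E) (Ω₁ Ω₂ : Set (ℝ × ℝ)) (ψ₁ ψ₂ : ℝ × ℝ → E) (T : ℝ) : Set Pt :=
  {x | ∃ w, Cfg Φ Ω₁ Ω₂ ψ₁ ψ₂ x w ∧ T < ‖fderiv ℝ ψ₁ x.1 w‖}

theorem isOpen_UT (h : GFlow F S A K K₂ Φ) (hp₁ : Par S Ω₁ ψ₁) (hc₂ : Chart S Ω₂ ψ₂ P₂ W₂) (T : ℝ) :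
    IsOpen (UT Φ Ω₁ Ω₂ ψ₁ ψ₂ T) := by
  rw [isOpen_iff_mem_nhds]
  rintro x ⟨w, ⟨h1, h2, h3, h4⟩, h5⟩
  obtain ⟨O, V, κ, hb, hxO, hwV, hκ⟩ := exists_br h hp₁ hc₂ h1 h2 h3 h4
  have hκc : ContinuousAt κ x := (contDiffAt_of_open hb.isOpen hb.smooth hxO).continuousAt
  have hcc : ContinuousAt (fun x : Pt => (x.1, κ x)) x := continuousAt_fst.prodMk hκc
  have e1 := h.nondeg_eventually hp₁ (c := fun x : Pt => (x.1, κ x)) hcc h1 (by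
    show Nondeg Φ ψ₁ x.1 (κ x)
    rw [hκ]; exact h4)
  have hψ : ContinuousAt (fderiv ℝ ψ₁) x.1 :=
    (contDiffAt_of_open hp₁.isOpen hp₁.smooth1 h1).continuousAt
  have e2 : ∀ᶠ x' : Pt in 𝓝 x, T < ‖fderiv ℝ ψ₁ x'.1 (κ x')‖ := by
    have hc : ContinuousAt (fun x' : Pt => fderiv ℝ ψ₁ x'.1 (κ x')) x :=
      (ContinuousAt.comp (g := fderiv ℝ ψ₁) hψ continuousAt_fst).clm_apply hκc
    refine hc.norm.eventually_const_lt ?_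
    show T < ‖fderiv ℝ ψ₁ x.1 (κ x)‖
    rw [hκ]; exact h5
  filter_upwards [e1, e2, hb.isOpen.mem_nhds hxO] with y hy1 hy2 hy3
  obtain ⟨g1, g2, -, g3⟩ := hb.mem y hy3
  exact ⟨κ y, ⟨g1, g2, g3, hy1⟩, hy2⟩

theorem dense_UT (h : GFlow F S A K K₂ Φ) (hnw : NonWand Φ S) (hc₁ : Chart S Ω₁ ψ₁ P₁ W₁)
    (hc₂ : Chart S Ω₂ ψ₂ P₂ W₂) {x : Pt} {w : ℝ × ℝ} (hx : Cfg Φ Ω₁ Ω₂ ψ₁ ψ₂ x w) (hw : w ≠ 0)
    {N : Set Pt} (hN : N ∈ 𝓝 x) (T : ℝ) : ∃ x' ∈ N, x' ∈ UT Φ Ω₁ Ω₂ ψ₁ ψ₂ T := by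
  obtain ⟨h1, h2, h3, h4⟩ := hx
  obtain ⟨p, q⟩ := x
  simp only at h1 h2 h3 h4
  set v := fderiv ℝ ψ₁ p w with hv
  have hv0 : v ≠ 0 := fun h0 => hw (hc₁.inj p h1 (by rw [← hv, h0, map_zero]))
  set s := ‖v‖ with hs
  have hs0 : 0 < s := norm_pos_iff.2 hv0
  have hvT : (ψ₁ p, v) ∈ TSet S := hc₁.mem_TSet h.sub h1 w
  set w₀ : E × E := (ψ₁ p, s⁻¹ • v) with hw₀
  have hw₀T : w₀ ∈ TSet S := scale_TSet hvT h.sub _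
  have hw₀1 : ‖w₀.2‖ = 1 := by
    show ‖s⁻¹ • v‖ = 1
    rw [norm_smul, norm_inv, Real.norm_of_nonneg hs0.le, ← hs, inv_mul_cancel₀ hs0.ne']
  have hY : (Φ s w₀).1 = ψ₂ q := by
    have := (h.Geo_eq hvT hs0 (by linarith) 1).1
    rw [mul_one] at this
    rw [hw₀, ← this]
    exact h3
  rw [nhds_prod_eq] at hN
  obtain ⟨N₁, hN₁, N₂, hN₂, hNN⟩ := mem_prod_iff.1 hN
  obtain ⟨M₁, hM₁N, hM₁o, hpM⟩ := mem_nhds_iff.1 hN₁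
  obtain ⟨M₂, hM₂N, hM₂o, hqM⟩ := mem_nhds_iff.1 hN₂
  have hΦs : Continuous (Φ s) := by
    have := h.contDiff.continuous
    exact this.comp (continuous_const.prodMk continuous_id)
  set O : Set (E × E) := ({w' | w'.1 ∈ W₁} ∩ {w' | P₁ w'.1 ∈ M₁}) ∩
    ({w' | (Φ s w').1 ∈ W₂} ∩ {w' | P₂ (Φ s w').1 ∈ M₂}) with hO
  have hOo : IsOpen O := by
    refine ((hc₁.W_open.preimage continuous_fst).inter
      (hM₁o.preimage (P₁.continuous.comp continuous_fst))).inter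
      ((hc₂.W_open.preimage hΦs.fst).inter (hM₂o.preimage (P₂.continuous.comp hΦs.fst)))
  have hw₀O : w₀ ∈ O := by
    refine ⟨⟨hc₁.maps p h1, ?_⟩, ?_, ?_⟩
    · show P₁ (ψ₁ p) ∈ M₁
      rw [hc₁.left p h1]; exact hpM
    · show (Φ s w₀).1 ∈ W₂
      rw [hY]; exact hc₂.maps q h2
    · show P₂ (Φ s w₀).1 ∈ M₂
      rw [hY, hc₂.left q h2]; exact hqM
  obtain ⟨t, ht, w', hw'T, hw'1, hw'O, hΦO⟩ := hnw w₀ hw₀T hw₀1 O hOo hw₀O (max T 0)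
  -- chart data of `w'`
  obtain ⟨hpW, hpΩ⟩ := hc₁.right w'.1 (fst_mem_TSet hw'T) hw'O.1.1
  set p' := P₁ w'.1 with hp'
  obtain ⟨-, -, hder⟩ := hc₁.of_TSet (q := w'.1) (v := w'.2) hw'O.1.1 hw'T
  rw [← hp'] at hder
  set b := P₁ w'.2 with hb
  have hw'e : w' = (ψ₁ p', fderiv ℝ ψ₁ p' b) := Prod.ext hpΩ.symm hder.symm
  have hn : ‖fderiv ℝ ψ₁ p' b‖ = 1 := by rw [hder]; exact hw'1
  have hb0 : b ≠ 0 := by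
    intro h0
    rw [h0, map_zero, norm_zero] at hn
    exact zero_ne_one hn
  have hcont : Continuous fun r => (Φ r w').1 := (h.flow.continuous_left w').fst
  set I : Set ℝ := Ioi (max T 0) ∩ ({r | (Φ r w').1 ∈ W₂} ∩ {r | P₂ (Φ r w').1 ∈ M₂}) with hI
  have hIo : IsOpen I := isOpen_Ioi.inter ((hc₂.W_open.preimage hcont).inter
    (hM₂o.preimage (P₂.continuous.comp hcont)))
  have hIne : I.Nonempty := by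
    refine ⟨s + t, ?_, ?_, ?_⟩
    · show max T 0 < s + t
      linarith
    · show (Φ (s + t) w').1 ∈ W₂
      rw [h.flow.add h.vf]; exact hΦO.2.1
    · show P₂ (Φ (s + t) w').1 ∈ M₂
      rw [h.flow.add h.vf]; exact hΦO.2.2
  obtain ⟨r, hrI, hr0, hnd⟩ := h.exists_nondeg hc₁.toPar (p := p') hpW hb0
    (by rw [hn]; norm_num) hIo hIne
  obtain ⟨hrT, hrW, hrM⟩ := hrI
  have hrpos : 0 < r := (le_max_right T 0).trans_lt hrT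
  have hmem := (h.mem hw'T (by rw [hw'1]; norm_num) r).1
  obtain ⟨hqΩ, hψq⟩ := hc₂.right _ (fst_mem_TSet hmem) hrW
  have hT' : (ψ₁ p', fderiv ℝ ψ₁ p' b) ∈ TSet S := by rw [← hw'e]; exact hw'T
  refine ⟨(p', P₂ (Φ r w').1), hNN ⟨hM₁N hw'O.1.2, hM₂N hrM⟩, r • b, ⟨hpW, hqΩ, ?_, hnd⟩, ?_⟩
  · show Geo Φ (ψ₁ p') (fderiv ℝ ψ₁ p' (r • b)) 1 = ψ₂ (P₂ (Φ r w').1)
    rw [map_smul, h.Geo_smul hT', mul_one, (h.Geo_eq hT' one_pos (by rw [hn]; norm_num) r).1,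
      one_mul, inv_one, one_smul, ← hw'e, hψq]
  · show T < ‖fderiv ℝ ψ₁ p' (r • b)‖
    rw [map_smul, norm_smul, hn, mul_one, Real.norm_of_nonneg hrpos.le]
    exact (le_max_left T 0).trans_lt hrT

theorem exists_residual (hdim : Module.finrank ℝ E = Module.finrank ℝ F + 2)
    (h : GFlow F S A K K₂ Φ) (hsec : Secure S) (hnw : NonWand Φ S) (hc₁ : Chart S Ω₁ ψ₁ P₁ W₁)
    (hc₂ : Chart S Ω₂ ψ₂ P₂ W₂) {x₀ : Pt} {w₀ : ℝ × ℝ} (hx₀ : Cfg Φ Ω₁ Ω₂ ψ₁ ψ₂ x₀ w₀)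
    (hw₀ : w₀ ≠ 0) {N : Set Pt} (hN : N ∈ 𝓝 x₀) :
    ∃ x ∈ N, x.1 ∈ Ω₁ ∧ x.2 ∈ Ω₂ ∧ (∀ n : ℕ, x ∈ UT Φ Ω₁ Ω₂ ψ₁ ψ₂ n) ∧
      ¬ Loop S (ψ₁ x.1) (ψ₂ x.2) ∧ ¬ Loop S (ψ₂ x.2) (ψ₁ x.1) ∧
      ∀ y, Tri Φ Ω₁ Ω₂ ψ₁ ψ₂ x y → GoodT Φ ψ₁ ψ₂ x y := by
  obtain ⟨h1, h2, h3, h4⟩ := hx₀
  obtain ⟨O, V, κ, hb, hxO, hwV, hκ⟩ := exists_br h hc₁.toPar hc₂ h1 h2 h3 h4
  have hκc : ContinuousAt κ x₀ := (contDiffAt_of_open hb.isOpen hb.smooth hxO).continuousAt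
  have hcc : ContinuousAt (fun x : Pt => (x.1, κ x)) x₀ := continuousAt_fst.prodMk hκc
  have e1 := h.nondeg_eventually hc₁.toPar (c := fun x : Pt => (x.1, κ x)) hcc h1 (by
    show Nondeg Φ ψ₁ x₀.1 (κ x₀)
    rw [hκ]; exact h4)
  have e2 : ∀ᶠ x in 𝓝 x₀, κ x ≠ 0 := hκc.eventually_ne (by rw [hκ]; exact hw₀)
  have e3 : ∀ᶠ x in 𝓝 x₀, x ∈ N ∧ κ x ≠ 0 ∧ Cfg Φ Ω₁ Ω₂ ψ₁ ψ₂ x (κ x) := by
    filter_upwards [e1, e2, hb.isOpen.mem_nhds hxO, hN] with y hy1 hy2 hy3 hy4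
    obtain ⟨g1, g2, -, g3⟩ := hb.mem y hy3
    exact ⟨hy4, hy2, g1, g2, g3, hy1⟩
  obtain ⟨O', hO'sub, hO'o, hxO'⟩ := mem_nhds_iff.1 e3
  have m1 : ∀ n : ℕ, IsMeagre ((UT Φ Ω₁ Ω₂ ψ₁ ψ₂ n)ᶜ ∩ O') := by
    intro n
    refine (nowhereDense_of_rel hO'o (isOpen_UT h hc₁.toPar hc₂ n).isClosed_compl rfl
      fun V hV hne hsub => ?_).isMeagre
    obtain ⟨x, hx⟩ := hne
    obtain ⟨-, g2, g3⟩ := hO'sub (hsub hx).2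
    obtain ⟨x', hx'V, hx'U⟩ := dense_UT h hnw hc₁ hc₂ g3 g2 (hV.mem_nhds hx) n
    exact (hsub hx'V).1 hx'U
  have m2 := loop_meagre h hsec hc₁.toPar hc₂
  have m3 := loop_meagre' h hsec hc₁ hc₂.toPar
  have m4 := tri_meagre hdim h hc₁.toPar hc₂
  by_contra hcon
  push Not at hcon
  refine not_isMeagre_of_isOpen hO'o ⟨x₀, hxO'⟩
    (((isMeagre_iUnion m1).union (m2.union (m3.union m4))).mono ?_)
  intro x hx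
  obtain ⟨g1, g2, g3⟩ := hO'sub hx
  by_cases c1 : ∀ n : ℕ, x ∈ UT Φ Ω₁ Ω₂ ψ₁ ψ₂ n
  · by_cases c2 : Loop S (ψ₁ x.1) (ψ₂ x.2)
    · exact Or.inr (Or.inl ⟨g3.1, g3.2.1, c2⟩)
    · by_cases c3 : Loop S (ψ₂ x.2) (ψ₁ x.1)
      · exact Or.inr (Or.inr (Or.inl ⟨g3.1, g3.2.1, c3⟩))
      · obtain ⟨y, hy1, hy2⟩ := hcon x g1 g3.1 g3.2.1 c1 c2 c3
        exact Or.inr (Or.inr (Or.inr ⟨y, hy1, hy2⟩))
  · push Not at c1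
    obtain ⟨n, hn⟩ := c1
    exact Or.inl (mem_iUnion.2 ⟨n, hn, hx⟩)

end Pool.Agent.H91.GE
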