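import Pool.Agent.H91.GS.Geo

/-!
# Branches of connecting geodesics and their crossings
-/

set_option autoImplicit false

open scoped InnerProductSpace Topology ContDiff
open Set Filter

namespace Pool.Agent.H91.GE

variable {E F : Type*} [NormedAddCommGroup E] [InnerProductSpace ℝ E] [FiniteDimensional ℝ E]
  [NormedAddCommGroup F] [InnerProductSpace ℝ F] [FiniteDimensional ℝ F]
  {S : Set E} {A : E × E → E} {K K₂ : NNReal} {Φ : ℝ → E × E → E × E}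

/-- Pairs of points in charts. -/
abbrev Pt : Type := (ℝ × ℝ) × (ℝ × ℝ)

/-- Derivatives of maps with values in `S` are tangent vectors. -/
theorem mem_TSet_of_map (hsub : IsSub F S) {B : Type*} [NormedAddCommGroup B] [NormedSpace ℝ B]
    {Z : B → E} {b₀ : B} (hZ : DifferentiableAt ℝ Z b₀) (hm : ∀ᶠ b in 𝓝 b₀, Z b ∈ S) (v : B) :
    (Z b₀, fderiv ℝ Z b₀ v) ∈ TSet S := by
  have hS : Z b₀ ∈ S := hm.self_of_nhds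
  obtain ⟨U, hU, f, hf⟩ := hsub (Z b₀) hS
  refine (mem_TSet_iff hf hU).2 ⟨hS, ?_⟩
  have h1 : HasFDerivAt (fun x => f (Z x)) (fderiv ℝ f (Z b₀) ∘L fderiv ℝ Z b₀) b₀ :=
    (hasFDerivAt_of_open hf.isOpen hf.smooth hU).comp b₀ hZ.hasFDerivAt
  have h2 : (fun x => f (Z x)) =ᶠ[𝓝 b₀] fun _ => 0 := by
    have h3 : ∀ᶠ y in 𝓝 b₀, Z y ∈ U := hZ.continuousAt.preimage_mem_nhds (hf.isOpen.mem_nhds hU)
    filter_upwards [h3, hm] with y hy hy'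
    exact (hf.mem_iff hy).1 hy'
  have h3 := h1.unique ((hasFDerivAt_const (0 : F) b₀).congr_of_eventuallyEq h2)
  exact congrArg (fun L : B →L[ℝ] F => L v) h3

variable {Ω Ω₁ Ω₂ : Set (ℝ × ℝ)} {ψ ψ₁ ψ₂ : ℝ × ℝ → E} {P₂ : E →L[ℝ] ℝ × ℝ} {W₂ : Set E}

/-- The endpoint map. -/
noncomputable def G11 (Φ : ℝ → E × E → E × E) (ψ : ℝ × ℝ → E) (y : (ℝ × ℝ) × (ℝ × ℝ)) : E :=
  G1 Φ ψ y 1

/-- Nondegenerate geodesics. -/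
def Nondeg (Φ : ℝ → E × E → E × E) (ψ : ℝ × ℝ → E) (p w : ℝ × ℝ) : Prop :=
  Function.Injective fun b : ℝ × ℝ => fderiv ℝ (G11 Φ ψ) (p, w) (0, b)

theorem GFlow.contDiffAt_G11 (h : GFlow F S A K K₂ Φ) (hp : Par S Ω ψ)
    {y : (ℝ × ℝ) × (ℝ × ℝ)} (hy : y.1 ∈ Ω) : ContDiffAt ℝ ∞ (G11 Φ ψ) y := by
  have h1 := (h.contDiffAt_G1 hp (x := (y, 1)) hy).1
  have h2 : ContDiffAt ℝ ∞ (fun y : (ℝ × ℝ) × (ℝ × ℝ) => (y, (1 : ℝ))) y :=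
    contDiffAt_id.prodMk contDiffAt_const
  exact ContDiffAt.comp y (g := fun x : ((ℝ × ℝ) × (ℝ × ℝ)) × ℝ => G1 Φ ψ x.1 x.2) h1 h2

theorem GFlow.mem_G1 (h : GFlow F S A K K₂ Φ) (hp : Par S Ω ψ) {p : ℝ × ℝ} (hpΩ : p ∈ Ω)
    (w : ℝ × ℝ) (t : ℝ) : G1 Φ ψ (p, w) t ∈ S :=
  (h.isGeo_G1 hp hpΩ w).1.mem t

theorem GFlow.tangent_G11 (h : GFlow F S A K K₂ Φ) (hp : Par S Ω ψ)
    {y : (ℝ × ℝ) × (ℝ × ℝ)} (hy : y.1 ∈ Ω) (v : (ℝ × ℝ) × (ℝ × ℝ)) :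
    (G11 Φ ψ y, fderiv ℝ (G11 Φ ψ) y v) ∈ TSet S := by
  refine mem_TSet_of_map h.sub ((h.contDiffAt_G11 hp hy).differentiableAt (by simp)) ?_ v
  have h1 : ∀ᶠ z : (ℝ × ℝ) × (ℝ × ℝ) in 𝓝 y, z.1 ∈ Ω :=
    continuous_fst.continuousAt.preimage_mem_nhds (hp.isOpen.mem_nhds hy)
  filter_upwards [h1] with z hz
  exact h.mem_G1 hp hz z.2 1

/-- A smooth branch of connecting geodesics. -/
structure Br (Φ : ℝ → E × E → E × E) (Ω₁ Ω₂ : Set (ℝ × ℝ)) (ψ₁ ψ₂ : ℝ × ℝ → E) (O : Set Pt)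
    (V : Set (ℝ × ℝ)) (κ : Pt → ℝ × ℝ) : Prop where
  isOpen : IsOpen O
  V_open : IsOpen V
  smooth : ContDiffOn ℝ ∞ κ O
  mem : ∀ x ∈ O, x.1 ∈ Ω₁ ∧ x.2 ∈ Ω₂ ∧ κ x ∈ V ∧ G1 Φ ψ₁ (x.1, κ x) 1 = ψ₂ x.2
  uniq : ∀ x ∈ O, ∀ w ∈ V, G1 Φ ψ₁ (x.1, w) 1 = ψ₂ x.2 → w = κ x

theorem exists_br (h : GFlow F S A K K₂ Φ) (hp₁ : Par S Ω₁ ψ₁) (hc₂ : Chart S Ω₂ ψ₂ P₂ W₂)
    {x₀ : Pt} (hx1 : x₀.1 ∈ Ω₁) (hx2 : x₀.2 ∈ Ω₂) {w₀ : ℝ × ℝ}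
    (h0 : G1 Φ ψ₁ (x₀.1, w₀) 1 = ψ₂ x₀.2) (hnd : Nondeg Φ ψ₁ x₀.1 w₀) :
    ∃ (O : Set Pt) (V : Set (ℝ × ℝ)) (κ : Pt → ℝ × ℝ), Br Φ Ω₁ Ω₂ ψ₁ ψ₂ O V κ ∧ x₀ ∈ O ∧
      w₀ ∈ V ∧ κ x₀ = w₀ := by
  let π : Pt × (ℝ × ℝ) → (ℝ × ℝ) × (ℝ × ℝ) := fun y => (y.1.1, y.2)
  have hπ : ContDiff ℝ ∞ π := (contDiff_fst.fst).prodMk contDiff_snd
  set D₀ : Set (Pt × (ℝ × ℝ)) := {y | y.1.1 ∈ Ω₁ ∧ y.1.2 ∈ Ω₂} with hD₀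
  have hD₀o : IsOpen D₀ :=
    (hp₁.isOpen.preimage (continuous_fst.fst)).inter (hc₂.isOpen.preimage (continuous_fst.snd))
  have hG : ContDiffOn ℝ ∞ (fun y => G11 Φ ψ₁ (π y)) D₀ := fun y hy =>
    (ContDiffAt.comp y (g := G11 Φ ψ₁) (f := π) (h.contDiffAt_G11 hp₁ (y := π y) hy.1)
      hπ.contDiffAt).contDiffWithinAt
  set D : Set (Pt × (ℝ × ℝ)) := D₀ ∩ (fun y => G11 Φ ψ₁ (π y)) ⁻¹' W₂ with hD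
  have hDo : IsOpen D := hG.continuousOn.isOpen_inter_preimage hD₀o hc₂.W_open
  let Fn : Pt × (ℝ × ℝ) → ℝ × ℝ := fun y => P₂ (G11 Φ ψ₁ (π y)) - y.1.2
  have hF : ContDiffOn ℝ ∞ Fn D :=
    ((P₂.contDiff.comp_contDiffOn hG).mono inter_subset_left).sub contDiff_fst.snd.contDiffOn
  have h0' : G11 Φ ψ₁ (x₀.1, w₀) = ψ₂ x₀.2 := h0
  have hmem : (x₀, w₀) ∈ D := by
    refine ⟨⟨hx1, hx2⟩, ?_⟩
    show G11 Φ ψ₁ (x₀.1, w₀) ∈ W₂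
    rw [h0']; exact hc₂.maps _ hx2
  have hF0 : Fn (x₀, w₀) = 0 := by
    show P₂ (G11 Φ ψ₁ (x₀.1, w₀)) - x₀.2 = 0
    rw [h0', hc₂.left _ hx2, sub_self]
  have hder : ∀ b : ℝ × ℝ, fderiv ℝ Fn (x₀, w₀) (0, b)
      = P₂ (fderiv ℝ (G11 Φ ψ₁) (x₀.1, w₀) (0, b)) := by
    intro b
    have h1 : HasFDerivAt (G11 Φ ψ₁) (fderiv ℝ (G11 Φ ψ₁) (x₀.1, w₀)) (π (x₀, w₀)) :=
      ((h.contDiffAt_G11 hp₁ (y := (x₀.1, w₀)) hx1).differentiableAt (by simp)).hasFDerivAt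
    let πL : Pt × (ℝ × ℝ) →L[ℝ] (ℝ × ℝ) × (ℝ × ℝ) :=
      ((ContinuousLinearMap.fst ℝ (ℝ × ℝ) (ℝ × ℝ)) ∘L (ContinuousLinearMap.fst ℝ Pt (ℝ × ℝ))).prod
        (ContinuousLinearMap.snd ℝ Pt (ℝ × ℝ))
    have h2 : HasFDerivAt π πL (x₀, w₀) := πL.hasFDerivAt
    let qL : Pt × (ℝ × ℝ) →L[ℝ] ℝ × ℝ :=
      (ContinuousLinearMap.snd ℝ (ℝ × ℝ) (ℝ × ℝ)) ∘L (ContinuousLinearMap.fst ℝ Pt (ℝ × ℝ))
    have h3 : HasFDerivAt (fun y : Pt × (ℝ × ℝ) => y.1.2) qL (x₀, w₀) := qL.hasFDerivAt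
    have h4 : HasFDerivAt Fn ((P₂ ∘L ((fderiv ℝ (G11 Φ ψ₁) (x₀.1, w₀)) ∘L πL)) - qL) (x₀, w₀) :=
      (P₂.hasFDerivAt.comp (x₀, w₀) (h1.comp (x₀, w₀) h2)).sub h3
    rw [h4.fderiv]
    show P₂ (fderiv ℝ (G11 Φ ψ₁) (x₀.1, w₀) (0, b)) - 0 = _
    rw [sub_zero]
  have hinj : Function.Injective fun b : ℝ × ℝ => fderiv ℝ Fn (x₀, w₀) (0, b) := by
    intro b b' hbb
    simp only [hder] at hbb
    have h1 : P₂ (fderiv ℝ (G11 Φ ψ₁) (x₀.1, w₀) (0, b - b')) = 0 := by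
      have h2 : ((0 : ℝ × ℝ), b - b') = (0, b) - (0, b') := by simp
      rw [h2, map_sub, map_sub, hbb, sub_self]
    have h3 := h.tangent_G11 hp₁ (y := (x₀.1, w₀)) hx1 (0, b - b')
    have h4 := (hc₂.of_TSet (by rw [h0']; exact hc₂.maps _ hx2) h3).2.2
    rw [h1, map_zero] at h4
    have h5 : b - b' = 0 := hnd (a₁ := b - b') (a₂ := 0) (by
      show fderiv ℝ (G11 Φ ψ₁) (x₀.1, w₀) (0, b - b') = fderiv ℝ (G11 Φ ψ₁) (x₀.1, w₀) (0, 0)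
      rw [← h4]
      have h6 : ((0 : ℝ × ℝ), (0 : ℝ × ℝ)) = 0 := rfl
      rw [h6, map_zero])
    exact sub_eq_zero.1 h5
  have hbij : Function.Bijective fun b : ℝ × ℝ => fderiv ℝ Fn (x₀, w₀) (0, b) := by
    let L : (ℝ × ℝ) →ₗ[ℝ] ℝ × ℝ :=
      ((fderiv ℝ Fn (x₀, w₀)) ∘L (ContinuousLinearMap.inr ℝ Pt (ℝ × ℝ))).toLinearMap
    have hL : Function.Injective L := hinj
    exact ⟨hinj, LinearMap.injective_iff_surjective.1 hL⟩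
  obtain ⟨O, V, β, hO, hxO, hV, hwV, hOV, hβ, hβ0, hβ1⟩ := exists_implicit hDo hF hmem hbij
  rw [hF0] at hβ1
  refine ⟨O, V, β, ⟨hO, hV, hβ, fun x hx => ?_, fun x hx w hw hw1 => ?_⟩, hxO, hwV, hβ0⟩
  · obtain ⟨g1, g2, -⟩ := hβ1 x hx
    have g3 : (x, β x) ∈ D := hOV ⟨hx, g1⟩
    refine ⟨g3.1.1, g3.1.2, g1, ?_⟩
    have g4 : P₂ (G11 Φ ψ₁ (x.1, β x)) = x.2 := sub_eq_zero.1 g2
    have g5 := (hc₂.right (G11 Φ ψ₁ (x.1, β x)) (h.mem_G1 hp₁ g3.1.1 _ 1) g3.2).2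
    rw [g4] at g5
    exact g5.symm
  · obtain ⟨-, -, g2⟩ := hβ1 x hx
    have g3 : (x, w) ∈ D := hOV ⟨hx, hw⟩
    refine g2 w hw ?_
    show P₂ (G11 Φ ψ₁ (x.1, w)) - x.2 = 0
    have g4 : G11 Φ ψ₁ (x.1, w) = ψ₂ x.2 := hw1
    rw [g4, hc₂.left _ g3.1.2, sub_self]

/-- The geodesics of a family of initial data. -/
noncomputable def cF (Φ : ℝ → E × E → E × E) (ψ₁ : ℝ × ℝ → E) (κ : Pt → ℝ × ℝ) (x : Pt) (t : ℝ) : E :=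
  G1 Φ ψ₁ (x.1, κ x) t

theorem smooth_cF (h : GFlow F S A K K₂ Φ) (hp₁ : Par S Ω₁ ψ₁) {O : Set Pt} (hO : IsOpen O)
    {κ : Pt → ℝ × ℝ} (hκ : ContDiffOn ℝ ∞ κ O) (hm : ∀ x ∈ O, x.1 ∈ Ω₁) :
    ContDiffOn ℝ ∞ (fun y : Pt × ℝ => cF Φ ψ₁ κ y.1 y.2) (O ×ˢ univ) ∧
    ContDiffOn ℝ ∞ (fun y : Pt × ℝ => deriv (cF Φ ψ₁ κ y.1) y.2) (O ×ˢ univ) := by
  have h1 : ∀ y ∈ O ×ˢ (univ : Set ℝ), ContDiffAt ℝ ∞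
      (fun y : Pt × ℝ => (((y.1.1, κ y.1), y.2) : ((ℝ × ℝ) × (ℝ × ℝ)) × ℝ)) y := by
    intro y hy
    have h2 : ContDiffAt ℝ ∞ κ y.1 := contDiffAt_of_open hO hκ hy.1
    have h3 : ContDiffAt ℝ ∞ (fun y : Pt × ℝ => κ y.1) y := ContDiffAt.comp y h2 contDiffAt_fst
    exact ((contDiffAt_fst.fst).prodMk h3).prodMk contDiffAt_snd
  constructor
  · intro y hy
    exact (ContDiffAt.comp y (h.contDiffAt_G1 hp₁ (x := ((y.1.1, κ y.1), y.2)) (hm y.1 hy.1)).1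
      (h1 y hy)).contDiffWithinAt
  · intro y hy
    exact (ContDiffAt.comp y (h.contDiffAt_G1 hp₁ (x := ((y.1.1, κ y.1), y.2)) (hm y.1 hy.1)).2
      (h1 y hy)).contDiffWithinAt

/-- Independence of two velocities. -/
def Indep (u v : E) : Prop := ∀ a b : ℝ, a • u = b • v → a = 0 ∧ b = 0

/-- A smooth crossing of two families of geodesics. -/
structure Cr (c₁ c₂ : Pt → ℝ → E) (O : Set Pt) (V : Set (ℝ × ℝ)) (σ : Pt → ℝ × ℝ) : Prop where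
  isOpen : IsOpen O
  V_open : IsOpen V
  smooth : ContDiffOn ℝ ∞ σ O
  mem : ∀ x ∈ O, σ x ∈ V ∧ c₁ x (σ x).1 = c₂ x (σ x).2
  uniq : ∀ x ∈ O, ∀ s ∈ V, c₁ x s.1 = c₂ x s.2 → s = σ x

theorem exists_cr (hdim : Module.finrank ℝ E = Module.finrank ℝ F + 2) (h : GFlow F S A K K₂ Φ)
    (hp₁ : Par S Ω₁ ψ₁) {O : Set Pt} (hO : IsOpen O) {κ₁ κ₂ : Pt → ℝ × ℝ}
    (hκ₁ : ContDiffOn ℝ ∞ κ₁ O) (hκ₂ : ContDiffOn ℝ ∞ κ₂ O) (hm : ∀ x ∈ O, x.1 ∈ Ω₁) {x₀ : Pt}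
    (hx₀ : x₀ ∈ O) {s₀ : ℝ × ℝ} (heq : cF Φ ψ₁ κ₁ x₀ s₀.1 = cF Φ ψ₁ κ₂ x₀ s₀.2)
    (hind : Indep (deriv (cF Φ ψ₁ κ₁ x₀) s₀.1) (deriv (cF Φ ψ₁ κ₂ x₀) s₀.2)) :
    ∃ (O' : Set Pt) (V : Set (ℝ × ℝ)) (σ : Pt → ℝ × ℝ), O' ⊆ O ∧
      Cr (cF Φ ψ₁ κ₁) (cF Φ ψ₁ κ₂) O' V σ ∧ x₀ ∈ O' ∧ s₀ ∈ V ∧ σ x₀ = s₀ := by
  set z := cF Φ ψ₁ κ₁ x₀ s₀.1 with hz
  have hmemS : ∀ (κ : Pt → ℝ × ℝ), ∀ x ∈ O, ∀ t, cF Φ ψ₁ κ x t ∈ S := fun κ x hx t =>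
    h.mem_G1 hp₁ (hm x hx) _ t
  have hzS : z ∈ S := hmemS κ₁ x₀ hx₀ _
  obtain ⟨U, hU, f, hf⟩ := h.sub z hzS
  obtain ⟨Ωz, ψz, Pz, Wz, hcz, hzW⟩ := exists_chart hdim hf hU hzS
  have s1 := (smooth_cF h hp₁ hO hκ₁ hm).1
  have s2 := (smooth_cF h hp₁ hO hκ₂ hm).1
  set D₀ : Set (Pt × (ℝ × ℝ)) := O ×ˢ univ with hD₀
  have hD₀o : IsOpen D₀ := hO.prod isOpen_univ
  let f₁ : Pt × (ℝ × ℝ) → E := fun y => cF Φ ψ₁ κ₁ y.1 y.2.1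
  let f₂ : Pt × (ℝ × ℝ) → E := fun y => cF Φ ψ₁ κ₂ y.1 y.2.2
  have hf₁ : ContDiffOn ℝ ∞ f₁ D₀ :=
    s1.comp ((contDiff_fst.prodMk contDiff_snd.fst).contDiffOn) fun y hy => ⟨hy.1, mem_univ _⟩
  have hf₂ : ContDiffOn ℝ ∞ f₂ D₀ :=
    s2.comp ((contDiff_fst.prodMk contDiff_snd.snd).contDiffOn) fun y hy => ⟨hy.1, mem_univ _⟩
  set D : Set (Pt × (ℝ × ℝ)) := (D₀ ∩ f₁ ⁻¹' Wz) ∩ (D₀ ∩ f₂ ⁻¹' Wz) with hD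
  have hDo : IsOpen D := (hf₁.continuousOn.isOpen_inter_preimage hD₀o hcz.W_open).inter
    (hf₂.continuousOn.isOpen_inter_preimage hD₀o hcz.W_open)
  let Fn : Pt × (ℝ × ℝ) → ℝ × ℝ := fun y => Pz (f₁ y) - Pz (f₂ y)
  have hF : ContDiffOn ℝ ∞ Fn D :=
    ((Pz.contDiff.comp_contDiffOn hf₁).mono (inter_subset_left.trans inter_subset_left)).sub
      ((Pz.contDiff.comp_contDiffOn hf₂).mono (inter_subset_left.trans inter_subset_left))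
  have hmem : (x₀, s₀) ∈ D := by
    refine ⟨⟨⟨hx₀, mem_univ _⟩, hzW⟩, ⟨hx₀, mem_univ _⟩, ?_⟩
    show cF Φ ψ₁ κ₂ x₀ s₀.2 ∈ Wz
    rw [← heq]; exact hzW
  have hF0 : Fn (x₀, s₀) = 0 := by
    show Pz (cF Φ ψ₁ κ₁ x₀ s₀.1) - Pz (cF Φ ψ₁ κ₂ x₀ s₀.2) = 0
    rw [← heq, sub_self]
  have hgeo₁ : IsGeo S (cF Φ ψ₁ κ₁ x₀) := (h.isGeo_G1 hp₁ (hm x₀ hx₀) _).1
  have hgeo₂ : IsGeo S (cF Φ ψ₁ κ₂ x₀) := (h.isGeo_G1 hp₁ (hm x₀ hx₀) _).1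
  -- derivative in the times
  have hder : ∀ b : ℝ × ℝ, fderiv ℝ Fn (x₀, s₀) (0, b)
      = Pz (b.1 • deriv (cF Φ ψ₁ κ₁ x₀) s₀.1 - b.2 • deriv (cF Φ ψ₁ κ₂ x₀) s₀.2) := by
    intro b
    have h1 : HasFDerivAt Fn (fderiv ℝ Fn (x₀, s₀)) (x₀, s₀) := hasFDerivAt_of_open hDo hF hmem
    have h2 : HasDerivAt (fun t : ℝ => ((x₀, s₀ + t • b) : Pt × (ℝ × ℝ))) (0, b) 0 := by
      have h3 : HasDerivAt (fun t : ℝ => s₀ + t • b) b 0 := by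
        simpa using ((hasDerivAt_id (0 : ℝ)).smul_const b).const_add s₀
      exact (hasDerivAt_const (0 : ℝ) x₀).prodMk h3
    have h4 : HasDerivAt (fun t : ℝ => Fn (x₀, s₀ + t • b)) (fderiv ℝ Fn (x₀, s₀) (0, b)) 0 := by
      have h5 : HasFDerivAt Fn (fderiv ℝ Fn (x₀, s₀)) (x₀, s₀ + (0 : ℝ) • b) := by
        rw [zero_smul, add_zero]; exact h1
      exact h5.comp_hasDerivAt (0 : ℝ) h2
    have h6 : ∀ (c : ℝ → E) (s b : ℝ), IsGeo S c → HasDerivAt (fun t => c (s + t * b))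
        (b • deriv c s) 0 := by
      intro c s b hc
      have h7 : HasDerivAt (fun t : ℝ => s + t * b) b 0 := by
        simpa using ((hasDerivAt_id (0 : ℝ)).mul_const b).const_add s
      have h8 : HasDerivAt c (deriv c s) (s + 0 * b) := by
        rw [zero_mul, add_zero]; exact hc.hasDerivAt s
      exact HasDerivAt.scomp (0 : ℝ) h8 h7
    have h9 : HasDerivAt (fun t : ℝ => Fn (x₀, s₀ + t • b))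
        (Pz (b.1 • deriv (cF Φ ψ₁ κ₁ x₀) s₀.1) - Pz (b.2 • deriv (cF Φ ψ₁ κ₂ x₀) s₀.2)) 0 :=
      (Pz.hasFDerivAt.comp_hasDerivAt (0 : ℝ) (h6 _ s₀.1 b.1 hgeo₁)).sub
        (Pz.hasFDerivAt.comp_hasDerivAt (0 : ℝ) (h6 _ s₀.2 b.2 hgeo₂))
    rw [h4.unique h9, map_sub]
  have hinj : Function.Injective fun b : ℝ × ℝ => fderiv ℝ Fn (x₀, s₀) (0, b) := by
    intro b b' hbb
    have h1 : fderiv ℝ Fn (x₀, s₀) (0, b - b') = 0 := by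
      have h2 : ((0 : Pt), b - b') = (0, b) - (0, b') := by simp
      have h3 : fderiv ℝ Fn (x₀, s₀) (0, b) = fderiv ℝ Fn (x₀, s₀) (0, b') := hbb
      rw [h2, map_sub, h3, sub_self]
    rw [hder] at h1
    have t1 : (z, (b - b').1 • deriv (cF Φ ψ₁ κ₁ x₀) s₀.1) ∈ TSet S :=
      scale_TSet (hgeo₁.mem_TSet s₀.1) h.sub _
    have t2 : (z, (b - b').2 • deriv (cF Φ ψ₁ κ₂ x₀) s₀.2) ∈ TSet S := by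
      have := scale_TSet (hgeo₂.mem_TSet s₀.2) h.sub (b - b').2
      rw [← heq] at this
      exact this
    have h3 := (hcz.of_TSet hzW t1).2.2
    have h4 := (hcz.of_TSet hzW t2).2.2
    rw [map_sub, sub_eq_zero] at h1
    rw [h1, h4] at h3
    obtain ⟨h5, h6⟩ := hind _ _ h3.symm
    have h7 : b - b' = 0 := Prod.ext h5 h6
    exact sub_eq_zero.1 h7
  have hbij : Function.Bijective fun b : ℝ × ℝ => fderiv ℝ Fn (x₀, s₀) (0, b) := by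
    let L : (ℝ × ℝ) →ₗ[ℝ] ℝ × ℝ :=
      ((fderiv ℝ Fn (x₀, s₀)) ∘L (ContinuousLinearMap.inr ℝ Pt (ℝ × ℝ))).toLinearMap
    have hL : Function.Injective L := hinj
    exact ⟨hinj, LinearMap.injective_iff_surjective.1 hL⟩
  obtain ⟨O', V, β, hO', hxO, hV, hwV, hOV, hβ, hβ0, hβ1⟩ := exists_implicit hDo hF hmem hbij
  rw [hF0] at hβ1
  have hsubO : O' ⊆ O := fun x hx => (hOV (⟨hx, hwV⟩ : (x, s₀) ∈ O' ×ˢ V)).1.1.1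
  refine ⟨O', V, β, hsubO, ⟨hO', hV, hβ, fun x hx => ?_, fun x hx s hs hs1 => ?_⟩, hxO, hwV, hβ0⟩
  · obtain ⟨g1, g2, -⟩ := hβ1 x hx
    have g3 : (x, β x) ∈ D := hOV ⟨hx, g1⟩
    refine ⟨g1, ?_⟩
    have g4 : Pz (cF Φ ψ₁ κ₁ x (β x).1) = Pz (cF Φ ψ₁ κ₂ x (β x).2) := sub_eq_zero.1 g2
    have g5 := (hcz.right _ (hmemS κ₁ x (hsubO hx) (β x).1) g3.1.2).2
    have g6 := (hcz.right _ (hmemS κ₂ x (hsubO hx) (β x).2) g3.2.2).2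
    rw [← g5, ← g6, g4]
  · obtain ⟨-, -, g2⟩ := hβ1 x hx
    refine g2 s hs ?_
    show Pz (cF Φ ψ₁ κ₁ x s.1) - Pz (cF Φ ψ₁ κ₂ x s.2) = 0
    rw [hs1, sub_self]

end Pool.Agent.H91.GE
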