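import Pool.Agent.H91.GS.IFT
import Pool.Agent.H91.GE.Sec

/-!
# Smooth charts of a surface
-/

set_option autoImplicit false

open scoped InnerProductSpace Topology ContDiff
open Set Filter

namespace Pool.Agent.H91.GE

variable {E F : Type*} [NormedAddCommGroup E] [InnerProductSpace ℝ E] [FiniteDimensional ℝ E]
  [NormedAddCommGroup F] [InnerProductSpace ℝ F] [FiniteDimensional ℝ F]

/-- A smooth immersed parametrisation of (a part of) `S`. -/
structure Par (S : Set E) (Ω : Set (ℝ × ℝ)) (ψ : ℝ × ℝ → E) : Prop where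
  isOpen : IsOpen Ω
  smooth : ContDiffOn ℝ ∞ ψ Ω
  mem : ∀ x ∈ Ω, ψ x ∈ S
  inj : ∀ x ∈ Ω, Function.Injective (fderiv ℝ ψ x)

/-- A chart: a parametrisation with a linear left inverse. -/
structure Chart (S : Set E) (Ω : Set (ℝ × ℝ)) (ψ : ℝ × ℝ → E) (P : E →L[ℝ] ℝ × ℝ) (W : Set E) : Prop
    extends Par S Ω ψ where
  left : ∀ x ∈ Ω, P (ψ x) = x
  W_open : IsOpen W
  maps : ∀ x ∈ Ω, ψ x ∈ W
  right : ∀ q ∈ S, q ∈ W → P q ∈ Ω ∧ ψ (P q) = q

variable {S : Set E} {Ω : Set (ℝ × ℝ)} {ψ : ℝ × ℝ → E} {P : E →L[ℝ] ℝ × ℝ} {W : Set E}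

omit [FiniteDimensional ℝ E] in
theorem Par.hasFDerivAt (h : Par S Ω ψ) {x : ℝ × ℝ} (hx : x ∈ Ω) :
    HasFDerivAt ψ (fderiv ℝ ψ x) x :=
  (((h.smooth x hx).contDiffAt (h.isOpen.mem_nhds hx)).differentiableAt (by simp)).hasFDerivAt

theorem exists_orthonormal_ker (hdim : Module.finrank ℝ E = Module.finrank ℝ F + 2)
    {L : E →L[ℝ] F} (hL : Function.Surjective L) :
    ∃ e ν : E, L e = 0 ∧ L ν = 0 ∧ ‖e‖ = 1 ∧ ‖ν‖ = 1 ∧ ⟪e, ν⟫_ℝ = 0 := by
  have h1 : Module.finrank ℝ (LinearMap.ker L.toLinearMap) = 2 := by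
    have h2 := LinearMap.finrank_range_add_finrank_ker L.toLinearMap
    have h3 : LinearMap.range L.toLinearMap = ⊤ := LinearMap.range_eq_top.2 hL
    rw [h3, finrank_top, hdim] at h2
    omega
  let b := stdOrthonormalBasis ℝ (LinearMap.ker L.toLinearMap)
  let i : Fin (Module.finrank ℝ (LinearMap.ker L.toLinearMap)) := ⟨0, by omega⟩
  let j : Fin (Module.finrank ℝ (LinearMap.ker L.toLinearMap)) := ⟨1, by omega⟩
  have hij : i ≠ j := by
    intro h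
    have := congrArg Fin.val h
    simp [i, j] at this
  refine ⟨b i, b j, (b i).2, (b j).2, ?_, ?_, ?_⟩
  · have := b.orthonormal.1 i
    exact this
  · have := b.orthonormal.1 j
    exact this
  · have := b.orthonormal.2 hij
    exact this

theorem exists_chart (hdim : Module.finrank ℝ E = Module.finrank ℝ F + 2) {U : Set E} {f : E → F}
    (hf : IsLoc S U f) {p : E} (hpU : p ∈ U) (hpS : p ∈ S) :
    ∃ (Ω : Set (ℝ × ℝ)) (ψ : ℝ × ℝ → E) (P : E →L[ℝ] ℝ × ℝ) (W : Set E), Chart S Ω ψ P W ∧ p ∈ W := by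
  obtain ⟨e, ν, he, hν, he1, hν1, heν⟩ := exists_orthonormal_ker hdim (hf.surj p hpU)
  obtain ⟨T, hT⟩ := chart_bij hdim (hf.surj p hpU) he hν he1 hν1 heν
  let P : E →L[ℝ] ℝ × ℝ := (innerSL ℝ e).prod (innerSL ℝ ν)
  let G : E → F × (ℝ × ℝ) := fun q => (f q, P q)
  have hGc : ContDiffOn ℝ ∞ G U := hf.smooth.prodMk P.contDiff.contDiffOn
  have hGd : ∀ q ∈ U, HasFDerivAt G ((fderiv ℝ f q).prod P) q := fun q hq =>
    (hasFDerivAt_of_open hf.isOpen hf.smooth hq).prodMk P.hasFDerivAt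
  have hbij : Function.Bijective (fderiv ℝ G p) := by
    have h1 : fderiv ℝ G p = (T : E →L[ℝ] F × (ℝ × ℝ)) := by
      rw [(hGd p hpU).fderiv]
      ext v <;> simp [hT, P]
    rw [h1]; exact T.bijective
  obtain ⟨H, hHc, hpH, hHU, hHs, hHb⟩ := exists_inv hf.isOpen hGc hpU hbij
  let ι : ℝ × ℝ → F × (ℝ × ℝ) := fun x => (0, x)
  have hι : ContDiff ℝ ∞ ι := contDiff_const.prodMk contDiff_id
  have hval : ∀ x, ι x ∈ H.target → f (H.symm (ι x)) = 0 ∧ P (H.symm (ι x)) = x := by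
    intro x hx
    have h1 := H.right_inv hx
    rw [hHc] at h1
    exact ⟨congrArg Prod.fst h1, congrArg Prod.snd h1⟩
  have hopen : IsOpen (ι ⁻¹' H.target) := H.open_target.preimage hι.continuous
  have hsm : ContDiffOn ℝ ∞ (fun x => H.symm (ι x)) (ι ⁻¹' H.target) :=
    hHs.comp hι.contDiffOn fun x hx => hx
  refine ⟨ι ⁻¹' H.target, fun x => H.symm (ι x), P, H.source, ⟨⟨hopen, hsm, ?_, ?_⟩, ?_, H.open_source,
    ?_, ?_⟩, hpH⟩
  · intro x hx
    exact (hf.mem_iff (hHU (H.map_target hx))).2 (hval x hx).1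
  · intro x hx v w hvw
    have h1 : HasFDerivAt (fun x => P (H.symm (ι x)))
        (P ∘L fderiv ℝ (fun x => H.symm (ι x)) x) x :=
      P.hasFDerivAt.comp x (hasFDerivAt_of_open hopen hsm hx)
    have h2 : (fun x => P (H.symm (ι x))) =ᶠ[𝓝 x] fun x => x := by
      filter_upwards [hopen.mem_nhds hx] with y hy
      exact (hval y hy).2
    have h3 := h1.unique ((hasFDerivAt_id x).congr_of_eventuallyEq h2)
    have h4 := congrArg (fun L : ℝ × ℝ →L[ℝ] ℝ × ℝ => L v) h3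
    have h5 := congrArg (fun L : ℝ × ℝ →L[ℝ] ℝ × ℝ => L w) h3
    have h6 : P (fderiv ℝ (fun x => H.symm (ι x)) x v) = v := h4
    have h7 : P (fderiv ℝ (fun x => H.symm (ι x)) x w) = w := h5
    rw [← h6, ← h7, hvw]
  · intro x hx; exact (hval x hx).2
  · intro x hx; exact H.map_target hx
  · intro q hqS hq
    have h1 : H q = ι (P q) := by
      rw [hHc]
      show (f q, P q) = (0, P q)
      rw [(hf.mem_iff (hHU hq)).1 hqS]
    refine ⟨?_, ?_⟩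
    · show ι (P q) ∈ H.target
      rw [← h1]; exact H.map_source hq
    · show H.symm (ι (P q)) = q
      rw [← h1]; exact H.left_inv hq

omit [FiniteDimensional ℝ E] in
/-- `P` is a left inverse of the derivative. -/
theorem Chart.P_fderiv (h : Chart S Ω ψ P W) {x : ℝ × ℝ} (hx : x ∈ Ω) (v : ℝ × ℝ) :
    P (fderiv ℝ ψ x v) = v := by
  have h1 : HasFDerivAt (fun x => P (ψ x)) (P ∘L fderiv ℝ ψ x) x :=
    P.hasFDerivAt.comp x (h.hasFDerivAt hx)
  have h2 : (fun x => P (ψ x)) =ᶠ[𝓝 x] fun x => x := by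
    filter_upwards [h.isOpen.mem_nhds hx] with y hy
    exact h.left y hy
  have h3 := h1.unique ((hasFDerivAt_id x).congr_of_eventuallyEq h2)
  exact congrArg (fun L : ℝ × ℝ →L[ℝ] ℝ × ℝ => L v) h3

/-- Tangent vectors of a parametrisation. -/
theorem Par.mem_TSet (hsub : IsSub F S) (h : Par S Ω ψ) {x : ℝ × ℝ} (hx : x ∈ Ω) (v : ℝ × ℝ) :
    (ψ x, fderiv ℝ ψ x v) ∈ TSet S := by
  obtain ⟨U, hU, f, hf⟩ := hsub (ψ x) (h.mem x hx)
  refine (mem_TSet_iff hf hU).2 ⟨h.mem x hx, ?_⟩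
  have h1 : HasFDerivAt (fun x => f (ψ x)) (fderiv ℝ f (ψ x) ∘L fderiv ℝ ψ x) x :=
    (hasFDerivAt_of_open hf.isOpen hf.smooth hU).comp x (h.hasFDerivAt hx)
  have h2 : (fun x => f (ψ x)) =ᶠ[𝓝 x] fun _ => 0 := by
    have h3 : ∀ᶠ y in 𝓝 x, ψ y ∈ U :=
      (h.hasFDerivAt hx).continuousAt.preimage_mem_nhds (hf.isOpen.mem_nhds hU)
    filter_upwards [h3, h.isOpen.mem_nhds hx] with y hy hy'
    exact (hf.mem_iff hy).1 (h.mem y hy')
  have h3 := h1.unique ((hasFDerivAt_const (0 : F) x).congr_of_eventuallyEq h2)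
  exact congrArg (fun L : ℝ × ℝ →L[ℝ] F => L v) h3

omit [FiniteDimensional ℝ E] in
/-- Tangent vectors in a chart. -/
theorem Chart.of_TSet (h : Chart S Ω ψ P W) {q v : E} (hq : q ∈ W) (hv : (q, v) ∈ TSet S) :
    P q ∈ Ω ∧ ψ (P q) = q ∧ fderiv ℝ ψ (P q) (P v) = v := by
  have hqS : q ∈ S := fst_mem_TSet hv
  obtain ⟨h1, h2⟩ := h.right q hqS hq
  refine ⟨h1, h2, ?_⟩
  obtain ⟨c, hc, hcS, hc0, hcd⟩ := hv
  have hc0' : c 0 = q := hc0
  have hcd' : deriv c 0 = v := hcd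
  have h3 : HasDerivAt c v 0 := by
    rw [← hcd']; exact (hc.differentiable (by simp) 0).hasDerivAt
  have h4 : HasDerivAt (fun s => P (c s)) (P v) 0 := P.hasFDerivAt.comp_hasDerivAt (0 : ℝ) h3
  have h5 : HasDerivAt (fun s => ψ (P (c s))) (fderiv ℝ ψ (P q) (P v)) 0 := by
    have h6 : HasFDerivAt ψ (fderiv ℝ ψ (P q)) (P (c 0)) := by
      rw [hc0']; exact h.hasFDerivAt h1
    exact h6.comp_hasDerivAt (0 : ℝ) h4
  have h7 : (fun s => ψ (P (c s))) =ᶠ[𝓝 0] c := by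
    have h8 : ∀ᶠ s in 𝓝 (0 : ℝ), c s ∈ W :=
      hc.continuous.continuousAt.preimage_mem_nhds (by rw [hc0']; exact h.W_open.mem_nhds hq)
    filter_upwards [h8] with s hs
    exact (h.right (c s) (hcS s) hs).2
  exact h5.unique (h3.congr_of_eventuallyEq h7)

/-- Any parametrisation spans the tangent space. -/
theorem Par.of_TSet (hdim : Module.finrank ℝ E = Module.finrank ℝ F + 2) (hsub : IsSub F S)
    (h : Par S Ω ψ) {x : ℝ × ℝ} (hx : x ∈ Ω) {v : E} (hv : (ψ x, v) ∈ TSet S) :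
    ∃ w, fderiv ℝ ψ x w = v := by
  obtain ⟨U, hU, f, hf⟩ := hsub (ψ x) (h.mem x hx)
  obtain ⟨Ω', ψ', P', W', hch, hW'⟩ := exists_chart hdim hf hU (h.mem x hx)
  have h1 : ∀ w, fderiv ℝ ψ' (P' (ψ x)) (P' (fderiv ℝ ψ x w)) = fderiv ℝ ψ x w := fun w =>
    (hch.of_TSet hW' (h.mem_TSet hsub hx w)).2.2
  let L : (ℝ × ℝ) →ₗ[ℝ] (ℝ × ℝ) := (P' ∘L fderiv ℝ ψ x).toLinearMap
  have hL : Function.Injective L := by
    intro a b hab
    have h2 : P' (fderiv ℝ ψ x a) = P' (fderiv ℝ ψ x b) := hab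
    refine h.inj x hx ?_
    rw [← h1 a, ← h1 b, h2]
  obtain ⟨w, hw⟩ := (LinearMap.injective_iff_surjective.1 hL) (P' v)
  refine ⟨w, ?_⟩
  have h2 : P' (fderiv ℝ ψ x w) = P' v := hw
  rw [← h1 w, h2]
  exact (hch.of_TSet hW' hv).2.2

end Pool.Agent.H91.GE
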