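import Pool.Agent.H91.GS.Local

/-!
# The curvature of a secure surface is locally constant
-/

set_option autoImplicit false

open scoped InnerProductSpace Topology ContDiff
open Set Filter

namespace Pool.Agent.H91.GE

variable {E F : Type*} [NormedAddCommGroup E] [InnerProductSpace ℝ E] [FiniteDimensional ℝ E]
  [NormedAddCommGroup F] [InnerProductSpace ℝ F] [FiniteDimensional ℝ F]
  {S : Set E} {A : E × E → E} {K K₂ : NNReal} {Φ : ℝ → E × E → E × E}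
  {Ω : Set (ℝ × ℝ)} {ψ : ℝ × ℝ → E} {P : E →L[ℝ] ℝ × ℝ} {W : Set E}

/-- Near every point there are webs. -/
theorem exists_web_near (hdim : Module.finrank ℝ E = Module.finrank ℝ F + 2)
    (h : GFlow F S A K K₂ Φ) (hsec : Secure S) (hnw : NonWand Φ S) (hc : Chart S Ω ψ P W)
    {p : ℝ × ℝ} (hp : p ∈ Ω) {N : Set Pt} (hN : N ∈ 𝓝 (p, p)) :
    ∃ x ∈ N, ∃ z ∈ S, ∃ (w : ℕ → ℝ × ℝ) (s : ℕ → ℝ), Web Φ Ω Ω ψ ψ x z w s := by
  obtain ⟨c, hc0, hc2⟩ : ∃ c : ℝ, c ≠ 0 ∧ ‖fderiv ℝ ψ p (c, 0)‖ < 2 := by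
    refine ⟨1 / (‖fderiv ℝ ψ p (1, 0)‖ + 1), by positivity, ?_⟩
    set a := ‖fderiv ℝ ψ p (1, 0)‖ with ha
    have h1 : ((1 / (a + 1), 0) : ℝ × ℝ) = (1 / (a + 1)) • (1, 0) := by simp
    rw [h1, map_smul, norm_smul, ← ha, Real.norm_of_nonneg (by positivity), div_mul_eq_mul_div,
      one_mul]
    have h2 : a / (a + 1) < 1 := by rw [div_lt_one (by positivity)]; linarith
    linarith
  set w : ℝ × ℝ := (c, 0) with hw
  have hw0 : w ≠ 0 := fun h0 => hc0 (congrArg Prod.fst h0)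
  obtain ⟨g1, g2, g3⟩ := h.isGeo_G1 hc.toPar hp w
  obtain ⟨N₁, hN₁N, hN₁o, hpN₁⟩ := mem_nhds_iff.1 hN
  set I : Set ℝ := {t | G1 Φ ψ (p, w) t ∈ W} ∩ {t | (p, P (G1 Φ ψ (p, w) t)) ∈ N₁} with hI
  have hIo : IsOpen I := (hc.W_open.preimage g1.continuous).inter
    (hN₁o.preimage (continuous_const.prodMk (P.continuous.comp g1.continuous)))
  have h0I : (0 : ℝ) ∈ I := by
    refine ⟨?_, ?_⟩
    · show G1 Φ ψ (p, w) 0 ∈ W
      rw [g2]; exact hc.maps p hp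
    · show (p, P (G1 Φ ψ (p, w) 0)) ∈ N₁
      rw [g2, hc.left p hp]; exact hpN₁
  obtain ⟨t, ⟨htW, htN⟩, ht0, hnd⟩ := h.exists_nondeg hc.toPar hp hw0 hc2 hIo ⟨0, h0I⟩
  obtain ⟨hΩ, hψ⟩ := hc.right _ (g1.mem t) htW
  have hcfg : Cfg Φ Ω Ω ψ ψ (p, P (G1 Φ ψ (p, w) t)) (t • w) := by
    refine ⟨hp, hΩ, ?_, hnd⟩
    show Geo Φ (ψ p) (fderiv ℝ ψ p (t • w)) 1 = ψ (P (G1 Φ ψ (p, w) t))
    rw [map_smul, h.Geo_smul (hc.mem_TSet h.sub hp w), mul_one]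
    exact hψ.symm
  obtain ⟨x, hx, z, hz, w', s, hweb⟩ := exists_web hdim h hsec hnw hc hc hcfg
    (smul_ne_zero ht0 hw0) (hN₁o.mem_nhds htN)
  exact ⟨x, hN₁N hx, z, hz, w', s, hweb⟩

theorem dK_zero (hdim : Module.finrank ℝ E = Module.finrank ℝ F + 2)
    (h : GFlow F S A K K₂ Φ) (hsec : Secure S) (hnw : NonWand Φ S) (hc : Chart S Ω ψ P W)
    {p : ℝ × ℝ} (hp : p ∈ Ω) : fderiv ℝ (GK ψ) p = 0 := by
  have hcont : ContinuousAt (fderiv ℝ (GK ψ)) p :=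
    ((contDiffAt_of_open hc.isOpen hc.smooth_GK hp).fderiv_right (m := ∞) (by norm_num)).continuousAt
  by_contra hne
  have hev : ∀ᶠ q in 𝓝 p, fderiv ℝ (GK ψ) q ≠ 0 := hcont.eventually_ne hne
  have hN : {x : Pt | fderiv ℝ (GK ψ) x.2 ≠ 0} ∈ 𝓝 (p, p) :=
    (continuous_snd.continuousAt (x := ((p, p) : Pt))).preimage_mem_nhds hev
  obtain ⟨N₁, hN₁N, hN₁o, hpN₁⟩ := mem_nhds_iff.1 hN
  obtain ⟨x, hx, z, hz, w, s, hweb⟩ := exists_web_near hdim h hsec hnw hc hp (hN₁o.mem_nhds hpN₁)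
  obtain ⟨y, hy, -, h0⟩ := local_K hdim h hsec hc hc hweb hz (hN₁o.mem_nhds hx)
  exact hN₁N hy h0

end Pool.Agent.H91.GE
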