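import Pool.Agent.H91.GS.Conn

/-!
# The Gauss equation
-/

set_option autoImplicit false

open scoped InnerProductSpace Topology ContDiff
open Set Filter

namespace Pool.Agent.H91.GE

variable {E : Type*} [NormedAddCommGroup E] [InnerProductSpace ℝ E] [FiniteDimensional ℝ E]
  {S : Set E} {Ω : Set (ℝ × ℝ)} {ψ : ℝ × ℝ → E}

theorem Par.hasFDerivAt_D2 (h : Par S Ω ψ) {x : ℝ × ℝ} (hx : x ∈ Ω) (v w : ℝ × ℝ) :
    HasFDerivAt (fun x => fderiv ℝ (fderiv ℝ ψ) x v w)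
      (((fderiv ℝ (fderiv ℝ (fderiv ℝ ψ)) x).flip v).flip w) x := by
  have h0 : HasFDerivAt (fderiv ℝ (fderiv ℝ ψ)) (fderiv ℝ (fderiv ℝ (fderiv ℝ ψ)) x) x :=
    hasFDerivAt_of_open h.isOpen h.smooth2 hx
  have h2 := (h0.clm_apply (hasFDerivAt_const v x)).clm_apply (hasFDerivAt_const w x)
  refine h2.congr_fderiv ?_
  ext z <;> simp

theorem Par.hasFDerivAt_D1 (h : Par S Ω ψ) {x : ℝ × ℝ} (hx : x ∈ Ω) (v : ℝ × ℝ) :
    HasFDerivAt (fun x => fderiv ℝ ψ x v) ((fderiv ℝ (fderiv ℝ ψ) x).flip v) x := by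
  have h0 : HasFDerivAt (fderiv ℝ ψ) (fderiv ℝ (fderiv ℝ ψ) x) x :=
    hasFDerivAt_of_open h.isOpen h.smooth1 hx
  have h2 := h0.clm_apply (hasFDerivAt_const v x)
  refine h2.congr_fderiv ?_
  ext z <;> simp

theorem Par.hasFDerivAt_Chr (h : Par S Ω ψ) {x : ℝ × ℝ} (hx : x ∈ Ω) (v w : ℝ × ℝ) :
    HasFDerivAt (fun x => Chr ψ x v w) (((fderiv ℝ (Chr ψ) x).flip v).flip w) x := by
  have h0 : HasFDerivAt (Chr ψ) (fderiv ℝ (Chr ψ) x) x :=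
    hasFDerivAt_of_open h.isOpen h.smooth_Chr hx
  have h2 := (h0.clm_apply (hasFDerivAt_const v x)).clm_apply (hasFDerivAt_const w x)
  refine h2.congr_fderiv ?_
  ext z <;> simp

theorem Par.hasFDerivAt_nB (h : Par S Ω ψ) {x : ℝ × ℝ} (hx : x ∈ Ω) (v w : ℝ × ℝ) :
    HasFDerivAt (fun x => nB ψ x v w) (fderiv ℝ (fun x => nB ψ x v w) x) x :=
  hasFDerivAt_of_open h.isOpen (h.smooth_nB v w) hx

/-- The third derivative. -/
theorem Par.third (h : Par S Ω ψ) {x : ℝ × ℝ} (hx : x ∈ Ω) (u v w : ℝ × ℝ) :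
    fderiv ℝ (fderiv ℝ (fderiv ℝ ψ)) x u v w
      = fderiv ℝ (fderiv ℝ ψ) x u (Chr ψ x v w) + fderiv ℝ ψ x (fderiv ℝ (Chr ψ) x u v w)
        + fderiv ℝ (fun x => nB ψ x v w) x u := by
  have h1 := h.hasFDerivAt_D2 hx v w
  have h0 : HasFDerivAt (fderiv ℝ ψ) (fderiv ℝ (fderiv ℝ ψ) x) x :=
    hasFDerivAt_of_open h.isOpen h.smooth1 hx
  have h2 := (h0.clm_apply (h.hasFDerivAt_Chr hx v w)).add (h.hasFDerivAt_nB hx v w)
  have h3 : (fun x => fderiv ℝ (fderiv ℝ ψ) x v w)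
      = fun x => fderiv ℝ ψ x (Chr ψ x v w) + nB ψ x v w := funext fun y => D2_eq ψ y v w
  rw [h3] at h1
  have h4 := congrArg (fun L : ℝ × ℝ →L[ℝ] E => L u) (h1.unique h2)
  have h5 : fderiv ℝ (fderiv ℝ (fderiv ℝ ψ)) x u v w
      = (fderiv ℝ ψ x (fderiv ℝ (Chr ψ) x u v w) + fderiv ℝ (fderiv ℝ ψ) x u (Chr ψ x v w))
        + fderiv ℝ (fun x => nB ψ x v w) x u := by
    simpa using h4
  rw [h5]; abel

/-- Weingarten equation. -/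
theorem Par.weingarten (h : Par S Ω ψ) {x : ℝ × ℝ} (hx : x ∈ Ω) (u v w z : ℝ × ℝ) :
    ⟪fderiv ℝ (fun x => nB ψ x v w) x u, fderiv ℝ ψ x z⟫_ℝ = -⟪nB ψ x v w, nB ψ x u z⟫_ℝ := by
  have h1 := (h.hasFDerivAt_nB hx v w).inner ℝ (h.hasFDerivAt_D1 hx z)
  have h2 : (fun x => ⟪nB ψ x v w, fderiv ℝ ψ x z⟫_ℝ) =ᶠ[𝓝 x] fun _ => 0 := by
    filter_upwards [h.isOpen.mem_nhds hx] with y hy
    exact h.inner_nB hy v w z
  have h3 := h1.unique ((hasFDerivAt_const (0 : ℝ) x).congr_of_eventuallyEq h2)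
  have h4 := congrArg (fun L : ℝ × ℝ →L[ℝ] ℝ => L u) h3
  have h5 : ⟪nB ψ x v w, fderiv ℝ (fderiv ℝ ψ) x u z⟫_ℝ
      + ⟪fderiv ℝ (fun x => nB ψ x v w) x u, fderiv ℝ ψ x z⟫_ℝ = 0 := by
    simpa [fderivInnerCLM_apply] using h4
  have h6 : ⟪nB ψ x v w, fderiv ℝ (fderiv ℝ ψ) x u z⟫_ℝ = ⟪nB ψ x v w, nB ψ x u z⟫_ℝ := by
    rw [D2_eq, inner_add_right, h.inner_nB hx, zero_add]
  rw [h6] at h5
  linarith

/-- The curvature tensor of the Christoffel symbols. -/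
noncomputable def Rm (ψ : ℝ × ℝ → E) (x u v w : ℝ × ℝ) : ℝ × ℝ :=
  fderiv ℝ (Chr ψ) x u v w - fderiv ℝ (Chr ψ) x v u w + Chr ψ x u (Chr ψ x v w)
    - Chr ψ x v (Chr ψ x u w)

theorem Par.inner_Rm (h : Par S Ω ψ) {x : ℝ × ℝ} (hx : x ∈ Ω) (u v w z : ℝ × ℝ) :
    gB ψ x (Rm ψ x u v w) z
      = ⟪nB ψ x v w, nB ψ x u z⟫_ℝ - ⟪nB ψ x u w, nB ψ x v z⟫_ℝ := by
  have h1 := h.third hx u v w
  have h2 := h.third hx v u w
  have h3 : fderiv ℝ (fderiv ℝ (fderiv ℝ ψ)) x u v = fderiv ℝ (fderiv ℝ (fderiv ℝ ψ)) x v u :=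
    symm_of_open h.isOpen h.smooth1 hx u v
  rw [h3] at h1
  rw [D2_eq] at h1 h2
  have h4 : fderiv ℝ ψ x (Rm ψ x u v w)
      = fderiv ℝ (fun x => nB ψ x u w) x v - fderiv ℝ (fun x => nB ψ x v w) x u
        + nB ψ x v (Chr ψ x u w) - nB ψ x u (Chr ψ x v w) := by
    have h5 := h1.symm.trans h2
    simp only [Rm, map_sub, map_add]
    have h6 := sub_eq_zero.2 h5
    rw [← sub_eq_zero, ← h6]
    abel
  rw [gB_apply, h4, inner_sub_left, inner_add_left, inner_sub_left, h.weingarten hx, h.weingarten hx,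
    h.inner_nB hx, h.inner_nB hx]
  ring

theorem Par.gauss (h : Par S Ω ψ) {x : ℝ × ℝ} (hx : x ∈ Ω) (u v w : ℝ × ℝ) :
    Rm ψ x u v w = GK ψ x • (gB ψ x v w • u - gB ψ x u w • v) := by
  refine h.eq_of_gB hx fun z => ?_
  rw [h.inner_Rm hx]
  have hD := (h.gD_pos hx).ne'
  set a := fderiv ℝ ψ x (1, 0) with ha
  set b := fderiv ℝ ψ x (0, 1) with hb
  have hg : ∀ u v : ℝ × ℝ, gB ψ x u v = u.1 * v.1 * gB ψ x (1, 0) (1, 0)
      + (u.1 * v.2 + u.2 * v.1) * gB ψ x (1, 0) (0, 1) + u.2 * v.2 * gB ψ x (0, 1) (0, 1) := by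
    intro u v
    simp only [gB_apply]
    rw [fderiv_pair ψ x u, fderiv_pair ψ x v]
    simp only [inner_add_left, inner_add_right, inner_smul_left, inner_smul_right,
      RCLike.conj_to_real, real_inner_comm (fderiv ℝ ψ x (1, 0)) (fderiv ℝ ψ x (0, 1))]
    ring
  have hK : ⟪nB ψ x (1, 0) (1, 0), nB ψ x (0, 1) (0, 1)⟫_ℝ
      - ⟪nB ψ x (1, 0) (0, 1), nB ψ x (1, 0) (0, 1)⟫_ℝ
      = GK ψ x * (gB ψ x (1, 0) (1, 0) * gB ψ x (0, 1) (0, 1) - gB ψ x (1, 0) (0, 1) ^ 2) := by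
    rw [GK]
    have : gB ψ x (1, 0) (1, 0) * gB ψ x (0, 1) (0, 1) - gB ψ x (1, 0) (0, 1) ^ 2 = gD ψ x := rfl
    rw [this, div_mul_cancel₀ _ hD]
  have hR : gB ψ x (GK ψ x • (gB ψ x v w • u - gB ψ x u w • v)) z
      = GK ψ x * (gB ψ x v w * gB ψ x u z - gB ψ x u w * gB ψ x v z) := by
    simp [map_sub, map_smul]
  rw [hR, h.nB_pair hx v w, h.nB_pair hx u z, h.nB_pair hx u w, h.nB_pair hx v z, hg v w, hg u z,
    hg u w, hg v z]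
  set n11 := nB ψ x (1, 0) (1, 0) with h11
  set n12 := nB ψ x (1, 0) (0, 1) with h12
  set n22 := nB ψ x (0, 1) (0, 1) with h22
  simp only [inner_add_left, inner_add_right, inner_smul_left, inner_smul_right,
    RCLike.conj_to_real, real_inner_comm n11 n12, real_inner_comm n11 n22, real_inner_comm n12 n22]
  have hK' : ⟪n11, n22⟫_ℝ - ⟪n12, n12⟫_ℝ
      = GK ψ x * (gB ψ x (1, 0) (1, 0) * gB ψ x (0, 1) (0, 1) - gB ψ x (1, 0) (0, 1) ^ 2) := hK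
  have hK2 : ⟪n11, n22⟫_ℝ = ⟪n12, n12⟫_ℝ
      + GK ψ x * (gB ψ x (1, 0) (1, 0) * gB ψ x (0, 1) (0, 1) - gB ψ x (1, 0) (0, 1) ^ 2) := by
    linarith
  rw [hK2]
  ring

end Pool.Agent.H91.GE
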