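import Mathlib

/-!
# Inverse and implicit functions on open sets, smooth version
-/

set_option autoImplicit false

open scoped Topology ContDiff
open Set Filter

namespace Pool.Agent.H91.GE

variable {A B C : Type*} [NormedAddCommGroup A] [NormedSpace ℝ A] [FiniteDimensional ℝ A]
  [NormedAddCommGroup B] [NormedSpace ℝ B] [FiniteDimensional ℝ B]
  [NormedAddCommGroup C] [NormedSpace ℝ C] [FiniteDimensional ℝ C]

omit [FiniteDimensional ℝ A] [FiniteDimensional ℝ B] in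
theorem contDiffAt_of_open {D : Set A} (hD : IsOpen D) {f : A → B} (hf : ContDiffOn ℝ ∞ f D)
    {a : A} (ha : a ∈ D) : ContDiffAt ℝ ∞ f a :=
  (hf a ha).contDiffAt (hD.mem_nhds ha)

omit [FiniteDimensional ℝ A] [FiniteDimensional ℝ B] in
theorem hasFDerivAt_of_open {D : Set A} (hD : IsOpen D) {f : A → B} (hf : ContDiffOn ℝ ∞ f D)
    {a : A} (ha : a ∈ D) : HasFDerivAt f (fderiv ℝ f a) a :=
  ((contDiffAt_of_open hD hf ha).differentiableAt (by simp)).hasFDerivAt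

/-- Inverse function theorem. -/
theorem exists_inv {D : Set A} (hD : IsOpen D) {f : A → B} (hf : ContDiffOn ℝ ∞ f D) {a₀ : A}
    (h₀ : a₀ ∈ D) (hb : Function.Bijective (fderiv ℝ f a₀)) :
    ∃ H : OpenPartialHomeomorph A B, (∀ a, H a = f a) ∧ a₀ ∈ H.source ∧ H.source ⊆ D ∧
      ContDiffOn ℝ ∞ H.symm H.target ∧ ∀ a ∈ H.source, Function.Bijective (fderiv ℝ f a) := by
  let e₀ : A ≃L[ℝ] B := (LinearEquiv.ofBijective (fderiv ℝ f a₀).toLinearMap hb).toContinuousLinearEquiv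
  have he₀ : (e₀ : A →L[ℝ] B) = fderiv ℝ f a₀ := by ext v; rfl
  have hf₀ : HasFDerivAt f (e₀ : A →L[ℝ] B) a₀ := by
    rw [he₀]; exact hasFDerivAt_of_open hD hf h₀
  have hc₀ := contDiffAt_of_open hD hf h₀
  set H₀ := hc₀.toOpenPartialHomeomorph f hf₀ (by simp) with hH₀
  have hcoe : (H₀ : A → B) = f := hc₀.toOpenPartialHomeomorph_coe hf₀ (by simp)
  have hsrc : a₀ ∈ H₀.source := hc₀.mem_toOpenPartialHomeomorph_source hf₀ (by simp)
  set V : Set A := D ∩ (fderiv ℝ f) ⁻¹' (range ((↑) : (A ≃L[ℝ] B) → A →L[ℝ] B)) with hV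
  have hVo : IsOpen V :=
    (hf.continuousOn_fderiv_of_isOpen hD (by simp)).isOpen_inter_preimage hD
      ContinuousLinearEquiv.isOpen
  have ha₀V : a₀ ∈ V := ⟨h₀, e₀, he₀⟩
  set H := H₀.restrOpen V hVo with hH
  have hHs : H.source = H₀.source ∩ V := rfl
  have hHc : ∀ a, H a = f a := fun a => congrFun hcoe a
  refine ⟨H, hHc, ⟨hsrc, ha₀V⟩, fun a ha => ha.2.1, ?_, ?_⟩
  · intro b hb
    have h1 : H.symm b ∈ H.source := H.map_target hb
    obtain ⟨h2, h3, T, hT⟩ := h1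
    have h4 : HasFDerivAt H (T : A →L[ℝ] B) (H.symm b) := by
      have h5 : (H : A → B) = f := funext hHc
      rw [h5, hT]; exact hasFDerivAt_of_open hD hf h3
    have h6 : ContDiffAt ℝ ∞ H (H.symm b) := by
      have h5 : (H : A → B) = f := funext hHc
      rw [h5]; exact contDiffAt_of_open hD hf h3
    exact (H.contDiffAt_symm hb h4 h6).contDiffWithinAt
  · intro a ha
    obtain ⟨T, hT⟩ := ha.2.2
    rw [← hT]; exact T.bijective

/-- Implicit function theorem. -/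
theorem exists_implicit {D : Set (A × B)} (hD : IsOpen D) {F : A × B → C}
    (hF : ContDiffOn ℝ ∞ F D) {a₀ : A} {b₀ : B} (h₀ : (a₀, b₀) ∈ D)
    (hb : Function.Bijective fun b : B => fderiv ℝ F (a₀, b₀) (0, b)) :
    ∃ (O : Set A) (V : Set B) (β : A → B), IsOpen O ∧ a₀ ∈ O ∧ IsOpen V ∧ b₀ ∈ V ∧
      O ×ˢ V ⊆ D ∧ ContDiffOn ℝ ∞ β O ∧ β a₀ = b₀ ∧ ∀ a ∈ O, β a ∈ V ∧ F (a, β a) = F (a₀, b₀) ∧
        ∀ b ∈ V, F (a, b) = F (a₀, b₀) → b = β a := by
  let G : A × B → A × C := fun x => (x.1, F x)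
  have hG : ContDiffOn ℝ ∞ G D := contDiff_fst.contDiffOn.prodMk hF
  have hGd : fderiv ℝ G (a₀, b₀) = (ContinuousLinearMap.fst ℝ A B).prod (fderiv ℝ F (a₀, b₀)) :=
    (hasFDerivAt_fst.prodMk (hasFDerivAt_of_open hD hF h₀)).fderiv
  have hGb : Function.Bijective (fderiv ℝ G (a₀, b₀)) := by
    rw [hGd]
    constructor
    · rintro ⟨a, b⟩ ⟨a', b'⟩ h
      have h1 : a = a' := congrArg Prod.fst h
      have h2 : fderiv ℝ F (a₀, b₀) (a, b) = fderiv ℝ F (a₀, b₀) (a', b') := congrArg Prod.snd h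
      subst h1
      refine Prod.ext rfl (hb.1 ?_)
      have h3 : ∀ c : B, ((a, c) : A × B) = (a, 0) + (0, c) := fun c => by simp
      rw [h3 b, h3 b', map_add, map_add, add_right_inj] at h2
      exact h2
    · rintro ⟨a, c⟩
      obtain ⟨b, hb'⟩ := hb.2 (c - fderiv ℝ F (a₀, b₀) (a, 0))
      refine ⟨(a, b), Prod.ext rfl ?_⟩
      show fderiv ℝ F (a₀, b₀) (a, b) = c
      have h3 : ((a, b) : A × B) = (a, 0) + (0, b) := by simp
      rw [h3, map_add]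
      have h4 : fderiv ℝ F (a₀, b₀) (0, b) = c - fderiv ℝ F (a₀, b₀) (a, 0) := hb'
      rw [h4]; abel
  obtain ⟨H, hHc, hHs, hHD, hHsm, -⟩ := exists_inv hD hG h₀ hGb
  obtain ⟨O₁, V, hO₁, hV, ha₁, hb₁, hOV⟩ :=
    isOpen_prod_iff.1 H.open_source a₀ b₀ hHs
  set c₀ := F (a₀, b₀) with hc₀
  let ι : A → A × C := fun a => (a, c₀)
  have hι : ContDiff ℝ ∞ ι := contDiff_id.prodMk contDiff_const
  set O : Set A := ι ⁻¹' (H.target ∩ H.symm ⁻¹' (O₁ ×ˢ V)) with hO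
  have hOo : IsOpen O :=
    (H.symm.continuousOn.isOpen_inter_preimage H.open_target (hO₁.prod hV)).preimage hι.continuous
  have hsym0 : H.symm (a₀, c₀) = (a₀, b₀) := by
    have h1 := H.left_inv hHs
    rw [hHc] at h1
    exact h1
  have ha₀O : a₀ ∈ O := by
    refine ⟨?_, ?_⟩
    · have h1 := H.map_source hHs
      rw [hHc] at h1
      exact h1
    · show H.symm (a₀, c₀) ∈ O₁ ×ˢ V
      rw [hsym0]; exact ⟨ha₁, hb₁⟩
  refine ⟨O ∩ O₁, V, fun a => (H.symm (ι a)).2, hOo.inter hO₁, ⟨ha₀O, ha₁⟩, hV, hb₁, ?_, ?_, ?_, ?_⟩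
  · rintro ⟨a, b⟩ ⟨ha, hb⟩
    exact hHD (hOV ⟨ha.2, hb⟩)
  · have h1 : ContDiffOn ℝ ∞ (fun a => H.symm (ι a)) (O ∩ O₁) :=
      hHsm.comp hι.contDiffOn fun a ha => ha.1.1
    exact contDiff_snd.comp_contDiffOn h1
  · show (H.symm (a₀, c₀)).2 = b₀
    rw [hsym0]
  · rintro a ⟨⟨ha1, ha2⟩, ha3⟩
    have h1 := H.right_inv ha1
    rw [hHc] at h1
    have h2 : (H.symm (ι a)).1 = a := congrArg Prod.fst h1
    have h3 : F (H.symm (ι a)) = c₀ := congrArg Prod.snd h1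
    have h4 : H.symm (ι a) = (a, (H.symm (ι a)).2) := Prod.ext h2 rfl
    refine ⟨ha2.2, ?_, fun b hb h5 => ?_⟩
    · show F (a, (H.symm (ι a)).2) = c₀
      rw [← h4]; exact h3
    · have h6 : (a, b) ∈ H.source := hOV ⟨ha3, hb⟩
      have h7 := H.left_inv h6
      rw [hHc] at h7
      have h8 : G (a, b) = ι a := Prod.ext rfl h5
      rw [h8] at h7
      show b = (H.symm (ι a)).2
      rw [h7]

end Pool.Agent.H91.GE
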