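import Pool.Agent.H91.GS.Thread
import Pool.Agent.H91.GS.Gauss
import Pool.Agent.H77.PF.Final

/-!
# The curvature is locally constant near residual pairs
-/

set_option autoImplicit false

open scoped InnerProductSpace Topology ContDiff
open Set Filter

namespace Pool.Agent.H91.GE

open Pool.Agent.H77.PF (Through om0 om0_apply om0_zero rank_y rank_x cond_AB K_const)

variable {E F : Type*} [NormedAddCommGroup E] [InnerProductSpace ℝ E] [FiniteDimensional ℝ E]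
  [NormedAddCommGroup F] [InnerProductSpace ℝ F] [FiniteDimensional ℝ F]
  {S : Set E} {A : E × E → E} {K K₂ : NNReal} {Φ : ℝ → E × E → E × E}
  {Ω Ω₁ Ω₂ Ω₃ : Set (ℝ × ℝ)} {ψ ψ₁ ψ₂ ψ₃ : ℝ × ℝ → E} {P P₁ P₂ P₃ : E →L[ℝ] ℝ × ℝ}
  {W W₁ W₂ W₃ : Set E}

omit [FiniteDimensional ℝ E] in
theorem om0_ne (hc : Chart S Ω ψ P W) {q u v : E} (hq : q ∈ W) (hu : (q, u) ∈ TSet S)
    (hv : (q, v) ∈ TSet S) (hi : Indep u v) : om0 (P u) (P v) ≠ 0 := by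
  intro h0
  have hv0 : P v ≠ 0 := by
    intro h1
    have h2 := (hc.of_TSet hq hv).2.2
    rw [h1, map_zero] at h2
    have := hi 0 1 (by rw [← h2]; simp)
    exact one_ne_zero this.2
  obtain ⟨c, hcc⟩ := om0_zero h0 hv0
  have h2 := (hc.of_TSet hq hu).2.2
  have h3 := (hc.of_TSet hq hv).2.2
  rw [hcc, map_smul, h3] at h2
  have := hi 1 c (by rw [one_smul, h2])
  exact one_ne_zero this.1

/-- A whole open set of points cannot be reached through one point in bounded time. -/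
theorem const_contra (h : GFlow F S A K K₂ Φ) (hsec : Secure S) (hc : Chart S Ω ψ P W) {X Z : E}
    (hX : X ∈ S) (hZ : Z ∈ S) {B : Set (ℝ × ℝ)} (hBo : IsOpen B) (hBne : B.Nonempty)
    (hBΩ : B ⊆ Ω) {T : ℝ} (hB : ∀ q ∈ B, ∃ γ : ℝ → E, IsGeo S γ ∧ γ 0 = X ∧ deriv γ 0 ≠ 0 ∧
      ‖deriv γ 0‖ ≤ T ∧ γ 1 = ψ q ∧ ∃ t, 0 < t ∧ t ≤ 1 ∧ γ t = Z) : False := by
  set V := {v : E | (X, v) ∈ TSet S ∧ ‖v‖ = 1 ∧ ∃ t, 0 < |t| ∧ |t| ≤ T ∧ (Φ t (X, v)).1 = Z} with hV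
  have hfin : V.Finite := fin_dir h hsec hX hZ _
  have hm : IsMeagre (⋃ v ∈ V, range fun t => P (Φ t (X, v)).1) := by
    haveI := hfin.countable.to_subtype
    rw [biUnion_eq_iUnion]
    refine isMeagre_iUnion fun v => meagre_curve ?_
    refine P.contDiff.comp ?_
    have h1 : ContDiff ℝ ∞ fun t => Φ t (X, (v : E)) :=
      h.contDiff.comp (contDiff_id.prodMk contDiff_const)
    exact (h1.of_le (by exact_mod_cast le_top)).fst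
  refine not_isMeagre_of_isOpen hBo hBne (hm.mono ?_)
  intro q hq
  obtain ⟨γ, hγ, h0, hd, hT, h1, t, ht0, ht1, htZ⟩ := hB q hq
  set s : ℝ := ‖deriv γ 0‖ with hs
  have hs0 : 0 < s := norm_pos_iff.2 hd
  have hvT : (X, s⁻¹ • deriv γ 0) ∈ TSet S := by
    have h1 := hγ.mem_TSet 0
    rw [h0] at h1
    exact scale_TSet h1 h.sub _
  have hfl : ∀ t, (Φ (s * t) (X, s⁻¹ • deriv γ 0)).1 = γ t := by
    intro t
    have := (h.of_geo_scaled hγ hs0 (by rw [← hs]; linarith) t).1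
    rw [h0] at this
    exact this.symm
  rw [mem_iUnion₂]
  refine ⟨s⁻¹ • deriv γ 0, ⟨hvT, ?_, s * t, ?_, ?_, ?_⟩, s, ?_⟩
  · rw [norm_smul, norm_inv, Real.norm_of_nonneg hs0.le, ← hs, inv_mul_cancel₀ hs0.ne']
  · rw [abs_of_pos (by positivity)]; positivity
  · rw [abs_of_pos (by positivity)]; nlinarith
  · rw [hfl, htZ]
  · show P (Φ s (X, s⁻¹ • deriv γ 0)).1 = q
    have := hfl 1
    rw [mul_one] at this
    rw [this, h1, hc.left _ (hBΩ hq)]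

theorem slice_const {N : Set Pt} (hN : IsOpen N) {f : Pt → ℝ × ℝ} (hf : ContDiffOn ℝ ∞ f N)
    {a : ℝ × ℝ → Pt} {L : ℝ × ℝ →L[ℝ] Pt} (ha : ∀ q, HasFDerivAt a L q)
    (h0 : ∀ y ∈ N, ∀ v, fderiv ℝ f y (L v) = 0) {q : ℝ × ℝ} (hq : a q ∈ N) :
    ∀ᶠ q' in 𝓝 q, a q' ∈ N ∧ f (a q') = f (a q) := by
  have hac : Continuous a := continuous_iff_continuousAt.2 fun q => (ha q).continuousAt
  obtain ⟨r, hr, hball⟩ := Metric.isOpen_iff.1 (hN.preimage hac) q hq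
  filter_upwards [Metric.ball_mem_nhds q hr] with q' hq'
  refine ⟨hball hq', ?_⟩
  have h1 : ∀ y ∈ Metric.ball q r, HasFDerivWithinAt (fun y => f (a y)) (0 : ℝ × ℝ →L[ℝ] ℝ × ℝ)
      (Metric.ball q r) y := by
    intro y hy
    have h2 : HasFDerivAt f (fderiv ℝ f (a y)) (a y) := hasFDerivAt_of_open hN hf (hball hy)
    have h3 : HasFDerivAt (fun y => f (a y)) ((fderiv ℝ f (a y)) ∘L L) y := h2.comp y (ha y)
    have h4 : (fderiv ℝ f (a y)) ∘L L = 0 :=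
      ContinuousLinearMap.ext fun v => h0 _ (hball hy) v
    rw [h4] at h3
    exact h3.hasFDerivWithinAt
  have h2 := (convex_ball q r).norm_image_sub_le_of_norm_hasFDerivWithin_le (C := 0) h1
    (fun y _ => by simp) (Metric.mem_ball_self hr) hq'
  rw [zero_mul] at h2
  exact sub_eq_zero.1 (norm_le_zero_iff.1 h2)

theorem Leaf.smooth_ζ (h : GFlow F S A K K₂ Φ) (hp₁ : Par S Ω₁ ψ₁) {ζ : Pt → E}
    {O : Set Pt} {V : Set (ℝ × ℝ)} {κ : Pt → ℝ × ℝ} {θ : Pt → ℝ}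
    (hl : Leaf Φ Ω₁ Ω₂ ψ₁ ψ₂ ζ O V κ θ) : ContDiffOn ℝ ∞ ζ O := by
  have h1 := (smooth_cF h hp₁ hl.isOpen hl.smooth (fun x hx => (hl.mem x hx).1)).1
  have h2 : ContDiffOn ℝ ∞ (fun x : Pt => cF Φ ψ₁ κ x (θ x)) O :=
    h1.comp (contDiffOn_id.prodMk hl.smooth_θ) fun x hx => ⟨hx, mem_univ _⟩
  exact h2.congr fun x hx => (hl.cross x hx).symm

theorem Leaf.cont (h : GFlow F S A K K₂ Φ) (hp₁ : Par S Ω₁ ψ₁) {ζ : Pt → E}
    {O : Set Pt} {V : Set (ℝ × ℝ)} {κ : Pt → ℝ × ℝ} {θ : Pt → ℝ}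
    (hl : Leaf Φ Ω₁ Ω₂ ψ₁ ψ₂ ζ O V κ θ) {y : Pt} (hy : y ∈ O) : ContinuousAt κ y ∧
      ContinuousAt θ y ∧ ContinuousAt ζ y ∧ ContinuousAt (fun y => deriv (cF Φ ψ₁ κ y) 1) y ∧
      ContinuousAt (fun y => deriv (cF Φ ψ₁ κ y) (θ y)) y ∧
      ContinuousAt (fun y => fderiv ℝ ψ₁ y.1 (κ y)) y := by
  have h1 := (smooth_cF h hp₁ hl.isOpen hl.smooth (fun x hx => (hl.mem x hx).1)).2
  have hκ : ContinuousAt κ y := (contDiffAt_of_open hl.isOpen hl.smooth hy).continuousAt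
  have hψ : ContinuousAt (fderiv ℝ ψ₁) y.1 :=
    (contDiffAt_of_open hp₁.isOpen hp₁.smooth1 (hl.mem y hy).1).continuousAt
  refine ⟨hκ, (contDiffAt_of_open hl.isOpen hl.smooth_θ hy).continuousAt,
    (contDiffAt_of_open hl.isOpen (hl.smooth_ζ h hp₁) hy).continuousAt, ?_, ?_, ?_⟩
  · have h2 : ContDiffOn ℝ ∞ (fun x : Pt => deriv (cF Φ ψ₁ κ x) 1) O :=
      h1.comp (contDiffOn_id.prodMk contDiffOn_const) fun x hx => ⟨hx, mem_univ _⟩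
    exact (contDiffAt_of_open hl.isOpen h2 hy).continuousAt
  · have h2 : ContDiffOn ℝ ∞ (fun x : Pt => deriv (cF Φ ψ₁ κ x) (θ x)) O :=
      h1.comp (contDiffOn_id.prodMk hl.smooth_θ) fun x hx => ⟨hx, mem_univ _⟩
    exact (contDiffAt_of_open hl.isOpen h2 hy).continuousAt
  · exact (ContinuousAt.comp (g := fderiv ℝ ψ₁) hψ continuousAt_fst).clm_apply hκ

theorem ContinuousAt.om0_ne {B : Type*} [TopologicalSpace B] {f g : B → ℝ × ℝ} {b : B}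
    (hf : ContinuousAt f b) (hg : ContinuousAt g b) (h : om0 (f b) (g b) ≠ 0) :
    ∀ᶠ y in 𝓝 b, om0 (f y) (g y) ≠ 0 := by
  have h1 : ContinuousAt (fun y => om0 (f y) (g y)) b :=
    (om0.continuous.continuousAt.comp hf).clm_apply hg
  exact h1.eventually_ne h

theorem local_K (hdim : Module.finrank ℝ E = Module.finrank ℝ F + 2) (h : GFlow F S A K K₂ Φ)
    (hsec : Secure S) (hc₁ : Chart S Ω₁ ψ₁ P₁ W₁) (hc₂ : Chart S Ω₂ ψ₂ P₂ W₂)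
    {x : Pt} {z : E} {w : ℕ → ℝ × ℝ} {s : ℕ → ℝ} (hW : Web Φ Ω₁ Ω₂ ψ₁ ψ₂ x z w s)
    (hzS : z ∈ S) {N : Set Pt} (hN : N ∈ 𝓝 x) :
    ∃ y ∈ N, y.2 ∈ Ω₂ ∧ fderiv ℝ (GK ψ₂) y.2 = 0 := by
  obtain ⟨ζ, hζ⟩ := exists_leaves hdim h hc₁.toPar hc₂ hW
  choose O V κ θ hl hxO hκ hθ using hζ
  have hζx : ζ x = z := by
    rw [← (hl 0).cross x (hxO 0)]
    show G1 Φ ψ₁ (x.1, κ 0 x) (θ 0 x) = z
    rw [hκ, hθ]; exact hW.pass 0
  obtain ⟨U, hU, f, hf⟩ := h.sub z hzS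
  obtain ⟨Ω₃, ψ₃, P₃, W₃, hc₃, hzW⟩ := exists_chart hdim hf hU hzS
  have hx1 := (hW.cfg 0).1
  have hx2 := (hW.cfg 0).2.1
  -- the good neighbourhood
  have hgood : ∀ᶠ y in 𝓝 x, y ∈ N ∧ ζ y ∈ W₃ ∧ (∀ i ∈ Finset.range 4, y ∈ O i ∧ κ i y ≠ 0 ∧
      0 < θ i y ∧ θ i y < 1) ∧ ∀ i ∈ Finset.range 4, ∀ j ∈ Finset.range 4, i ≠ j →
      om0 (κ i y) (κ j y) ≠ 0 ∧
      om0 (P₂ (deriv (cF Φ ψ₁ (κ i) y) 1)) (P₂ (deriv (cF Φ ψ₁ (κ j) y) 1)) ≠ 0 ∧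
      om0 (P₃ (deriv (cF Φ ψ₁ (κ i) y) (θ i y))) (P₃ (deriv (cF Φ ψ₁ (κ j) y) (θ j y))) ≠ 0 := by
    have hc := fun n => (hl n).cont h hc₁.toPar (hxO n)
    have hN' : ∀ᶠ y in 𝓝 x, y ∈ N := hN
    have hζW : ∀ᶠ y in 𝓝 x, ζ y ∈ W₃ :=
      (hc 0).2.2.1.preimage_mem_nhds (hc₃.W_open.mem_nhds (by rw [hζx]; exact hzW))
    refine hN'.and (hζW.and (Eventually.and ?_ ?_))
    · rw [Filter.eventually_all_finset]
      intro i _
      have hOi : ∀ᶠ y in 𝓝 x, y ∈ O i := (hl i).isOpen.mem_nhds (hxO i)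
      refine hOi.and (((hc i).1.eventually_ne ?_).and
        (((hc i).2.1.eventually_const_lt ?_).and ((hc i).2.1.eventually_lt_const ?_)))
      · rw [hκ]; exact hW.ne i
      · rw [hθ]; exact (hW.time i).1
      · rw [hθ]; exact (hW.time i).2
    · rw [Filter.eventually_all_finset]
      intro i _
      rw [Filter.eventually_all_finset]
      intro j _
      by_cases hij : i = j
      · exact Eventually.of_forall fun y hne => absurd hij hne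
      have hv : ∀ n t, cF Φ ψ₁ (κ n) x t = G1 Φ ψ₁ (x.1, w n) t := by
        intro n t
        show G1 Φ ψ₁ (x.1, κ n x) t = _
        rw [hκ]
      have hv' : ∀ n, cF Φ ψ₁ (κ n) x = G1 Φ ψ₁ (x.1, w n) := fun n => funext (hv n)
      have e1 : ∀ᶠ y in 𝓝 x, om0 (κ i y) (κ j y) ≠ 0 := by
        refine ContinuousAt.om0_ne (hc i).1 (hc j).1 ?_
        rw [hκ, hκ]
        obtain ⟨-, -, g3⟩ := h.isGeo_G1 hc₁.toPar hx1 (w i)
        obtain ⟨-, -, k3⟩ := h.isGeo_G1 hc₁.toPar hx1 (w j)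
        have h1 := hW.ind i j hij 0 0 (by
          rw [(h.isGeo_G1 hc₁.toPar hx1 (w i)).2.1, (h.isGeo_G1 hc₁.toPar hx1 (w j)).2.1])
        rw [g3, k3] at h1
        have h2 := GE.om0_ne hc₁ (hc₁.maps _ hx1) (hc₁.mem_TSet h.sub hx1 (w i))
          (hc₁.mem_TSet h.sub hx1 (w j)) h1
        rwa [hc₁.P_fderiv hx1, hc₁.P_fderiv hx1] at h2
      have e2 : ∀ᶠ y in 𝓝 x, om0 (P₂ (deriv (cF Φ ψ₁ (κ i) y) 1))
          (P₂ (deriv (cF Φ ψ₁ (κ j) y) 1)) ≠ 0 := by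
        refine ContinuousAt.om0_ne (P₂.continuous.continuousAt.comp (hc i).2.2.2.1)
          (P₂.continuous.continuousAt.comp (hc j).2.2.2.1) ?_
        show om0 (P₂ (deriv (cF Φ ψ₁ (κ i) x) 1)) (P₂ (deriv (cF Φ ψ₁ (κ j) x) 1)) ≠ 0
        rw [hv', hv']
        have hi1 := (hW.cfg i).2.2.1
        have hj1 := (hW.cfg j).2.2.1
        have h1 := hW.ind i j hij 1 1 (by rw [hi1, hj1])
        have t1 := (h.isGeo_G1 hc₁.toPar hx1 (w i)).1.mem_TSet 1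
        have t2 := (h.isGeo_G1 hc₁.toPar hx1 (w j)).1.mem_TSet 1
        rw [hi1] at t1
        rw [hj1] at t2
        exact GE.om0_ne hc₂ (hc₂.maps _ hx2) t1 t2 h1
      have e3 : ∀ᶠ y in 𝓝 x, om0 (P₃ (deriv (cF Φ ψ₁ (κ i) y) (θ i y)))
          (P₃ (deriv (cF Φ ψ₁ (κ j) y) (θ j y))) ≠ 0 := by
        refine ContinuousAt.om0_ne (P₃.continuous.continuousAt.comp (hc i).2.2.2.2.1)
          (P₃.continuous.continuousAt.comp (hc j).2.2.2.2.1) ?_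
        show om0 (P₃ (deriv (cF Φ ψ₁ (κ i) x) (θ i x))) (P₃ (deriv (cF Φ ψ₁ (κ j) x) (θ j x))) ≠ 0
        rw [hv', hv', hθ, hθ]
        have h1 := hW.ind i j hij (s i) (s j) (by rw [hW.pass, hW.pass])
        have t1 := (h.isGeo_G1 hc₁.toPar hx1 (w i)).1.mem_TSet (s i)
        have t2 := (h.isGeo_G1 hc₁.toPar hx1 (w j)).1.mem_TSet (s j)
        rw [hW.pass] at t1 t2
        exact GE.om0_ne hc₃ hzW t1 t2 h1
      filter_upwards [e1, e2, e3] with y h1 h2 h3 _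
      exact ⟨h1, h2, h3⟩
  obtain ⟨O', hO'sub, hO'o, hxO'⟩ := mem_nhds_iff.1 hgood
  set Z : Pt → ℝ × ℝ := fun y => P₃ (ζ y) with hZ
  have hmO : ∀ y ∈ O', ∀ i < 4, y ∈ O i := fun y hy i hi =>
    ((hO'sub hy).2.2.1 i (Finset.mem_range.2 hi)).1
  have hζS : ∀ y ∈ O', ζ y ∈ S := by
    intro y hy
    rw [← (hl 0).cross y (hmO y hy 0 (by norm_num))]
    exact h.mem_G1 hc₁.toPar ((hl 0).mem y (hmO y hy 0 (by norm_num))).1 _ _
  have hζsm : ContDiffOn ℝ ∞ ζ O' :=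
    ((hl 0).smooth_ζ h hc₁.toPar).mono fun y hy => hmO y hy 0 (by norm_num)
  have hZsm : ContDiffOn ℝ ∞ Z O' := P₃.contDiff.comp_contDiffOn hζsm
  have hZm : ∀ y ∈ O', Z y ∈ Ω₃ ∧ ψ₃ (Z y) = ζ y := fun y hy =>
    hc₃.right _ (hζS y hy) (hO'sub hy).2.1
  have hthr : ∀ y ∈ O', ∀ i < 4, _ := fun y hy i hi =>
    (hl i).through h hc₁ hc₂ hc₃ (hmO y hy i hi) (hO'sub hy).2.1
      ((hO'sub hy).2.2.1 i (Finset.mem_range.2 hi)).2.1
  have hind : ∀ y ∈ O', ∀ i < 4, ∀ j < 4, i ≠ j → _ := fun y hy i hi j hj hij =>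
    (hO'sub hy).2.2.2 i (Finset.mem_range.2 hi) j (Finset.mem_range.2 hj) hij
  have hfin3 : ∀ i : Fin 3, (i : ℕ) < 4 := fun i => by omega
  have hfne : ∀ {m : ℕ} (i j : Fin m), i ≠ j → (i : ℕ) ≠ (j : ℕ) := fun i j hij he =>
    hij (Fin.ext he)
  have hry : ∀ y ∈ O', (∀ v, fderiv ℝ Z y (0, v) = 0) ∨
      Function.Injective fun v => fderiv ℝ Z y (0, v) := by
    intro y hy
    refine rank_y hO'o hZsm hy _ _ _ _ (fun k : Fin 3 => (hthr y hy k (hfin3 k)).1) ?_ ?_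
    · intro i j hij
      rw [(hthr y hy i (hfin3 i)).2.2.1, (hthr y hy j (hfin3 j)).2.2.1]
      exact (hind y hy i (hfin3 i) j (hfin3 j) (hfne i j hij)).2.1
    · intro i j hij
      rw [(hthr y hy i (hfin3 i)).2.2.2, (hthr y hy j (hfin3 j)).2.2.2]
      exact (hind y hy i (hfin3 i) j (hfin3 j) (hfne i j hij)).2.2
  have hrx : ∀ y ∈ O', (∀ v, fderiv ℝ Z y (v, 0) = 0) ∨
      Function.Injective fun v => fderiv ℝ Z y (v, 0) := by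
    intro y hy
    refine rank_x hO'o hZsm hy _ _ _ _ (fun k : Fin 3 => (hthr y hy k (hfin3 k)).1) ?_ ?_
    · intro i j hij
      rw [(hthr y hy i (hfin3 i)).2.1, (hthr y hy j (hfin3 j)).2.1]
      exact (hind y hy i (hfin3 i) j (hfin3 j) (hfne i j hij)).1
    · intro i j hij
      rw [(hthr y hy i (hfin3 i)).2.2.2, (hthr y hy j (hfin3 j)).2.2.2]
      exact (hind y hy i (hfin3 i) j (hfin3 j) (hfne i j hij)).2.2
  -- the derivatives do not vanish on open sets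
  have hQ : ∀ N' ⊆ O', IsOpen N' → N'.Nonempty →
      ∃ y ∈ N', Function.Injective fun v => fderiv ℝ Z y (0, v) := by
    intro N' hN'O hN'o hne
    by_contra hcon
    push Not at hcon
    have h0 : ∀ y ∈ N', ∀ v, fderiv ℝ Z y (0, v) = 0 := fun y hy =>
      (hry y (hN'O hy)).resolve_right (hcon y hy)
    obtain ⟨y₁, hy₁⟩ := hne
    have hO0 := hmO y₁ (hN'O hy₁) 0 (by norm_num)
    have hsl := slice_const (a := fun q => (y₁.1, q)) (L := ContinuousLinearMap.inr ℝ (ℝ × ℝ) (ℝ × ℝ))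
      hN'o (hZsm.mono hN'O) (fun q => hasFDerivAt_prodMk_right y₁.1 q) (fun y hy v => h0 y hy v)
      (q := y₁.2) hy₁
    have hbd : ∀ᶠ q in 𝓝 y₁.2, ‖fderiv ℝ ψ₁ y₁.1 (κ 0 (y₁.1, q))‖
        < ‖fderiv ℝ ψ₁ y₁.1 (κ 0 y₁)‖ + 1 := by
      have h1 := ((hl 0).cont h hc₁.toPar hO0).2.2.2.2.2.norm
      have h2 : ContinuousAt (fun q : ℝ × ℝ => (y₁.1, q)) y₁.2 := by fun_prop
      have h3 : ContinuousAt (fun q => ‖fderiv ℝ ψ₁ y₁.1 (κ 0 (y₁.1, q))‖) y₁.2 :=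
        ContinuousAt.comp (g := fun y : Pt => ‖fderiv ℝ ψ₁ y.1 (κ 0 y)‖)
          (f := fun q => (y₁.1, q)) h1 h2
      exact h3.eventually_lt_const (by linarith)
    obtain ⟨B, hBsub, hBo, hyB⟩ := mem_nhds_iff.1 (hsl.and hbd)
    refine const_contra h hsec hc₂ (X := ψ₁ y₁.1) (Z := ζ y₁) (hc₁.mem _ ((hl 0).mem _ hO0).1)
      (hζS y₁ (hN'O hy₁)) hBo ⟨_, hyB⟩ (T := ‖fderiv ℝ ψ₁ y₁.1 (κ 0 y₁)‖ + 1) ?_ ?_
    · intro q hq
      exact ((hl 0).mem (y₁.1, q) (hmO _ (hN'O (hBsub hq).1.1) 0 (by norm_num))).2.1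
    · intro q hq
      obtain ⟨⟨hqN, hqZ⟩, hqb⟩ := hBsub hq
      have hqO := hN'O hqN
      have hq0 := hmO _ hqO 0 (by norm_num)
      obtain ⟨m1, m2, m3, m4⟩ := (hl 0).mem _ hq0
      obtain ⟨g1, g2, g3⟩ := h.isGeo_G1 hc₁.toPar m1 (κ 0 (y₁.1, q))
      have hk := (hO'sub hqO).2.2.1 0 (Finset.mem_range.2 (by norm_num))
      refine ⟨G1 Φ ψ₁ (y₁.1, κ 0 (y₁.1, q)), g1, g2, ?_, ?_, m4, θ 0 (y₁.1, q), hk.2.2.1,
        hk.2.2.2.le, ?_⟩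
      · rw [g3]; exact fun h0 => hk.2.1 (hc₁.inj _ m1 (by rw [h0, map_zero]))
      · rw [g3]; exact hqb.le
      · have hcr := (hl 0).cross _ hq0
        have h5 : Z (y₁.1, q) = Z y₁ := hqZ
        show cF Φ ψ₁ (κ 0) (y₁.1, q) (θ 0 (y₁.1, q)) = ζ y₁
        rw [hcr, ← (hZm _ hqO).2, h5, (hZm y₁ (hN'O hy₁)).2]
  have hP : ∀ N' ⊆ O', IsOpen N' → N'.Nonempty →
      ∃ y ∈ N', Function.Injective fun v => fderiv ℝ Z y (v, 0) := by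
    intro N' hN'O hN'o hne
    by_contra hcon
    push Not at hcon
    have h0 : ∀ y ∈ N', ∀ v, fderiv ℝ Z y (v, 0) = 0 := fun y hy =>
      (hrx y (hN'O hy)).resolve_right (hcon y hy)
    obtain ⟨y₁, hy₁⟩ := hne
    have hO0 := hmO y₁ (hN'O hy₁) 0 (by norm_num)
    have hsl := slice_const (a := fun q => (q, y₁.2)) (L := ContinuousLinearMap.inl ℝ (ℝ × ℝ) (ℝ × ℝ))
      hN'o (hZsm.mono hN'O) (fun q => hasFDerivAt_prodMk_left q y₁.2) (fun y hy v => h0 y hy v)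
      (q := y₁.1) hy₁
    have hbd : ∀ᶠ q in 𝓝 y₁.1, ‖fderiv ℝ ψ₁ q (κ 0 (q, y₁.2))‖
        < ‖fderiv ℝ ψ₁ y₁.1 (κ 0 y₁)‖ + 1 := by
      have h1 := ((hl 0).cont h hc₁.toPar hO0).2.2.2.2.2.norm
      have h2 : ContinuousAt (fun q : ℝ × ℝ => (q, y₁.2)) y₁.1 := by fun_prop
      have h3 : ContinuousAt (fun q => ‖fderiv ℝ ψ₁ q (κ 0 (q, y₁.2))‖) y₁.1 :=
        ContinuousAt.comp (g := fun y : Pt => ‖fderiv ℝ ψ₁ y.1 (κ 0 y)‖)
          (f := fun q => (q, y₁.2)) h1 h2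
      exact h3.eventually_lt_const (by linarith)
    obtain ⟨B, hBsub, hBo, hyB⟩ := mem_nhds_iff.1 (hsl.and hbd)
    refine const_contra h hsec hc₁ (X := ψ₂ y₁.2) (Z := ζ y₁) (hc₂.mem _ ((hl 0).mem _ hO0).2.1)
      (hζS y₁ (hN'O hy₁)) hBo ⟨_, hyB⟩ (T := ‖fderiv ℝ ψ₁ y₁.1 (κ 0 y₁)‖ + 1) ?_ ?_
    · intro q hq
      exact ((hl 0).mem (q, y₁.2) (hmO _ (hN'O (hBsub hq).1.1) 0 (by norm_num))).1
    · intro q hq
      obtain ⟨⟨hqN, hqZ⟩, hqb⟩ := hBsub hq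
      have hqO := hN'O hqN
      have hq0 := hmO _ hqO 0 (by norm_num)
      obtain ⟨m1, m2, m3, m4⟩ := (hl 0).mem _ hq0
      obtain ⟨g1, g2, g3⟩ := h.isGeo_G1 hc₁.toPar m1 (κ 0 (q, y₁.2))
      have hk := (hO'sub hqO).2.2.1 0 (Finset.mem_range.2 (by norm_num))
      have hd0 : deriv (G1 Φ ψ₁ (q, κ 0 (q, y₁.2))) 0 ≠ 0 := by
        rw [g3]; exact fun h0 => hk.2.1 (hc₁.inj _ m1 (by rw [h0, map_zero]))
      have hda : deriv (fun t => G1 Φ ψ₁ (q, κ 0 (q, y₁.2)) (1 + -1 * t)) 0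
          = (-1 : ℝ) • deriv (G1 Φ ψ₁ (q, κ 0 (q, y₁.2))) 1 := by
        rw [deriv_affine g1]; simp
      refine ⟨fun t => G1 Φ ψ₁ (q, κ 0 (q, y₁.2)) (1 + -1 * t), g1.affine 1 (-1), ?_, ?_, ?_, ?_,
        1 - θ 0 (q, y₁.2), by linarith [hk.2.2.2], by linarith [hk.2.2.1], ?_⟩
      · show G1 Φ ψ₁ (q, κ 0 (q, y₁.2)) (1 + -1 * 0) = ψ₂ y₁.2
        rw [mul_zero, add_zero]; exact m4
      · rw [hda]
        exact smul_ne_zero (by norm_num) (g1.deriv_ne S hd0 1)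
      · rw [hda, norm_smul, norm_neg, norm_one, one_mul, g1.speed 1 0, g3]; exact hqb.le
      · show G1 Φ ψ₁ (q, κ 0 (q, y₁.2)) (1 + -1 * 1) = ψ₁ q
        rw [show (1 : ℝ) + -1 * 1 = 0 by norm_num]; exact g2
      · have hcr := (hl 0).cross _ hq0
        have h5 : Z (q, y₁.2) = Z y₁ := hqZ
        show G1 Φ ψ₁ (q, κ 0 (q, y₁.2)) (1 + -1 * (1 - θ 0 (q, y₁.2))) = ζ y₁
        rw [show (1 : ℝ) + -1 * (1 - θ 0 (q, y₁.2)) = θ 0 (q, y₁.2) by ring]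
        have hcr' : G1 Φ ψ₁ (q, κ 0 (q, y₁.2)) (θ 0 (q, y₁.2)) = ζ (q, y₁.2) := hcr
        rw [hcr', ← (hZm _ hqO).2, h5, (hZm y₁ (hN'O hy₁)).2]
  obtain ⟨y₁, hy₁, hi₁⟩ := hQ O' subset_rfl hO'o ⟨x, hxO'⟩
  have hcont : ContinuousOn (fderiv ℝ Z) O' :=
    (hZsm.fderiv_of_isOpen hO'o (m := ∞) (by simp)).continuousOn
  set OB : Set Pt := O' ∩ (fun y => (fderiv ℝ Z y) ∘L (ContinuousLinearMap.inr ℝ (ℝ × ℝ) (ℝ × ℝ))) ⁻¹'
    {L : (ℝ × ℝ) →L[ℝ] ℝ × ℝ | Function.Injective L} with hOB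
  have hOBo : IsOpen OB := (hcont.clm_comp continuousOn_const).isOpen_inter_preimage hO'o
    ContinuousLinearMap.isOpen_injective
  obtain ⟨y₂, hy₂, hi₂⟩ := hP OB inter_subset_left hOBo ⟨y₁, hy₁, hi₁⟩
  set OA : Set Pt := OB ∩ (fun y => (fderiv ℝ Z y) ∘L (ContinuousLinearMap.inl ℝ (ℝ × ℝ) (ℝ × ℝ))) ⁻¹'
    {L : (ℝ × ℝ) →L[ℝ] ℝ × ℝ | Function.Injective L} with hOA
  have hOAo : IsOpen OA :=
    ((hcont.mono inter_subset_left).clm_comp continuousOn_const).isOpen_inter_preimage hOBo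
      ContinuousLinearMap.isOpen_injective
  have hOAO : OA ⊆ O' := fun y hy => hy.1.1
  have hAB : ∀ y ∈ OA, _ := fun y hy =>
    cond_AB hO'o hZsm (hOAO hy) _ _ _ _ (fun k : Fin 4 => (hthr y (hOAO hy) k k.2).1)
    (fun i j hij => by
      rw [(hthr y (hOAO hy) i i.2).2.2.1, (hthr y (hOAO hy) j j.2).2.2.1]
      exact (hind y (hOAO hy) i i.2 j j.2 (hfne i j hij)).2.1) hy.2 hy.1.2
  have hfinal := K_const (by simp) hOAo hc₂.isOpen hc₃.isOpen (hZsm.mono hOAO)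
    (fun y hy => ((hl 0).mem y (hmO y (hOAO hy) 0 (by norm_num))).2.1)
    (fun y hy => (hZm y (hOAO hy)).1) hc₂.smooth_Chr (fun y hy v w => hc₂.Chr_symm hy v w)
    hc₃.smooth_Chr (fun y hy v w => hc₃.Chr_symm hy v w) (fun y hy => hy.2) (fun y hy => hy.1.2)
    (fun y hy => (hAB y hy).1) (fun y hy => (hAB y hy).2) hc₂.smooth_gB
    (fun y hy v w => by rw [gB_apply, gB_apply, real_inner_comm]) (fun y hy v hv => by
      rw [gB_apply]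
      exact real_inner_self_pos.2 fun h0 => hv (hc₂.inj y hy (by rw [h0, map_zero])))
    (fun y hy u v w => hc₂.compat hy u v w) hc₂.smooth_GK
    (fun y hy u v w => hc₂.gauss hy u v w)
  exact ⟨y₂, (hO'sub hy₂.1).1, ((hl 0).mem _ (hmO _ hy₂.1 0 (by norm_num))).2.1,
    hfinal y₂ ⟨hy₂, hi₂⟩⟩

end Pool.Agent.H91.GE
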