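import Pool.Agent.H91.GS.Branch

/-!
# Identities between crossing points hold near residual pairs
-/

set_option autoImplicit false

open scoped InnerProductSpace Topology ContDiff
open Set Filter

namespace Pool.Agent.H91.GE

section general

theorem meagre_of_local {P Y : Type*} [TopologicalSpace P] [TopologicalSpace Y]
    [SecondCountableTopology (P × Y)] {B : Set (P × Y)}
    (h : ∀ b ∈ B, ∃ N ∈ 𝓝 b, IsMeagre (Prod.fst '' (B ∩ N))) : IsMeagre (Prod.fst '' B) := by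
  choose! N hN hm using h
  obtain ⟨t, htB, htc, hcov⟩ := TopologicalSpace.countable_cover_nhdsWithin (s := B) (f := N)
    fun b hb => mem_nhdsWithin_of_mem_nhds (hN b hb)
  have h1 : IsMeagre (⋃ b ∈ t, Prod.fst '' (B ∩ N b)) := by
    haveI := htc.to_subtype
    rw [biUnion_eq_iUnion]
    exact isMeagre_iUnion fun b => hm b (htB b.2)
  refine h1.mono ?_
  rintro p ⟨b, hb, rfl⟩
  have h2 := hcov hb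
  rw [mem_iUnion₂] at h2
  obtain ⟨c, hc, hbc⟩ := h2
  rw [mem_iUnion₂]
  exact ⟨c, hc, mem_image_of_mem _ ⟨hb, hbc⟩⟩

theorem nowhereDense_of_eq {P Z : Type*} [TopologicalSpace P] [TopologicalSpace Z] [T2Space Z]
    {O : Set P} (hO : IsOpen O) {f g : P → Z} (hf : ContinuousOn f O) (hg : ContinuousOn g O) :
    IsNowhereDense ({x ∈ O | f x = g x} \ interior {x ∈ O | f x = g x}) := by
  set C : Set P := {x ∈ O | f x = g x} with hC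
  have hop : IsOpen (O ∩ (fun x => (f x, g x)) ⁻¹' (diagonal Z)ᶜ) :=
    (hf.prodMk hg).isOpen_inter_preimage hO isClosed_diagonal.isOpen_compl
  rw [IsNowhereDense, eq_empty_iff_forall_notMem]
  intro x hx
  set V := interior (closure (C \ interior C)) with hV
  have hVo : IsOpen V := isOpen_interior
  have h1 : x ∈ closure (C \ interior C) := interior_subset hx
  obtain ⟨x₁, hx₁V, hx₁⟩ := mem_closure_iff.1 h1 V hVo hx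
  have h2 : V ∩ O ⊆ C := by
    rintro y ⟨hyV, hyO⟩
    by_contra hyC
    have h3 : y ∈ O ∩ (fun x => (f x, g x)) ⁻¹' (diagonal Z)ᶜ := by
      refine ⟨hyO, ?_⟩
      intro h4
      exact hyC ⟨hyO, h4⟩
    have h4 : y ∈ closure (C \ interior C) := interior_subset hyV
    obtain ⟨z, hz1, hz2⟩ := mem_closure_iff.1 h4 _ hop h3
    exact hz1.2 hz2.1.2
  have h3 : x₁ ∈ interior C := mem_interior.2 ⟨V ∩ O, h2, hVo.inter hO, hx₁V, hx₁.1.1⟩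
  exact hx₁.2 h3

end general

variable {E F : Type*} [NormedAddCommGroup E] [InnerProductSpace ℝ E] [FiniteDimensional ℝ E]
  [NormedAddCommGroup F] [InnerProductSpace ℝ F] [FiniteDimensional ℝ F]
  {S : Set E} {A : E × E → E} {K K₂ : NNReal} {Φ : ℝ → E × E → E × E}

/-- Nondegenerate connecting geodesics. -/
def Cfg (Φ : ℝ → E × E → E × E) (Ω₁ Ω₂ : Set (ℝ × ℝ)) (ψ₁ ψ₂ : ℝ × ℝ → E) (x : Pt) (w : ℝ × ℝ) :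
    Prop :=
  x.1 ∈ Ω₁ ∧ x.2 ∈ Ω₂ ∧ G1 Φ ψ₁ (x.1, w) 1 = ψ₂ x.2 ∧ Nondeg Φ ψ₁ x.1 w

/-- Three velocities and three times. -/
abbrev Y3 : Type := ((ℝ × ℝ) × (ℝ × ℝ) × (ℝ × ℝ)) × (ℝ × ℝ × ℝ)

/-- Equations of three geodesics with a common point. -/
def Eq3 (Φ : ℝ → E × E → E × E) (ψ₁ ψ₂ : ℝ × ℝ → E) (x : Pt) (y : Y3) : Prop :=
  G1 Φ ψ₁ (x.1, y.1.1) 1 = ψ₂ x.2 ∧ G1 Φ ψ₁ (x.1, y.1.2.1) 1 = ψ₂ x.2 ∧
    G1 Φ ψ₁ (x.1, y.1.2.2) 1 = ψ₂ x.2 ∧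
    G1 Φ ψ₁ (x.1, y.1.1) y.2.1 = G1 Φ ψ₁ (x.1, y.1.2.1) y.2.2.1 ∧
    G1 Φ ψ₁ (x.1, y.1.1) y.2.1 = G1 Φ ψ₁ (x.1, y.1.2.2) y.2.2.2

/-- Three nondegenerate geodesics with a common point. -/
def Tri (Φ : ℝ → E × E → E × E) (Ω₁ Ω₂ : Set (ℝ × ℝ)) (ψ₁ ψ₂ : ℝ × ℝ → E) (x : Pt) (y : Y3) : Prop :=
  Cfg Φ Ω₁ Ω₂ ψ₁ ψ₂ x y.1.1 ∧ Cfg Φ Ω₁ Ω₂ ψ₁ ψ₂ x y.1.2.1 ∧ Cfg Φ Ω₁ Ω₂ ψ₁ ψ₂ x y.1.2.2 ∧
    G1 Φ ψ₁ (x.1, y.1.1) y.2.1 = G1 Φ ψ₁ (x.1, y.1.2.1) y.2.2.1 ∧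
    G1 Φ ψ₁ (x.1, y.1.1) y.2.1 = G1 Φ ψ₁ (x.1, y.1.2.2) y.2.2.2 ∧
    Indep (deriv (G1 Φ ψ₁ (x.1, y.1.1)) y.2.1) (deriv (G1 Φ ψ₁ (x.1, y.1.2.1)) y.2.2.1) ∧
    Indep (deriv (G1 Φ ψ₁ (x.1, y.1.1)) y.2.1) (deriv (G1 Φ ψ₁ (x.1, y.1.2.2)) y.2.2.2)

/-- The configuration persists near `x`. -/
def GoodT (Φ : ℝ → E × E → E × E) (ψ₁ ψ₂ : ℝ × ℝ → E) (x : Pt) (y : Y3) : Prop :=
  ∀ V ∈ 𝓝 y, ∀ᶠ x' in 𝓝 x, ∃ y' ∈ V, Eq3 Φ ψ₁ ψ₂ x' y'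

variable {Ω₁ Ω₂ : Set (ℝ × ℝ)} {ψ₁ ψ₂ : ℝ × ℝ → E} {P₂ : E →L[ℝ] ℝ × ℝ} {W₂ : Set E}

theorem tri_meagre (hdim : Module.finrank ℝ E = Module.finrank ℝ F + 2)
    (h : GFlow F S A K K₂ Φ) (hp₁ : Par S Ω₁ ψ₁) (hc₂ : Chart S Ω₂ ψ₂ P₂ W₂) :
    IsMeagre {x : Pt | ∃ y : Y3, Tri Φ Ω₁ Ω₂ ψ₁ ψ₂ x y ∧ ¬ GoodT Φ ψ₁ ψ₂ x y} := by
  set B : Set (Pt × Y3) := {b | Tri Φ Ω₁ Ω₂ ψ₁ ψ₂ b.1 b.2 ∧ ¬ GoodT Φ ψ₁ ψ₂ b.1 b.2} with hB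
  have h1 : {x : Pt | ∃ y : Y3, Tri Φ Ω₁ Ω₂ ψ₁ ψ₂ x y ∧ ¬ GoodT Φ ψ₁ ψ₂ x y} = Prod.fst '' B := by
    ext x
    constructor
    · rintro ⟨y, hy⟩; exact ⟨(x, y), hy, rfl⟩
    · rintro ⟨⟨x', y⟩, hy, rfl⟩; exact ⟨y, hy⟩
  rw [h1]
  refine meagre_of_local ?_
  rintro ⟨x₀, ⟨⟨w1, w2, w3⟩, s1, s2, s3⟩⟩ ⟨⟨c1, c2, c3, e12, e13, i12, i13⟩, -⟩
  simp only at c1 c2 c3 e12 e13 i12 i13
  obtain ⟨O1, V1, κ1, b1, hx1, hw1, k1⟩ := exists_br h hp₁ hc₂ c1.1 c1.2.1 c1.2.2.1 c1.2.2.2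
  obtain ⟨O2, V2, κ2, b2, hx2, hw2, k2⟩ := exists_br h hp₁ hc₂ c2.1 c2.2.1 c2.2.2.1 c2.2.2.2
  obtain ⟨O3, V3, κ3, b3, hx3, hw3, k3⟩ := exists_br h hp₁ hc₂ c3.1 c3.2.1 c3.2.2.1 c3.2.2.2
  set O : Set Pt := O1 ∩ (O2 ∩ O3) with hO
  have hOo : IsOpen O := b1.isOpen.inter (b2.isOpen.inter b3.isOpen)
  have hxO : x₀ ∈ O := ⟨hx1, hx2, hx3⟩
  have sm1 : ContDiffOn ℝ ∞ κ1 O := b1.smooth.mono fun x hx => hx.1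
  have sm2 : ContDiffOn ℝ ∞ κ2 O := b2.smooth.mono fun x hx => hx.2.1
  have sm3 : ContDiffOn ℝ ∞ κ3 O := b3.smooth.mono fun x hx => hx.2.2
  have hmO : ∀ x ∈ O, x.1 ∈ Ω₁ := fun x hx => (b1.mem x hx.1).1
  obtain ⟨O12, V12, σ, hsub12, cr12, hx12, hs12, hσ⟩ := exists_cr hdim h hp₁ hOo sm1 sm2 hmO hxO
    (s₀ := (s1, s2)) (by
      show G1 Φ ψ₁ (x₀.1, κ1 x₀) s1 = G1 Φ ψ₁ (x₀.1, κ2 x₀) s2
      rw [k1, k2]; exact e12) (by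
      show Indep (deriv (G1 Φ ψ₁ (x₀.1, κ1 x₀)) s1) (deriv (G1 Φ ψ₁ (x₀.1, κ2 x₀)) s2)
      rw [k1, k2]; exact i12)
  obtain ⟨O13, V13, τ, hsub13, cr13, hx13, hs13, hτ⟩ := exists_cr hdim h hp₁ hOo sm1 sm3 hmO hxO
    (s₀ := (s1, s3)) (by
      show G1 Φ ψ₁ (x₀.1, κ1 x₀) s1 = G1 Φ ψ₁ (x₀.1, κ3 x₀) s3
      rw [k1, k3]; exact e13) (by
      show Indep (deriv (G1 Φ ψ₁ (x₀.1, κ1 x₀)) s1) (deriv (G1 Φ ψ₁ (x₀.1, κ3 x₀)) s3)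
      rw [k1, k3]; exact i13)
  set O' : Set Pt := O12 ∩ O13 with hO'
  have hO'o : IsOpen O' := cr12.isOpen.inter cr13.isOpen
  set C : Set Pt := {x ∈ O' | (σ x).1 = (τ x).1} with hC
  have hnd : IsNowhereDense (C \ interior C) :=
    nowhereDense_of_eq hO'o ((continuous_fst.comp_continuousOn
      (cr12.smooth.continuousOn.mono fun x hx => hx.1)))
      ((continuous_fst.comp_continuousOn
      (cr13.smooth.continuousOn.mono fun x hx => hx.2)))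
  set N : Set (Pt × Y3) := {b | b.1 ∈ O' ∧ (b.2.1.1 ∈ V1 ∧ b.2.1.2.1 ∈ V2 ∧ b.2.1.2.2 ∈ V3) ∧
    ((b.2.2.1, b.2.2.2.1) ∈ V12 ∧ (b.2.2.1, b.2.2.2.2) ∈ V13)} with hN
  have hNo : IsOpen N := by
    have f1 : Continuous fun b : Pt × Y3 => b.2.1.1 := by fun_prop
    have f2 : Continuous fun b : Pt × Y3 => b.2.1.2.1 := by fun_prop
    have f3 : Continuous fun b : Pt × Y3 => b.2.1.2.2 := by fun_prop
    have f4 : Continuous fun b : Pt × Y3 => (b.2.2.1, b.2.2.2.1) := by fun_prop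
    have f5 : Continuous fun b : Pt × Y3 => (b.2.2.1, b.2.2.2.2) := by fun_prop
    exact (hO'o.preimage continuous_fst).inter (((b1.V_open.preimage f1).inter
      ((b2.V_open.preimage f2).inter (b3.V_open.preimage f3))).inter
      ((cr12.V_open.preimage f4).inter (cr13.V_open.preimage f5)))
  refine ⟨N, hNo.mem_nhds ⟨⟨hx12, hx13⟩, ⟨hw1, hw2, hw3⟩, hs12, hs13⟩, ?_⟩
  refine hnd.isMeagre.mono ?_
  rintro x ⟨⟨x', ⟨⟨v1, v2, v3⟩, t1, t2, t3⟩⟩, ⟨⟨⟨d1, d2, d3, f12, f13, j12, j13⟩, hbad⟩, hNx⟩, rfl⟩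
  simp only at d1 d2 d3 f12 f13 j12 j13 hbad ⊢
  obtain ⟨n1, ⟨n2, n3, n4⟩, n5, n6⟩ := hNx
  simp only at n1 n2 n3 n4 n5 n6
  have hxO1 : x' ∈ O := hsub12 n1.1
  have u1 : v1 = κ1 x' := b1.uniq x' hxO1.1 v1 n2 d1.2.2.1
  have u2 : v2 = κ2 x' := b2.uniq x' hxO1.2.1 v2 n3 d2.2.2.1
  have u3 : v3 = κ3 x' := b3.uniq x' hxO1.2.2 v3 n4 d3.2.2.1
  have u4 : (t1, t2) = σ x' := cr12.uniq x' n1.1 (t1, t2) n5 (by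
    show G1 Φ ψ₁ (x'.1, κ1 x') t1 = G1 Φ ψ₁ (x'.1, κ2 x') t2
    rw [← u1, ← u2]; exact f12)
  have u5 : (t1, t3) = τ x' := cr13.uniq x' n1.2 (t1, t3) n6 (by
    show G1 Φ ψ₁ (x'.1, κ1 x') t1 = G1 Φ ψ₁ (x'.1, κ3 x') t3
    rw [← u1, ← u3]; exact f13)
  have hxC : x' ∈ C := ⟨n1, by rw [← u4, ← u5]⟩
  refine ⟨hxC, fun hint => hbad ?_⟩
  intro V hV
  let Yf : Pt → Y3 := fun x => ((κ1 x, κ2 x, κ3 x), ((σ x).1, (σ x).2, (τ x).2))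
  have hYx : Yf x' = ((v1, v2, v3), (t1, t2, t3)) := by
    show ((κ1 x', κ2 x', κ3 x'), ((σ x').1, (σ x').2, (τ x').2)) = _
    rw [← u1, ← u2, ← u3, ← u4, ← u5]
  have hYc : ContinuousAt Yf x' := by
    have q1 : ContinuousAt κ1 x' := (contDiffAt_of_open b1.isOpen b1.smooth hxO1.1).continuousAt
    have q2 : ContinuousAt κ2 x' := (contDiffAt_of_open b2.isOpen b2.smooth hxO1.2.1).continuousAt
    have q3 : ContinuousAt κ3 x' := (contDiffAt_of_open b3.isOpen b3.smooth hxO1.2.2).continuousAt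
    have q4 : ContinuousAt σ x' := (contDiffAt_of_open cr12.isOpen cr12.smooth n1.1).continuousAt
    have q5 : ContinuousAt τ x' := (contDiffAt_of_open cr13.isOpen cr13.smooth n1.2).continuousAt
    exact (q1.prodMk (q2.prodMk q3)).prodMk (q4.fst.prodMk (q4.snd.prodMk q5.snd))
  have hev1 : ∀ᶠ x in 𝓝 x', Yf x ∈ V := hYc.preimage_mem_nhds (by rw [hYx]; exact hV)
  have hev2 : ∀ᶠ x in 𝓝 x', x ∈ C := mem_interior_iff_mem_nhds.1 hint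
  filter_upwards [hev1, hev2] with x hx1 hx2
  have hxO2 : x ∈ O := hsub12 hx2.1.1
  refine ⟨Yf x, hx1, (b1.mem x hxO2.1).2.2.2, (b2.mem x hxO2.2.1).2.2.2, (b3.mem x hxO2.2.2).2.2.2,
    (cr12.mem x hx2.1.1).2, ?_⟩
  show G1 Φ ψ₁ (x.1, κ1 x) (σ x).1 = G1 Φ ψ₁ (x.1, κ3 x) (τ x).2
  rw [hx2.2]; exact (cr13.mem x hx2.1.2).2

end Pool.Agent.H91.GE
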