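import Pool.Agent.H91.GS.Dense
import Pool.Agent.H77.PG.Sol

/-!
# A secure surface has no point of negative curvature if its curvature is locally constant
-/

set_option autoImplicit false

open scoped InnerProductSpace Topology ContDiff
open Set Filter

namespace Pool.Agent.H91.GE

open Pool.Agent.H77.PF (Through om0 om0_apply om0_zero rank_y)
open Pool.Agent.H77.PG (Fam VF jf CurvAt Flat1 curv_const exists_CurvAt)

variable {E F : Type*} [NormedAddCommGroup E] [InnerProductSpace ℝ E] [FiniteDimensional ℝ E]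
  [NormedAddCommGroup F] [InnerProductSpace ℝ F] [FiniteDimensional ℝ F]
  {S : Set E} {A : E × E → E} {K K₂ : NNReal} {Φ : ℝ → E × E → E × E}
  {Ω Ω₁ Ω₂ Ω₃ : Set (ℝ × ℝ)} {ψ ψ₁ ψ₂ ψ₃ : ℝ × ℝ → E} {P P₁ P₂ P₃ : E →L[ℝ] ℝ × ℝ}
  {W W₁ W₂ W₃ : Set E}

/-- The geodesics of a web are long between `z` and the endpoint. -/
theorem Web.long (h : GFlow F S A K K₂ Φ) (hsec : Secure S) (hp₁ : Par S Ω₁ ψ₁) (hp₂ : Par S Ω₂ ψ₂)
    {x : Pt} {z : E} {w : ℕ → ℝ × ℝ} {s : ℕ → ℝ} (hW : Web Φ Ω₁ Ω₂ ψ₁ ψ₂ x z w s)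
    (hzS : z ∈ S) (M : ℝ) : ∃ n, M < (1 - s n) * ‖fderiv ℝ ψ₁ x.1 (w n)‖ := by
  by_contra hcon
  push Not at hcon
  have hx1 := (hW.cfg 0).1
  have hx2 := (hW.cfg 0).2.1
  have hfin := finite_geodesics h.compact h.sub hsec hzS (hp₂.mem _ hx2) M
  have hg := fun n => h.isGeo_G1 hp₁ hx1 (w n)
  have hd0 : ∀ n, deriv (G1 Φ ψ₁ (x.1, w n)) 0 ≠ 0 := by
    intro n
    rw [(hg n).2.2]
    exact fun h0 => hW.ne n (hp₁.inj _ hx1 (by rw [h0, map_zero]))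
  let η : ℕ → ℝ → E := fun n t => G1 Φ ψ₁ (x.1, w n) (s n + (1 - s n) * t)
  have hηd : ∀ n, deriv (η n) 0 = (1 - s n) • deriv (G1 Φ ψ₁ (x.1, w n)) (s n) := by
    intro n
    show deriv (fun t => G1 Φ ψ₁ (x.1, w n) (s n + (1 - s n) * t)) 0 = _
    rw [deriv_affine (hg n).1]; simp
  have hmem : ∀ n, η n ∈ {γ : ℝ → E | IsGeo S γ ∧ γ 0 = z ∧ γ 1 = ψ₂ x.2 ∧ deriv γ 0 ≠ 0 ∧
      ‖deriv γ 0‖ ≤ M} := by
    intro n
    have ht := hW.time n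
    refine ⟨(hg n).1.affine _ _, ?_, ?_, ?_, ?_⟩
    · show G1 Φ ψ₁ (x.1, w n) (s n + (1 - s n) * 0) = z
      rw [mul_zero, add_zero]; exact hW.pass n
    · show G1 Φ ψ₁ (x.1, w n) (s n + (1 - s n) * 1) = ψ₂ x.2
      rw [show s n + (1 - s n) * 1 = 1 by ring]; exact (hW.cfg n).2.2.1
    · rw [hηd]
      exact smul_ne_zero (by linarith [ht.2]) ((hg n).1.deriv_ne S (hd0 n) _)
    · rw [hηd, norm_smul, Real.norm_of_nonneg (by linarith [ht.2]), (hg n).1.speed (s n) 0,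
        (hg n).2.2]
      exact hcon n
  have hinj : Function.Injective η := by
    intro n m hnm
    by_contra hne
    have h1 := hW.ind n m hne (s n) (s m) (by rw [hW.pass, hW.pass])
    have h2 := h1 (1 - s n) (1 - s m) (by rw [← hηd, ← hηd, hnm])
    linarith [(hW.time n).2, h2.1]
  have h1 : (η ⁻¹' {γ : ℝ → E | IsGeo S γ ∧ γ 0 = z ∧ γ 1 = ψ₂ x.2 ∧ deriv γ 0 ≠ 0 ∧
      ‖deriv γ 0‖ ≤ M}).Finite := hfin.preimage hinj.injOn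
  exact infinite_univ (h1.subset fun n _ => hmem n)

theorem sinh_le {κ t : ℝ} (hκ : 0 ≤ κ) (ht0 : 0 ≤ t) (ht1 : t ≤ 1) :
    0 ≤ Real.sinh (κ * t) ∧ Real.sinh (κ * t) ≤ Real.exp (-(κ * (1 - t))) * Real.sinh κ := by
  refine ⟨Real.sinh_nonneg_iff.2 (mul_nonneg hκ ht0), ?_⟩
  rw [Real.sinh_eq, Real.sinh_eq]
  have h1 : Real.exp (-(κ * (1 - t))) * Real.exp κ = Real.exp (κ * t) := by
    rw [← Real.exp_add]; congr 1; ring
  have h2 : Real.exp (-(κ * (1 - t))) * Real.exp (-κ) = Real.exp (-(κ * (2 - t))) := by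
    rw [← Real.exp_add]; congr 1; ring
  have h3 : Real.exp (-(κ * (2 - t))) ≤ Real.exp (-(κ * t)) := by
    apply Real.exp_le_exp.2
    nlinarith
  have h4 : Real.exp (-(κ * (1 - t))) * ((Real.exp κ - Real.exp (-κ)) / 2)
      = (Real.exp (κ * t) - Real.exp (-(κ * (2 - t)))) / 2 := by
    rw [← h1, ← h2]; ring
  rw [h4]
  linarith

/-- The variation of the geodesics of a leaf. -/
theorem Leaf.fam (h : GFlow F S A K K₂ Φ) (hp₁ : Par S Ω₁ ψ₁) (hp₂ : Par S Ω₂ ψ₂) {ζ : Pt → E}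
    {O : Set Pt} {V : Set (ℝ × ℝ)} {κ : Pt → ℝ × ℝ} {θ : Pt → ℝ}
    (hl : Leaf Φ Ω₁ Ω₂ ψ₁ ψ₂ ζ O V κ θ) {x : Pt} (hx : x ∈ O) (u : ℝ × ℝ) :
    Fam S (fun e t => cF Φ ψ₁ κ (x.1, x.2 + e • u) t) ∧
    VF (fun e t => cF Φ ψ₁ κ (x.1, x.2 + e • u) t) 0 = 0 ∧
    VF (fun e t => cF Φ ψ₁ κ (x.1, x.2 + e • u) t) 1 = fderiv ℝ ψ₂ x.2 u ∧
    ∃ a : ℝ, fderiv ℝ ζ x (0, u) = VF (fun e t => cF Φ ψ₁ κ (x.1, x.2 + e • u) t) (θ x)
      + a • deriv (cF Φ ψ₁ κ x) (θ x) := by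
  set G : ℝ → ℝ → E := fun e t => cF Φ ψ₁ κ (x.1, x.2 + e • u) t with hG
  have hline : ContDiff ℝ ∞ (fun e : ℝ => ((x.1, x.2 + e • u) : Pt)) :=
    contDiff_const.prodMk (contDiff_const.add (contDiff_id.smul contDiff_const))
  have hld : HasDerivAt (fun e : ℝ => ((x.1, x.2 + e • u) : Pt)) (0, u) 0 := by
    have h1 : HasDerivAt (fun e : ℝ => x.2 + e • u) u 0 := by
      simpa using ((hasDerivAt_id (0 : ℝ)).smul_const u).const_add x.2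
    exact (hasDerivAt_const (0 : ℝ) x.1).prodMk h1
  have hx0 : ((x.1, x.2 + (0 : ℝ) • u) : Pt) = x := by rw [zero_smul, add_zero]
  have hev : ∀ᶠ e : ℝ in 𝓝 0, ((x.1, x.2 + e • u) : Pt) ∈ O :=
    hline.continuous.continuousAt.preimage_mem_nhds (hl.isOpen.mem_nhds (by rw [hx0]; exact hx))
  have hcF := (smooth_cF h hp₁ hl.isOpen hl.smooth (fun y hy => (hl.mem y hy).1)).1
  have hprod : IsOpen (O ×ˢ (univ : Set ℝ)) := hl.isOpen.prod isOpen_univ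
  have hF : Fam S G := by
    refine ⟨fun t => ?_, ?_⟩
    · have h1 : ContDiffAt ℝ ∞ (fun y : Pt × ℝ => cF Φ ψ₁ κ y.1 y.2) ((x.1, x.2 + (0 : ℝ) • u), t) :=
        contDiffAt_of_open hprod hcF ⟨by rw [hx0]; exact hx, mem_univ _⟩
      have h2 : ContDiffAt ℝ ∞ (fun q : ℝ × ℝ => (((x.1, x.2 + q.1 • u), q.2) : Pt × ℝ)) (0, t) :=
        (ContDiff.prodMk (hline.comp contDiff_fst) contDiff_snd).contDiffAt
      exact ContDiffAt.comp (0, t) (g := fun y : Pt × ℝ => cF Φ ψ₁ κ y.1 y.2)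
        (f := fun q : ℝ × ℝ => (((x.1, x.2 + q.1 • u), q.2) : Pt × ℝ)) h1 h2
    · filter_upwards [hev] with e he
      exact (h.isGeo_G1 hp₁ (hl.mem _ he).1 _).1
  have hV0 : VF G 0 = 0 := by
    have h1 : (fun e => G e 0) =ᶠ[𝓝 0] fun _ => ψ₁ x.1 := by
      filter_upwards [hev] with e he
      exact (h.isGeo_G1 hp₁ (hl.mem _ he).1 _).2.1
    show deriv (fun e => G e 0) 0 = 0
    rw [h1.deriv_eq, deriv_const]
  have hV1 : VF G 1 = fderiv ℝ ψ₂ x.2 u := by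
    have h1 : (fun e => G e 1) =ᶠ[𝓝 0] fun e => ψ₂ (x.2 + e • u) := by
      filter_upwards [hev] with e he
      exact (hl.mem _ he).2.2.2
    have h2 : HasDerivAt (fun e : ℝ => x.2 + e • u) u 0 := by
      simpa using ((hasDerivAt_id (0 : ℝ)).smul_const u).const_add x.2
    have h3 : HasFDerivAt ψ₂ (fderiv ℝ ψ₂ x.2) ((fun e : ℝ => x.2 + e • u) 0) := by
      show HasFDerivAt ψ₂ (fderiv ℝ ψ₂ x.2) (x.2 + (0 : ℝ) • u)
      rw [zero_smul, add_zero]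
      exact hp₂.hasFDerivAt (hl.mem x hx).2.1
    have h4 : HasDerivAt (fun e : ℝ => ψ₂ (x.2 + e • u)) (fderiv ℝ ψ₂ x.2 u) 0 :=
      HasFDerivAt.comp_hasDerivAt (l := ψ₂) (f := fun e : ℝ => x.2 + e • u) (0 : ℝ) h3 h2
    show deriv (fun e => G e 1) 0 = _
    rw [h1.deriv_eq, h4.deriv]
  refine ⟨hF, hV0, hV1, ?_⟩
  -- the crossing
  have dθ : HasFDerivAt θ (fderiv ℝ θ x) ((fun e : ℝ => ((x.1, x.2 + e • u) : Pt)) 0) := by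
    show HasFDerivAt θ (fderiv ℝ θ x) (x.1, x.2 + (0 : ℝ) • u)
    rw [hx0]; exact hasFDerivAt_of_open hl.isOpen hl.smooth_θ hx
  have dζ : HasFDerivAt ζ (fderiv ℝ ζ x) ((fun e : ℝ => ((x.1, x.2 + e • u) : Pt)) 0) := by
    show HasFDerivAt ζ (fderiv ℝ ζ x) (x.1, x.2 + (0 : ℝ) • u)
    rw [hx0]; exact hasFDerivAt_of_open hl.isOpen (hl.smooth_ζ h hp₁) hx
  have d1 : HasDerivAt (fun e : ℝ => θ (x.1, x.2 + e • u)) (fderiv ℝ θ x (0, u)) 0 :=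
    HasFDerivAt.comp_hasDerivAt (l := θ) (f := fun e : ℝ => ((x.1, x.2 + e • u) : Pt)) (0 : ℝ) dθ hld
  have d2 : HasDerivAt (fun e : ℝ => ζ (x.1, x.2 + e • u)) (fderiv ℝ ζ x (0, u)) 0 :=
    HasFDerivAt.comp_hasDerivAt (l := ζ) (f := fun e : ℝ => ((x.1, x.2 + e • u) : Pt)) (0 : ℝ) dζ hld
  have hGd : HasFDerivAt (fun q : ℝ × ℝ => G q.1 q.2) (fderiv ℝ (fun q : ℝ × ℝ => G q.1 q.2)
      (0, θ x)) (0, θ x) := ((hF.smooth (θ x)).differentiableAt (by simp)).hasFDerivAt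
  set D := fderiv ℝ (fun q : ℝ × ℝ => G q.1 q.2) (0, θ x) with hD
  have hθ0 : θ (x.1, x.2 + (0 : ℝ) • u) = θ x := by rw [hx0]
  have d3 : HasDerivAt (fun e : ℝ => G e (θ (x.1, x.2 + e • u))) (D (1, fderiv ℝ θ x (0, u))) 0 := by
    have h1 : HasDerivAt (fun e : ℝ => ((e, θ (x.1, x.2 + e • u)) : ℝ × ℝ))
        (1, fderiv ℝ θ x (0, u)) 0 := (hasDerivAt_id (0 : ℝ)).prodMk d1
    have h2 : HasFDerivAt (fun q : ℝ × ℝ => G q.1 q.2) D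
        ((fun e : ℝ => ((e, θ (x.1, x.2 + e • u)) : ℝ × ℝ)) 0) := by
      show HasFDerivAt (fun q : ℝ × ℝ => G q.1 q.2) D (0, θ (x.1, x.2 + (0 : ℝ) • u))
      rw [hθ0]; exact hGd
    exact HasFDerivAt.comp_hasDerivAt (l := fun q : ℝ × ℝ => G q.1 q.2)
      (f := fun e : ℝ => ((e, θ (x.1, x.2 + e • u)) : ℝ × ℝ)) (0 : ℝ) h2 h1
  have d4 : (fun e : ℝ => G e (θ (x.1, x.2 + e • u))) =ᶠ[𝓝 0] fun e => ζ (x.1, x.2 + e • u) := by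
    filter_upwards [hev] with e he
    exact hl.cross _ he
  have h5 : fderiv ℝ ζ x (0, u) = D (1, fderiv ℝ θ x (0, u)) :=
    d2.unique (d3.congr_of_eventuallyEq d4.symm)
  have h6 : D (1, 0) = VF G (θ x) := by
    have h1 : HasDerivAt (fun e : ℝ => ((e, θ x) : ℝ × ℝ)) (1, 0) 0 :=
      (hasDerivAt_id (0 : ℝ)).prodMk (hasDerivAt_const (0 : ℝ) (θ x))
    have h2 : HasDerivAt (fun e : ℝ => G e (θ x)) (D (1, 0)) 0 :=
      HasFDerivAt.comp_hasDerivAt (l := fun q : ℝ × ℝ => G q.1 q.2)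
        (f := fun e : ℝ => ((e, θ x) : ℝ × ℝ)) (0 : ℝ) hGd h1
    exact h2.deriv.symm
  have h7 : D (0, 1) = deriv (cF Φ ψ₁ κ x) (θ x) := by
    have h1 : HasDerivAt (fun t : ℝ => (((0 : ℝ), t) : ℝ × ℝ)) (0, 1) (θ x) :=
      (hasDerivAt_const (θ x) (0 : ℝ)).prodMk (hasDerivAt_id (θ x))
    have h2 : HasDerivAt (fun t : ℝ => G 0 t) (D (0, 1)) (θ x) :=
      HasFDerivAt.comp_hasDerivAt (l := fun q : ℝ × ℝ => G q.1 q.2)
        (f := fun t : ℝ => (((0 : ℝ), t) : ℝ × ℝ)) (θ x) hGd h1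
    have h3 : G 0 = cF Φ ψ₁ κ x := by
      show cF Φ ψ₁ κ (x.1, x.2 + (0 : ℝ) • u) = _
      rw [hx0]
    rw [← h3]
    exact h2.deriv.symm
  refine ⟨fderiv ℝ θ x (0, u), ?_⟩
  have h8 : ((1 : ℝ), fderiv ℝ θ x (0, u)) = (1, 0) + (fderiv ℝ θ x (0, u)) • ((0 : ℝ), (1 : ℝ)) := by
    refine Prod.ext ?_ ?_ <;> simp
  rw [h5, h8, map_add, map_smul, h6, h7]

omit [FiniteDimensional ℝ E] in
theorem gram_eq (ψ : ℝ × ℝ → E) (x a b : ℝ × ℝ) :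
    ⟪fderiv ℝ ψ x a, fderiv ℝ ψ x a⟫_ℝ * ⟪fderiv ℝ ψ x b, fderiv ℝ ψ x b⟫_ℝ
      - ⟪fderiv ℝ ψ x a, fderiv ℝ ψ x b⟫_ℝ ^ 2 = (a.1 * b.2 - a.2 * b.1) ^ 2 * gD ψ x := by
  rw [fderiv_pair ψ x a, fderiv_pair ψ x b]
  set e := fderiv ℝ ψ x (1, 0) with he
  set f := fderiv ℝ ψ x (0, 1) with hf
  have hD : gD ψ x = ⟪e, e⟫_ℝ * ⟪f, f⟫_ℝ - ⟪e, f⟫_ℝ ^ 2 := rfl
  rw [hD]
  simp only [inner_add_left, inner_add_right, inner_smul_left, inner_smul_right,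
    RCLike.conj_to_real, real_inner_comm e f]
  ring

theorem no_neg (hdim : Module.finrank ℝ E = Module.finrank ℝ F + 2) (h : GFlow F S A K K₂ Φ)
    (hsec : Secure S) (hc₁ : Chart S Ω₁ ψ₁ P₁ W₁) (hc₂ : Chart S Ω₂ ψ₂ P₂ W₂) (hd : Flat1 S)
    {x : Pt} {z : E} {w : ℕ → ℝ × ℝ} {s : ℕ → ℝ} (hW : Web Φ Ω₁ Ω₂ ψ₁ ψ₂ x z w s)
    (hzS : z ∈ S) {k₀ : ℝ} (hk : CurvAt S (ψ₁ x.1) k₀) : ¬ k₀ < 0 := by
  intro hk0
  obtain ⟨ζ, hζ⟩ := exists_leaves hdim h hc₁.toPar hc₂ hW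
  choose O V κ θ hl hxO hκ hθ using hζ
  have hx1 := (hW.cfg 0).1
  have hx2 := (hW.cfg 0).2.1
  have hζx : ζ x = z := by
    rw [← (hl 0).cross x (hxO 0)]
    show G1 Φ ψ₁ (x.1, κ 0 x) (θ 0 x) = z
    rw [hκ, hθ]; exact hW.pass 0
  have hcx : ∀ n, cF Φ ψ₁ (κ n) x = G1 Φ ψ₁ (x.1, w n) := fun n => funext fun t => by
    show G1 Φ ψ₁ (x.1, κ n x) t = _
    rw [hκ]
  have hg := fun n => h.isGeo_G1 hc₁.toPar hx1 (w n)
  have hkn : ∀ n t, CurvAt S (G1 Φ ψ₁ (x.1, w n) t) k₀ := by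
    intro n t
    obtain ⟨k, hk'⟩ := curv_const hdim h.sub hd (hg n).1
    have h1 := hk' 0
    rw [(hg n).2.1] at h1
    have h2 := h1.unique hdim h.sub (hc₁.mem _ hx1) hk
    rw [← h2]; exact hk' t
  have hd0 : ∀ n, deriv (G1 Φ ψ₁ (x.1, w n)) 0 ≠ 0 := by
    intro n
    rw [(hg n).2.2]
    exact fun h0 => hW.ne n (hc₁.inj _ hx1 (by rw [h0, map_zero]))
  -- the Jacobi fields
  have key : ∀ n u, ∃ a : ℝ, ∃ v : E, fderiv ℝ ζ x (0, u) = v + a • deriv (G1 Φ ψ₁ (x.1, w n)) (s n) ∧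
      (⟪v, v⟫_ℝ * ⟪deriv (G1 Φ ψ₁ (x.1, w n)) 0, deriv (G1 Φ ψ₁ (x.1, w n)) 0⟫_ℝ
        - ⟪v, deriv (G1 Φ ψ₁ (x.1, w n)) (s n)⟫_ℝ ^ 2) *
        Real.sinh (√(-k₀) * ‖deriv (G1 Φ ψ₁ (x.1, w n)) 0‖) ^ 2
      = (⟪fderiv ℝ ψ₂ x.2 u, fderiv ℝ ψ₂ x.2 u⟫_ℝ *
          ⟪deriv (G1 Φ ψ₁ (x.1, w n)) 0, deriv (G1 Φ ψ₁ (x.1, w n)) 0⟫_ℝ
        - ⟪fderiv ℝ ψ₂ x.2 u, deriv (G1 Φ ψ₁ (x.1, w n)) 1⟫_ℝ ^ 2) *
        Real.sinh (√(-k₀) * ‖deriv (G1 Φ ψ₁ (x.1, w n)) 0‖ * s n) ^ 2 := by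
    intro n u
    obtain ⟨hF, hV0, hV1, a, ha⟩ := (hl n).fam h hc₁.toPar hc₂.toPar (hxO n) u
    have hG0 : (fun e t => cF Φ ψ₁ (κ n) (x.1, x.2 + e • u) t : ℝ → ℝ → E) 0
        = G1 Φ ψ₁ (x.1, w n) := by
      show cF Φ ψ₁ (κ n) (x.1, x.2 + (0 : ℝ) • u) = _
      rw [zero_smul, add_zero]; exact hcx n
    have hr := hF.sol_neg_ratio hdim h.sub (k₀ := k₀) (fun t => by
      show CurvAt S ((fun e t => cF Φ ψ₁ (κ n) (x.1, x.2 + e • u) t : ℝ → ℝ → E) 0 t) k₀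
      rw [hG0]; exact hkn n t) hV0 hk0 (s n)
    rw [hθ] at ha
    rw [hcx] at ha
    refine ⟨a, _, ha, ?_⟩
    have hG0' : (fun t => cF Φ ψ₁ (κ n) (x.1, x.2 + (0 : ℝ) • u) t) = G1 Φ ψ₁ (x.1, w n) := hG0
    rw [jf, jf, hV1] at hr
    rw [hG0'] at hr
    exact hr
  -- the derivative of `ζ` in the second variable
  set L : ℝ × ℝ →L[ℝ] E := (fderiv ℝ ζ x) ∘L (ContinuousLinearMap.inr ℝ (ℝ × ℝ) (ℝ × ℝ)) with hL
  have hLu : ∀ u, L u = fderiv ℝ ζ x (0, u) := fun u => rfl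
  have hgram : ∀ n u, (⟪L u, L u⟫_ℝ * ⟪deriv (G1 Φ ψ₁ (x.1, w n)) 0, deriv (G1 Φ ψ₁ (x.1, w n)) 0⟫_ℝ
        - ⟪L u, deriv (G1 Φ ψ₁ (x.1, w n)) (s n)⟫_ℝ ^ 2) *
        Real.sinh (√(-k₀) * ‖deriv (G1 Φ ψ₁ (x.1, w n)) 0‖) ^ 2
      = (⟪fderiv ℝ ψ₂ x.2 u, fderiv ℝ ψ₂ x.2 u⟫_ℝ *
          ⟪deriv (G1 Φ ψ₁ (x.1, w n)) 0, deriv (G1 Φ ψ₁ (x.1, w n)) 0⟫_ℝ
        - ⟪fderiv ℝ ψ₂ x.2 u, deriv (G1 Φ ψ₁ (x.1, w n)) 1⟫_ℝ ^ 2) *
        Real.sinh (√(-k₀) * ‖deriv (G1 Φ ψ₁ (x.1, w n)) 0‖ * s n) ^ 2 := by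
    intro n u
    obtain ⟨a, v, hv, hr⟩ := key n u
    rw [← hr, hLu, hv]
    congr 1
    have h1 : ⟪deriv (G1 Φ ψ₁ (x.1, w n)) (s n), deriv (G1 Φ ψ₁ (x.1, w n)) (s n)⟫_ℝ
        = ⟪deriv (G1 Φ ψ₁ (x.1, w n)) 0, deriv (G1 Φ ψ₁ (x.1, w n)) 0⟫_ℝ := by
      rw [real_inner_self_eq_norm_sq, real_inner_self_eq_norm_sq, (hg n).1.speed (s n) 0]
    simp only [inner_add_left, inner_add_right, inner_smul_left, inner_smul_right,
      RCLike.conj_to_real, h1, real_inner_comm v (deriv (G1 Φ ψ₁ (x.1, w n)) (s n))]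
    ring
  -- injectivity
  obtain ⟨U, hU, f, hf⟩ := h.sub z hzS
  obtain ⟨Ω₃, ψ₃, P₃, W₃, hc₃, hzW⟩ := exists_chart hdim hf hU hzS
  set O' : Set Pt := (O 0 ∩ (O 1 ∩ O 2)) ∩ ζ ⁻¹' W₃ with hO'
  have hζc : ContDiffOn ℝ ∞ ζ (O 0 ∩ (O 1 ∩ O 2)) :=
    ((hl 0).smooth_ζ h hc₁.toPar).mono inter_subset_left
  have hO3 : IsOpen (O 0 ∩ (O 1 ∩ O 2)) :=
    (hl 0).isOpen.inter ((hl 1).isOpen.inter (hl 2).isOpen)
  have hO'o : IsOpen O' := hζc.continuousOn.isOpen_inter_preimage hO3 hc₃.W_open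
  have hxO' : x ∈ O' := ⟨⟨hxO 0, hxO 1, hxO 2⟩, by show ζ x ∈ W₃; rw [hζx]; exact hzW⟩
  set Z : Pt → ℝ × ℝ := fun y => P₃ (ζ y) with hZ
  have hZsm : ContDiffOn ℝ ∞ Z O' :=
    P₃.contDiff.comp_contDiffOn (hζc.mono inter_subset_left)
  have hthr := fun n => (hl n).through h hc₁ hc₂ hc₃ (hxO n) (by rw [hζx]; exact hzW)
    (by rw [hκ]; exact hW.ne n)
  have hζd : HasFDerivAt ζ (fderiv ℝ ζ x) x :=
    hasFDerivAt_of_open (hl 0).isOpen ((hl 0).smooth_ζ h hc₁.toPar) (hxO 0)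
  have hZd : ∀ u, fderiv ℝ Z x (0, u) = P₃ (L u) := by
    intro u
    have h1 : HasFDerivAt Z (P₃ ∘L fderiv ℝ ζ x) x := P₃.hasFDerivAt.comp x hζd
    rw [h1.fderiv]; rfl
  have hry : (∀ v, fderiv ℝ Z x (0, v) = 0) ∨
      Function.Injective fun v => fderiv ℝ Z x (0, v) := by
    refine rank_y hO'o hZsm hxO' _ _ _ _ (fun k : Fin 3 => (hthr k).1) ?_ ?_
    · intro i j hij
      have hij' : (i : ℕ) ≠ (j : ℕ) := fun he => hij (Fin.ext he)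
      rw [(hthr i).2.2.1, (hthr j).2.2.1, hκ, hκ]
      have hi1 := (hW.cfg i).2.2.1
      have hj1 := (hW.cfg j).2.2.1
      have t1 := (hg i).1.mem_TSet 1
      have t2 := (hg j).1.mem_TSet 1
      rw [hi1] at t1
      rw [hj1] at t2
      exact om0_ne hc₂ (hc₂.maps _ hx2) t1 t2 (hW.ind i j hij' 1 1 (by rw [hi1, hj1]))
    · intro i j hij
      have hij' : (i : ℕ) ≠ (j : ℕ) := fun he => hij (Fin.ext he)
      rw [(hthr i).2.2.2, (hthr j).2.2.2, hκ, hκ, hθ, hθ]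
      have t1 := (hg i).1.mem_TSet (s i)
      have t2 := (hg j).1.mem_TSet (s j)
      rw [hW.pass] at t1 t2
      exact om0_ne hc₃ hzW t1 t2 (hW.ind i j hij' _ _ (by rw [hW.pass, hW.pass]))
  have hκ0 : 0 < √(-k₀) := Real.sqrt_pos.2 (by linarith)
  have hLinj : Function.Injective L := by
    have h1 : Function.Injective fun v => fderiv ℝ Z x (0, v) := by
      refine hry.resolve_left fun h0 => ?_
      set c := G1 Φ ψ₁ (x.1, w 0) with hc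
      have hc1 : c 1 = ψ₂ x.2 := (hW.cfg 0).2.2.1
      have t1 := (hg 0).1.mem_TSet 1
      rw [← hc, hc1] at t1
      have hv := (hc₂.of_TSet (hc₂.maps _ hx2) t1).2.2
      rw [hc₂.left _ hx2] at hv
      set v := P₂ (deriv c 1) with hvdef
      have hv0 : v ≠ 0 := by
        intro h1
        rw [h1, map_zero] at hv
        exact (hg 0).1.deriv_ne S (hd0 0) 1 hv.symm
      have hpos : 0 < v.1 ^ 2 + v.2 ^ 2 := by
        rcases eq_or_ne v.1 0 with h1 | h1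
        · have h2 : v.2 ≠ 0 := fun h2 => hv0 (Prod.ext h1 h2)
          positivity
        · positivity
      set u : ℝ × ℝ := (-v.2, v.1) with hu
      have h2 := hgram 0 u
      rw [← hc] at h2
      have hL0 : L u = 0 := by
        have h3 : P₃ (L u) = 0 := by rw [← hZd]; exact h0 u
        have h4 : (ζ x, L u) ∈ TSet S := by
          refine mem_TSet_of_map h.sub hζd.differentiableAt ?_ (0, u)
          filter_upwards [(hl 0).isOpen.mem_nhds (hxO 0)] with y hy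
          rw [← (hl 0).cross y hy]
          exact h.mem_G1 hc₁.toPar ((hl 0).mem y hy).1 _ _
        have h5 := (hc₃.of_TSet (by rw [hζx]; exact hzW) h4).2.2
        rw [h3, map_zero] at h5
        exact h5.symm
      have h3 : ⟪deriv c 0, deriv c 0⟫_ℝ = ⟪deriv c 1, deriv c 1⟫_ℝ := by
        rw [real_inner_self_eq_norm_sq, real_inner_self_eq_norm_sq, (hg 0).1.speed 0 1]
      rw [hL0, inner_zero_left, inner_zero_left, zero_mul, zero_pow (by norm_num), sub_zero, zero_mul,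
        h3, ← hv, gram_eq] at h2
      have h4 : 0 < ((u.1 * v.2 - u.2 * v.1) ^ 2 * gD ψ₂ x.2) := by
        refine mul_pos ?_ (hc₂.gD_pos hx2)
        have : u.1 * v.2 - u.2 * v.1 = -(v.1 ^ 2 + v.2 ^ 2) := by
          show -v.2 * v.2 - v.1 * v.1 = _
          ring
        rw [this, neg_sq]; exact pow_pos hpos 2
      have h5 : 0 < Real.sinh (√(-k₀) * ‖deriv c 0‖ * s 0) := by
        refine Real.sinh_pos_iff.2 (mul_pos (mul_pos hκ0 (norm_pos_iff.2 (hd0 0))) (hW.time 0).1)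
      have h6 : 0 < ((u.1 * v.2 - u.2 * v.1) ^ 2 * gD ψ₂ x.2)
          * Real.sinh (√(-k₀) * ‖deriv c 0‖ * s 0) ^ 2 := by positivity
      exact h6.ne h2
    intro u u' huu
    refine h1 ?_
    show fderiv ℝ Z x (0, u) = fderiv ℝ Z x (0, u')
    rw [hZd, hZd, huu]
  obtain ⟨C₁, hC₁0, hC₁⟩ := LinearMap.exists_antilipschitzWith L.toLinearMap
    (LinearMap.ker_eq_bot.2 hLinj)
  have hanti : ∀ u, ‖u‖ ≤ C₁ * ‖L u‖ := by
    intro u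
    have h1 := hC₁.le_mul_dist u 0
    rw [dist_zero_right] at h1
    have h2 : L.toLinearMap 0 = 0 := map_zero _
    rw [h2, dist_zero_right] at h1
    exact h1
  set C₂ : ℝ := ‖fderiv ℝ ψ₂ x.2‖ with hC₂
  set Q : ℝ := C₁ * C₂ + 1 with hQ
  have hC₂0 : 0 ≤ C₂ := norm_nonneg _
  have hQ0 : 0 < Q := by
    have : 0 ≤ (C₁ : ℝ) * C₂ := mul_nonneg C₁.2 hC₂0
    linarith
  obtain ⟨n, hn⟩ := hW.long h hsec hc₁.toPar hc₂.toPar hzS (Real.log Q / √(-k₀))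
  rw [← (hg n).2.2] at hn
  set c := G1 Φ ψ₁ (x.1, w n) with hc
  set l : ℝ := ‖deriv c 0‖ with hldef
  have hl0 : 0 < l := norm_pos_iff.2 (hd0 n)
  have hn' : Real.log Q < √(-k₀) * l * (1 - s n) := by
    rw [div_lt_iff₀ hκ0] at hn
    calc Real.log Q < (1 - s n) * l * √(-k₀) := hn
      _ = _ := by ring
  have hexp : Real.exp (-(√(-k₀) * l * (1 - s n))) * Q < 1 := by
    have h1 : Real.exp (-(√(-k₀) * l * (1 - s n))) < Real.exp (-(Real.log Q)) :=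
      Real.exp_lt_exp.2 (by linarith)
    rw [Real.exp_neg (Real.log Q), Real.exp_log hQ0] at h1
    calc _ < Q⁻¹ * Q := mul_lt_mul_of_pos_right h1 hQ0
      _ = 1 := inv_mul_cancel₀ hQ0.ne'
  -- a direction orthogonal to the geodesic
  obtain ⟨u, hu0, hu⟩ : ∃ u : ℝ × ℝ, u ≠ 0 ∧ ⟪L u, deriv c (s n)⟫_ℝ = 0 := by
    by_cases h1 : ⟪L (1, 0), deriv c (s n)⟫_ℝ = 0
    · exact ⟨(1, 0), fun h0 => one_ne_zero (congrArg Prod.fst h0), h1⟩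
    · refine ⟨(-⟪L (0, 1), deriv c (s n)⟫_ℝ, ⟪L (1, 0), deriv c (s n)⟫_ℝ),
        fun h0 => h1 (congrArg Prod.snd h0), ?_⟩
      rw [pair_eq (-⟪L (0, 1), deriv c (s n)⟫_ℝ, ⟪L (1, 0), deriv c (s n)⟫_ℝ), map_add, map_smul,
        map_smul, inner_add_left, inner_smul_left, inner_smul_left]
      simp only [RCLike.conj_to_real]
      ring
  have h1 := hgram n u
  rw [← hc] at h1
  rw [hu, zero_pow (by norm_num), sub_zero, ← hldef] at h1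
  obtain ⟨hs1, hs2⟩ := sinh_le (κ := √(-k₀) * l) (mul_nonneg hκ0.le hl0.le) (hW.time n).1.le
    (hW.time n).2.le
  set e : ℝ := Real.exp (-(√(-k₀) * l * (1 - s n))) with he
  have he0 : 0 < e := Real.exp_pos _
  set sh : ℝ := Real.sinh (√(-k₀) * l) with hsh
  have hsh0 : 0 < sh := Real.sinh_pos_iff.2 (mul_pos hκ0 hl0)
  set st : ℝ := Real.sinh (√(-k₀) * l * s n) with hst
  rw [real_inner_self_eq_norm_sq, real_inner_self_eq_norm_sq, real_inner_self_eq_norm_sq,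
    ← hldef] at h1
  have h2 : ‖fderiv ℝ ψ₂ x.2 u‖ ≤ C₂ * ‖u‖ := (fderiv ℝ ψ₂ x.2).le_opNorm u
  have hLpos : 0 < ‖L u‖ := norm_pos_iff.2 fun h0 => hu0 (hLinj (by rw [h0, map_zero]))
  have h3 : (‖L u‖ * l * sh) ^ 2 ≤ (C₂ * ‖u‖ * l * (e * sh)) ^ 2 := by
    calc (‖L u‖ * l * sh) ^ 2 = ‖L u‖ ^ 2 * l ^ 2 * sh ^ 2 := by ring
      _ = (‖fderiv ℝ ψ₂ x.2 u‖ ^ 2 * l ^ 2 - ⟪fderiv ℝ ψ₂ x.2 u, deriv c 1⟫_ℝ ^ 2) * st ^ 2 := h1
      _ ≤ (‖fderiv ℝ ψ₂ x.2 u‖ ^ 2 * l ^ 2) * st ^ 2 := by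
        apply mul_le_mul_of_nonneg_right _ (sq_nonneg _)
        have := sq_nonneg ⟪fderiv ℝ ψ₂ x.2 u, deriv c 1⟫_ℝ
        linarith
      _ = (‖fderiv ℝ ψ₂ x.2 u‖ * l * st) ^ 2 := by ring
      _ ≤ (C₂ * ‖u‖ * l * (e * sh)) ^ 2 := by
        have h5 : ‖fderiv ℝ ψ₂ x.2 u‖ * l * st ≤ C₂ * ‖u‖ * l * (e * sh) :=
          mul_le_mul (mul_le_mul_of_nonneg_right h2 hl0.le) hs2 hs1 (by positivity)
        have h6 : 0 ≤ ‖fderiv ℝ ψ₂ x.2 u‖ * l * st := by positivity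
        exact pow_le_pow_left₀ h6 h5 2
  have h4 : ‖L u‖ * l * sh ≤ C₂ * ‖u‖ * l * (e * sh) :=
    (pow_le_pow_iff_left₀ (by positivity) (by positivity) two_ne_zero).1 h3
  have h5 : ‖L u‖ ≤ C₂ * ‖u‖ * e := by
    have h6 : ‖L u‖ * (l * sh) ≤ (C₂ * ‖u‖ * e) * (l * sh) := by
      calc ‖L u‖ * (l * sh) = ‖L u‖ * l * sh := by ring
        _ ≤ _ := h4
        _ = _ := by ring
    exact le_of_mul_le_mul_right h6 (by positivity)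
  have h6 : ‖L u‖ ≤ ‖L u‖ * (e * (C₁ * C₂)) := by
    calc ‖L u‖ ≤ C₂ * ‖u‖ * e := h5
      _ ≤ C₂ * (C₁ * ‖L u‖) * e := by
        apply mul_le_mul_of_nonneg_right _ he0.le
        exact mul_le_mul_of_nonneg_left (hanti u) (norm_nonneg _)
      _ = _ := by ring
  have h7 : e * (C₁ * C₂) < 1 := by
    have h8 : e * (C₁ * C₂) < e * Q := mul_lt_mul_of_pos_left (by rw [hQ]; linarith) he0
    linarith
  have h8 : ‖L u‖ * (e * (C₁ * C₂)) < ‖L u‖ * 1 := mul_lt_mul_of_pos_left h7 hLpos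
  linarith

end Pool.Agent.H91.GE
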