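import Pool.Agent.H91.GS.Loops

/-!
# Nondegenerate times are dense on every geodesic
-/

set_option autoImplicit false

open scoped InnerProductSpace Topology ContDiff
open Set Filter

namespace Pool.Agent.H91.GE

variable {E F : Type*} [NormedAddCommGroup E] [InnerProductSpace ℝ E] [FiniteDimensional ℝ E]
  [NormedAddCommGroup F] [InnerProductSpace ℝ F] [FiniteDimensional ℝ F]
  {S : Set E} {A : E × E → E} {K K₂ : NNReal} {Φ : ℝ → E × E → E × E}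

theorem GFlow.inj_fderiv (h : GFlow F S A K K₂ Φ) (t : ℝ) (w : E × E) :
    Function.Injective (fderiv ℝ (Φ t) w) := by
  intro ξ η hξ
  have h1 : ∀ ζ, fderiv ℝ (Φ (-t)) (Φ t w) (fderiv ℝ (Φ t) w ζ) = ζ := by
    intro ζ
    rw [← h.flow.fderiv_add h.vf (-t) t w ζ, neg_add_cancel]
    have h2 : Φ 0 = id := funext h.flow.zero
    rw [h2, fderiv_id]; rfl
  rw [← h1 ξ, ← h1 η, hξ]

theorem GFlow.fderiv_XF (h : GFlow F S A K K₂ Φ) (t : ℝ) (w : E × E) :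
    fderiv ℝ (Φ t) w (XF A w) = XF A (Φ t w) := by
  have h1 : HasDerivAt (fun s => Φ t (Φ s w)) (fderiv ℝ (Φ t) w (XF A w)) 0 := by
    have h2 : HasFDerivAt (Φ t) (fderiv ℝ (Φ t) w) (Φ 0 w) := by
      rw [h.flow.zero]; exact (h.flow.differentiable h.vf t w).hasFDerivAt
    have h3 := h.flow.deriv 0 w
    rw [h.flow.zero] at h3
    exact h2.comp_hasDerivAt (0 : ℝ) h3
  have h4 : HasDerivAt (fun s => Φ (t + s) w) (XF A (Φ t w)) 0 := by
    have h5 : HasDerivAt (fun s : ℝ => t + s) 1 0 := (hasDerivAt_id (0 : ℝ)).const_add t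
    have h6 : HasDerivAt (fun s => Φ (t + s) w) ((1 : ℝ) • XF A (Φ t w)) 0 :=
      HasDerivAt.scomp (g₁ := fun s => Φ s w) (h := fun s => t + s) (0 : ℝ)
        (by rw [add_zero]; exact h.flow.deriv t w) h5
    simpa using h6
  have h6 : (fun s => Φ (t + s) w) = fun s => Φ t (Φ s w) := funext fun s => h.flow.add h.vf t s w
  rw [h6] at h4
  exact h1.unique h4

theorem GFlow.fderiv_scale (h : GFlow F S A K K₂ Φ) {q v : E} (hv : (q, v) ∈ TSet S)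
    (hv2 : ‖v‖ < 2) (t : ℝ) : fderiv ℝ (Φ t) (q, v) (0, v)
      = (t • (Φ t (q, v)).2, (Φ t (q, v)).2 + t • A (Φ t (q, v))) := by
  obtain ⟨hg, hg'⟩ := h.isGeo hv hv2.le
  have h0 : (Φ 0 (q, v)).1 = q := by rw [h.flow.zero]
  have h0' : (Φ 0 (q, v)).2 = v := by rw [h.flow.zero]
  -- the curve
  have h1 : HasDerivAt (fun s : ℝ => ((q, (1 + s) • v) : E × E)) (0, v) 0 := by
    have h2 : HasDerivAt (fun s : ℝ => (1 + s) • v) ((1 : ℝ) • v) 0 :=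
      ((hasDerivAt_id (0 : ℝ)).const_add 1).smul_const v
    rw [one_smul] at h2
    exact (hasDerivAt_const (0 : ℝ) q).prodMk h2
  have h2 : HasDerivAt (fun s : ℝ => Φ t (q, (1 + s) • v)) (fderiv ℝ (Φ t) (q, v) (0, v)) 0 := by
    have h3 : HasFDerivAt (Φ t) (fderiv ℝ (Φ t) (q, v)) (q, (1 + (0 : ℝ)) • v) := by
      rw [add_zero, one_smul]; exact (h.flow.differentiable h.vf t _).hasFDerivAt
    exact h3.comp_hasDerivAt (0 : ℝ) h1
  have h3 : (fun s : ℝ => Φ t (q, (1 + s) • v)) =ᶠ[𝓝 0]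
      fun s => ((Φ ((1 + s) * t) (q, v)).1, (1 + s) • (Φ ((1 + s) * t) (q, v)).2) := by
    have hc : ContinuousAt (fun s : ℝ => ‖(1 + s) • v‖) 0 := by fun_prop
    have hev : ∀ᶠ s : ℝ in 𝓝 0, ‖(1 + s) • v‖ < 2 := by
      refine hc.eventually_lt_const ?_
      show ‖(1 + (0 : ℝ)) • v‖ < 2
      rw [add_zero, one_smul]; exact hv2
    filter_upwards [hev] with s hs
    have h4 := hg.affine 0 (1 + s)
    have h5 := deriv_affine hg 0 (1 + s)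
    rw [hg'] at h5
    have h6 : deriv (fun t => (Φ (0 + (1 + s) * t) (q, v)).1) 0 = (1 + s) • v := by
      rw [h5]
      show (1 + s) • (Φ (0 + (1 + s) * 0) (q, v)).2 = _
      rw [mul_zero, add_zero, h0']
    have h7 := h.of_geo h4 (by rw [h6]; exact hs.le) t
    rw [h6] at h7
    rw [h5] at h7
    simp only [mul_zero, add_zero, h0, zero_add] at h7
    exact h7.symm
  have h4 : HasDerivAt (fun s : ℝ => Φ ((1 + s) * t) (q, v)) (t • XF A (Φ t (q, v))) 0 := by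
    have h5 : HasDerivAt (fun s : ℝ => (1 + s) * t) t 0 := by
      simpa using ((hasDerivAt_id (0 : ℝ)).const_add 1).mul_const t
    exact HasDerivAt.scomp (g₁ := fun r => Φ r (q, v)) (h := fun s : ℝ => (1 + s) * t) (0 : ℝ)
      (by rw [add_zero, one_mul]; exact h.flow.deriv t _) h5
  have h5 : HasDerivAt (fun s : ℝ => (Φ ((1 + s) * t) (q, v)).1) (t • (Φ t (q, v)).2) 0 :=
    (ContinuousLinearMap.fst ℝ E E).hasFDerivAt.comp_hasDerivAt (0 : ℝ) h4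
  have h6 : HasDerivAt (fun s : ℝ => (Φ ((1 + s) * t) (q, v)).2) (t • A (Φ t (q, v))) 0 :=
    (ContinuousLinearMap.snd ℝ E E).hasFDerivAt.comp_hasDerivAt (0 : ℝ) h4
  have h7 : HasDerivAt (fun s : ℝ => (1 + s) • (Φ ((1 + s) * t) (q, v)).2)
      ((1 + (0 : ℝ)) • (t • A (Φ t (q, v))) + (1 : ℝ) • (Φ ((1 + (0 : ℝ)) * t) (q, v)).2) 0 :=
    ((hasDerivAt_id (0 : ℝ)).const_add 1).smul h6
  rw [add_zero, one_smul, one_smul, one_mul] at h7
  have h8 := (h5.prodMk h7).congr_of_eventuallyEq h3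
  rw [h2.unique h8, add_comm (Φ t (q, v)).2]

variable {Ω : Set (ℝ × ℝ)} {ψ : ℝ × ℝ → E}

theorem GFlow.nondeg_of (h : GFlow F S A K K₂ Φ) (hp : Par S Ω ψ) {p : ℝ × ℝ} (hpΩ : p ∈ Ω)
    {w : ℝ × ℝ} (hw2 : ‖fderiv ℝ ψ p w‖ < 2) {t : ℝ} (ht : t ≠ 0)
    (hinj : ∀ b, (fderiv ℝ (Φ t) (ψ p, fderiv ℝ ψ p w) (0, fderiv ℝ ψ p b)).1 = 0 → b = 0) :
    Nondeg Φ ψ p (t • w) := by
  have key : ∀ b, fderiv ℝ (G11 Φ ψ) (p, t • w) (0, b) = 0 → b = 0 := by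
    intro b hb
    have h1 : HasDerivAt (fun s : ℝ => ((p, t • w + s • b) : (ℝ × ℝ) × (ℝ × ℝ))) (0, b) 0 := by
      have h3 : HasDerivAt (fun s : ℝ => t • w + s • b) b 0 := by
        simpa using ((hasDerivAt_id (0 : ℝ)).smul_const b).const_add (t • w)
      exact (hasDerivAt_const (0 : ℝ) p).prodMk h3
    have h2 : HasDerivAt (fun s : ℝ => G11 Φ ψ (p, t • w + s • b)) 0 0 := by
      have h3 : HasFDerivAt (G11 Φ ψ) (fderiv ℝ (G11 Φ ψ) (p, t • w)) (p, t • w + (0 : ℝ) • b) := by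
        rw [zero_smul, add_zero]
        exact ((h.contDiffAt_G11 hp (y := (p, t • w)) hpΩ).differentiableAt (by simp)).hasFDerivAt
      have h4 := h3.comp_hasDerivAt (0 : ℝ) h1
      rw [hb] at h4
      exact h4
    set v := fderiv ℝ ψ p w with hv
    set u := fderiv ℝ ψ p (t⁻¹ • b) with hu
    have h3 : HasDerivAt (fun s : ℝ => ((ψ p, v + s • u) : E × E)) (0, u) 0 := by
      have h4 : HasDerivAt (fun s : ℝ => v + s • u) u 0 := by
        simpa using ((hasDerivAt_id (0 : ℝ)).smul_const u).const_add v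
      exact (hasDerivAt_const (0 : ℝ) (ψ p)).prodMk h4
    have h4 : HasDerivAt (fun s : ℝ => (Φ t (ψ p, v + s • u)).1)
        (fderiv ℝ (Φ t) (ψ p, v) (0, u)).1 0 := by
      have h5 : HasFDerivAt (Φ t) (fderiv ℝ (Φ t) (ψ p, v)) (ψ p, v + (0 : ℝ) • u) := by
        rw [zero_smul, add_zero]; exact (h.flow.differentiable h.vf t _).hasFDerivAt
      exact (ContinuousLinearMap.fst ℝ E E).hasFDerivAt.comp_hasDerivAt (0 : ℝ)
        (h5.comp_hasDerivAt (0 : ℝ) h3)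
    have h5 : (fun s : ℝ => G11 Φ ψ (p, t • w + s • b)) =ᶠ[𝓝 0]
        fun s : ℝ => (Φ t (ψ p, v + s • u)).1 := by
      have hc : ContinuousAt (fun s : ℝ => ‖v + s • u‖) 0 := by fun_prop
      have hev : ∀ᶠ s : ℝ in 𝓝 0, ‖v + s • u‖ < 2 := by
        refine hc.eventually_lt_const ?_
        show ‖v + (0 : ℝ) • u‖ < 2
        rw [zero_smul, add_zero]; exact hw2
      filter_upwards [hev] with s hs
      have h6 : t • w + s • b = t • (w + s • (t⁻¹ • b)) := by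
        rw [smul_add, smul_comm t s (t⁻¹ • b), smul_smul t t⁻¹ b, mul_inv_cancel₀ ht, one_smul]
      have h7 : fderiv ℝ ψ p (w + s • (t⁻¹ • b)) = v + s • u := by
        rw [map_add, map_smul]
      have h8 : (ψ p, v + s • u) ∈ TSet S := by
        rw [← h7]; exact hp.mem_TSet h.sub hpΩ _
      show Geo Φ (ψ p) (fderiv ℝ ψ p (t • w + s • b)) 1 = _
      rw [h6, map_smul, h7, h.Geo_smul h8, mul_one]
      have h9 := (h.Geo_eq h8 one_pos (by linarith) t).1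
      rw [h9, one_mul, inv_one, one_smul]
    have h6 := h2.unique (h4.congr_of_eventuallyEq h5)
    have h7 := hinj _ h6.symm
    have h8 := congrArg (fun x => t • x) h7
    simp only [smul_smul, mul_inv_cancel₀ ht, one_smul, smul_zero] at h8
    exact h8
  intro b b' hbb
  have h1 : fderiv ℝ (G11 Φ ψ) (p, t • w) (0, b - b') = 0 := by
    have h2 : ((0 : ℝ × ℝ), b - b') = (0, b) - (0, b') := by simp
    have h3 : fderiv ℝ (G11 Φ ψ) (p, t • w) (0, b) = fderiv ℝ (G11 Φ ψ) (p, t • w) (0, b') := hbb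
    rw [h2, map_sub, h3, sub_self]
  exact sub_eq_zero.1 (key _ h1)

theorem fderiv_XF_apply {A : E × E → E} (hA : ContDiff ℝ ∞ A) (z ζ : E × E) :
    fderiv ℝ (XF A) z ζ = (ζ.2, fderiv ℝ A z ζ) := by
  have h2 : HasFDerivAt (XF A) ((ContinuousLinearMap.snd ℝ E E).prod (fderiv ℝ A z)) z :=
    (ContinuousLinearMap.snd ℝ E E).hasFDerivAt.prodMk (hA.differentiable (by simp) z).hasFDerivAt
  rw [h2.fderiv]; rfl

theorem GFlow.exists_nondeg (h : GFlow F S A K K₂ Φ) (hp : Par S Ω ψ) {p : ℝ × ℝ} (hpΩ : p ∈ Ω)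
    {w : ℝ × ℝ} (hw0 : w ≠ 0) (hw2 : ‖fderiv ℝ ψ p w‖ < 2) {I : Set ℝ} (hI : IsOpen I)
    (hne : I.Nonempty) : ∃ t ∈ I, t ≠ 0 ∧ Nondeg Φ ψ p (t • w) := by
  by_contra hcon
  push Not at hcon
  set v := fderiv ℝ ψ p w with hv
  have hv0 : v ≠ 0 := fun h0 => hw0 (hp.inj p hpΩ (by rw [← hv, h0, map_zero]))
  have hvT : (ψ p, v) ∈ TSet S := hp.mem_TSet h.sub hpΩ w
  set w₀ : E × E := (ψ p, v) with hw₀
  have hspeed : ∀ t, ‖(Φ t w₀).2‖ = ‖v‖ := fun t => (h.mem hvT hw2.le t).2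
  have hv2 : ‖v‖ ^ 2 ≠ 0 := pow_ne_zero 2 (norm_ne_zero_iff.2 hv0)
  obtain ⟨t₀, ht₀⟩ : (I ∩ {0}ᶜ).Nonempty := (dense_compl_singleton (0 : ℝ)).inter_open_nonempty I hI hne
  have hJo : IsOpen (I ∩ {(0 : ℝ)}ᶜ) := hI.inter isOpen_compl_singleton
  set b₀ : ℝ × ℝ := (-w.2, w.1) with hb₀
  have hww : 0 < w.1 ^ 2 + w.2 ^ 2 := by
    rcases eq_or_ne w.1 0 with h1 | h1
    · have h2 : w.2 ≠ 0 := fun h2 => hw0 (Prod.ext h1 h2)
      positivity
    · positivity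
  set ξ : E × E := (0, fderiv ℝ ψ p b₀) with hξ
  let J : ℝ → E := fun t => (fderiv ℝ (Φ t) w₀ ξ).1
  let μ : ℝ → ℝ := fun t => ⟪(Φ t w₀).2, J t⟫_ℝ / ‖v‖ ^ 2
  have hJμ : ∀ t ∈ I ∩ {(0 : ℝ)}ᶜ, J t = μ t • (Φ t w₀).2 := by
    intro t ht
    have ht0 : t ≠ 0 := ht.2
    have h1 : ∃ b, (fderiv ℝ (Φ t) w₀ (0, fderiv ℝ ψ p b)).1 = 0 ∧ b ≠ 0 := by
      by_contra h2
      push Not at h2
      exact hcon t ht.1 ht0 (h.nondeg_of hp hpΩ hw2 ht0 h2)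
    obtain ⟨b, hb, hbne⟩ := h1
    obtain ⟨α, β, hαβ⟩ : ∃ α β : ℝ, b = α • w + β • b₀ := by
      refine ⟨(b.1 * w.1 + b.2 * w.2) / (w.1 ^ 2 + w.2 ^ 2),
        (-b.1 * w.2 + b.2 * w.1) / (w.1 ^ 2 + w.2 ^ 2), ?_⟩
      refine Prod.ext ?_ ?_
      · show b.1 = (b.1 * w.1 + b.2 * w.2) / (w.1 ^ 2 + w.2 ^ 2) * w.1
          + (-b.1 * w.2 + b.2 * w.1) / (w.1 ^ 2 + w.2 ^ 2) * (-w.2)
        field_simp; ring
      · show b.2 = (b.1 * w.1 + b.2 * w.2) / (w.1 ^ 2 + w.2 ^ 2) * w.2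
          + (-b.1 * w.2 + b.2 * w.1) / (w.1 ^ 2 + w.2 ^ 2) * w.1
        field_simp; ring
    have h2 : ((0 : E), fderiv ℝ ψ p b) = α • ((0 : E), v) + β • ξ := by
      rw [hαβ, map_add, map_smul, map_smul]
      refine Prod.ext ?_ ?_
      · show (0 : E) = α • 0 + β • 0
        simp
      · rfl
    rw [h2, map_add, map_smul, map_smul, h.fderiv_scale hvT hw2] at hb
    have h3 : α • (t • (Φ t w₀).2) + β • J t = 0 := hb
    have hγ : (Φ t w₀).2 ≠ 0 := by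
      rw [← norm_ne_zero_iff, hspeed]; exact norm_ne_zero_iff.2 hv0
    have hβ : β ≠ 0 := by
      intro hβ
      rw [hβ, zero_smul, add_zero, smul_smul] at h3
      have h4 := (smul_eq_zero.1 h3).resolve_right hγ
      have h5 : α = 0 := (mul_eq_zero.1 h4).resolve_right ht0
      exact hbne (by rw [hαβ, h5, hβ]; simp)
    have h4 : J t = (-(β⁻¹ * (α * t))) • (Φ t w₀).2 := by
      have h5 : β • J t = -(α • (t • (Φ t w₀).2)) := by
        rw [add_comm] at h3; exact eq_neg_of_add_eq_zero_left h3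
      have h6 := congrArg (fun x => β⁻¹ • x) h5
      simp only [smul_smul, inv_mul_cancel₀ hβ, one_smul, smul_neg] at h6
      rw [h6, neg_smul]
    have h5 : μ t = -(β⁻¹ * (α * t)) := by
      show ⟪(Φ t w₀).2, J t⟫_ℝ / ‖v‖ ^ 2 = _
      rw [h4, real_inner_smul_right, real_inner_self_eq_norm_sq, hspeed]
      field_simp
    rw [h5]; exact h4
  -- derivatives at `t₀`
  set D := fderiv ℝ (Φ t₀) w₀ with hD
  have hA : ContDiff ℝ ∞ A := h.field.smooth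
  have d1 : HasDerivAt (fun t => fderiv ℝ (Φ t) w₀ ξ) (fderiv ℝ (XF A) (Φ t₀ w₀) (D ξ)) t₀ :=
    h.flow.deriv_fderiv h.vf w₀ ξ t₀
  have d2 : HasDerivAt J (D ξ).2 t₀ := by
    have h1 := (ContinuousLinearMap.fst ℝ E E).hasFDerivAt.comp_hasDerivAt t₀ d1
    rw [fderiv_XF_apply hA] at h1
    exact h1
  have d3 : HasDerivAt (fun t => (Φ t w₀).2) (A (Φ t₀ w₀)) t₀ :=
    (ContinuousLinearMap.snd ℝ E E).hasFDerivAt.comp_hasDerivAt t₀ (h.flow.deriv t₀ w₀)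
  obtain ⟨μ', d4⟩ : ∃ μ', HasDerivAt μ μ' t₀ := ⟨_, (d3.inner ℝ d2).div_const _⟩
  have d5 : HasDerivAt (fun t => μ t • (Φ t w₀).2) (μ t₀ • A (Φ t₀ w₀) + μ' • (Φ t₀ w₀).2) t₀ :=
    d4.smul d3
  have d6 : J =ᶠ[𝓝 t₀] fun t => μ t • (Φ t w₀).2 := by
    filter_upwards [hJo.mem_nhds ht₀] with t ht
    exact hJμ t ht
  have h1 : (D ξ).2 = μ t₀ • A (Φ t₀ w₀) + μ' • (Φ t₀ w₀).2 :=
    d2.unique (d5.congr_of_eventuallyEq d6)
  have h2 : (D ξ).1 = μ t₀ • (Φ t₀ w₀).2 := hJμ t₀ ht₀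
  have h3 : D ξ = D ((μ t₀ - μ' * t₀) • XF A w₀ + μ' • ((0 : E), v)) := by
    rw [map_add, map_smul, map_smul, hD, h.fderiv_XF, h.fderiv_scale hvT hw2]
    refine Prod.ext ?_ ?_
    · rw [← hD, h2]
      show μ t₀ • (Φ t₀ w₀).2 = (μ t₀ - μ' * t₀) • (Φ t₀ w₀).2 + μ' • (t₀ • (Φ t₀ w₀).2)
      module
    · rw [← hD, h1]
      show μ t₀ • A (Φ t₀ w₀) + μ' • (Φ t₀ w₀).2 = (μ t₀ - μ' * t₀) • A (Φ t₀ w₀)
        + μ' • ((Φ t₀ w₀).2 + t₀ • A (Φ t₀ w₀))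
      module
  have h4 := h.inj_fderiv t₀ w₀ h3
  have h5 : (0 : E) = (μ t₀ - μ' * t₀) • v + μ' • (0 : E) := congrArg Prod.fst h4
  rw [smul_zero, add_zero] at h5
  have h6 : μ t₀ - μ' * t₀ = 0 := (smul_eq_zero.1 h5.symm).resolve_right hv0
  have h7 : fderiv ℝ ψ p b₀ = (μ t₀ - μ' * t₀) • A w₀ + μ' • v := congrArg Prod.snd h4
  rw [h6, zero_smul, zero_add, hv, ← map_smul] at h7
  have h8 : b₀ = μ' • w := hp.inj p hpΩ h7
  have h9 : -w.2 = μ' * w.1 := congrArg Prod.fst h8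
  have h10 : w.1 = μ' * w.2 := congrArg Prod.snd h8
  have h11 : w.1 ^ 2 + w.2 ^ 2 = 0 := by linear_combination w.1 * h10 - w.2 * h9
  exact hww.ne' h11

end Pool.Agent.H91.GE
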