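import Pool.Agent.H91.GS.Web
import Pool.Agent.H77.PF.Wrap

/-!
# The geodesics through the blocking point in charts
-/

set_option autoImplicit false

open scoped InnerProductSpace Topology ContDiff
open Set Filter

namespace Pool.Agent.H91.GE

open Pool.Agent.H77.PF (Through)

variable {E F : Type*} [NormedAddCommGroup E] [InnerProductSpace ℝ E] [FiniteDimensional ℝ E]
  [NormedAddCommGroup F] [InnerProductSpace ℝ F] [FiniteDimensional ℝ F]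
  {S : Set E} {A : E × E → E} {K K₂ : NNReal} {Φ : ℝ → E × E → E × E}
  {Ω Ω₁ Ω₂ Ω₃ : Set (ℝ × ℝ)} {ψ ψ₁ ψ₂ ψ₃ : ℝ × ℝ → E} {P P₁ P₂ P₃ : E →L[ℝ] ℝ × ℝ}
  {W W₁ W₂ W₃ : Set E}

omit [FiniteDimensional ℝ E] in
theorem IsGeo.inner_TSet {γ : ℝ → E} (hγ : IsGeo S γ) {t : ℝ} {u : E} (hu : (γ t, u) ∈ TSet S) :
    ⟪deriv (deriv γ) t, u⟫_ℝ = 0 := by
  obtain ⟨c, hc, hcS, hc0, hcd⟩ := hu
  have h1 := hγ.acc t c hc hcS hc0
  have h2 : deriv c 0 = u := hcd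
  rwa [h2] at h1

/-- The geodesic equation in a chart. -/
theorem geo_chart (hc : Chart S Ω ψ P W) (hsub : IsSub F S) {γ : ℝ → E} (hγ : IsGeo S γ) {t : ℝ}
    (ht : γ t ∈ W) : P (deriv (deriv γ) t)
      = -(Chr ψ (P (γ t)) (P (deriv γ t)) (P (deriv γ t))) ∧
    deriv (deriv γ) t = nB ψ (P (γ t)) (P (deriv γ t)) (P (deriv γ t)) := by
  obtain ⟨hΩ, hψ⟩ := hc.right (γ t) (hγ.mem t) ht
  set x := P (γ t) with hx
  set v := P (deriv γ t) with hv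
  have d1 : HasDerivAt (fun s => P (γ s)) v t := P.hasFDerivAt.comp_hasDerivAt t (hγ.hasDerivAt t)
  have d2 : HasDerivAt (fun s => P (deriv γ s)) (P (deriv (deriv γ) t)) t :=
    P.hasFDerivAt.comp_hasDerivAt t (hγ.hasDerivAt' t)
  have h1 : HasFDerivAt (fderiv ℝ ψ) (fderiv ℝ (fderiv ℝ ψ) x) (P (γ t)) :=
    hasFDerivAt_of_open hc.isOpen hc.smooth1 hΩ
  have h2 : HasDerivAt (fun s => fderiv ℝ ψ (P (γ s))) (fderiv ℝ (fderiv ℝ ψ) x v) t :=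
    h1.comp_hasDerivAt t d1
  have h3 : HasDerivAt (fun s => fderiv ℝ ψ (P (γ s)) (P (deriv γ s)))
      (fderiv ℝ (fderiv ℝ ψ) x v v + fderiv ℝ ψ x (P (deriv (deriv γ) t))) t := h2.clm_apply d2
  have h4 : (fun s => fderiv ℝ ψ (P (γ s)) (P (deriv γ s))) =ᶠ[𝓝 t] deriv γ := by
    have h5 : ∀ᶠ s in 𝓝 t, γ s ∈ W :=
      hγ.continuous.continuousAt.preimage_mem_nhds (hc.W_open.mem_nhds ht)
    filter_upwards [h5] with s hs
    exact (hc.of_TSet hs (hγ.mem_TSet s)).2.2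
  have h5 : deriv (deriv γ) t = fderiv ℝ (fderiv ℝ ψ) x v v
      + fderiv ℝ ψ x (P (deriv (deriv γ) t)) :=
    (hγ.hasDerivAt' t).unique (h3.congr_of_eventuallyEq h4.symm)
  have h6 : Chr ψ x v v + P (deriv (deriv γ) t) = 0 := by
    refine hc.toPar.eq_of_gB hΩ fun w => ?_
    rw [gB_apply, gB_apply, map_zero, inner_zero_left]
    have h7 : (γ t, fderiv ℝ ψ x w) ∈ TSet S := by
      have := hc.toPar.mem_TSet hsub hΩ w
      rwa [hψ] at this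
    have h8 := hγ.inner_TSet h7
    rw [h5, D2_eq, add_right_comm, ← map_add, inner_add_left, hc.toPar.inner_nB hΩ, add_zero] at h8
    exact h8
  constructor
  · rw [eq_neg_iff_add_eq_zero, add_comm]; exact h6
  · rw [D2_eq, add_right_comm, ← map_add, h6, map_zero, zero_add] at h5
    exact h5

/-- The geodesic equation for a chart expression of a geodesic. -/
theorem geo_chart' (hc : Chart S Ω ψ P W) (hsub : IsSub F S) {γ : ℝ → E} (hγ : IsGeo S γ) {t : ℝ}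
    (ht : γ t ∈ W) : ContDiff ℝ ∞ (fun r => P (γ (t + r))) ∧
      deriv (fun r => P (γ (t + r))) 0 = P (deriv γ t) ∧
      deriv (deriv (fun r => P (γ (t + r)))) 0
        = -(Chr ψ (P (γ t)) (P (deriv γ t)) (P (deriv γ t))) := by
  have hin : ∀ r, HasDerivAt (fun r : ℝ => t + r) 1 r := fun r => (hasDerivAt_id r).const_add t
  have h1 : ∀ r, HasDerivAt (fun r => P (γ (t + r))) (P (deriv γ (t + r))) r := by
    intro r
    have h2 : HasDerivAt (fun r => γ (t + r)) ((1 : ℝ) • deriv γ (t + r)) r :=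
      HasDerivAt.scomp (g₁ := γ) (h := fun r => t + r) r (hγ.hasDerivAt (t + r)) (hin r)
    rw [one_smul] at h2
    exact P.hasFDerivAt.comp_hasDerivAt r h2
  have h2 : HasDerivAt (fun r => P (deriv γ (t + r))) (P (deriv (deriv γ) (t + 0))) 0 := by
    have h2 : HasDerivAt (fun r => deriv γ (t + r)) ((1 : ℝ) • deriv (deriv γ) (t + 0)) 0 :=
      HasDerivAt.scomp (g₁ := deriv γ) (h := fun r => t + r) (0 : ℝ) (hγ.hasDerivAt' (t + 0)) (hin 0)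
    rw [one_smul] at h2
    exact P.hasFDerivAt.comp_hasDerivAt (0 : ℝ) h2
  have h3 : deriv (fun r => P (γ (t + r))) = fun r => P (deriv γ (t + r)) :=
    funext fun r => (h1 r).deriv
  refine ⟨P.contDiff.comp (hγ.smooth.comp (contDiff_const.add contDiff_id)), ?_, ?_⟩
  · rw [h3]; simp
  · rw [h3, h2.deriv, add_zero]
    exact (geo_chart hc hsub hγ ht).1

/-- Moving the endpoints along the geodesic. -/
theorem Br.move (h : GFlow F S A K K₂ Φ) (hc₁ : Chart S Ω₁ ψ₁ P₁ W₁) (hc₂ : Chart S Ω₂ ψ₂ P₂ W₂)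
    {O : Set Pt} {V : Set (ℝ × ℝ)} {κ : Pt → ℝ × ℝ} (hb : Br Φ Ω₁ Ω₂ ψ₁ ψ₂ O V κ) {y : Pt}
    (hy : y ∈ O) : ∀ᶠ q : ℝ × ℝ in 𝓝 (0, 0),
      (P₁ (G1 Φ ψ₁ (y.1, κ y) q.1), P₂ (G1 Φ ψ₁ (y.1, κ y) (1 + q.2))) ∈ O ∧
      ∀ t, cF Φ ψ₁ κ (P₁ (G1 Φ ψ₁ (y.1, κ y) q.1), P₂ (G1 Φ ψ₁ (y.1, κ y) (1 + q.2))) t
        = G1 Φ ψ₁ (y.1, κ y) (q.1 + (1 + q.2 - q.1) * t) := by
  obtain ⟨m1, m2, m3, m4⟩ := hb.mem y hy
  obtain ⟨g1, g2, g3⟩ := h.isGeo_G1 hc₁.toPar m1 (κ y)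
  set c := G1 Φ ψ₁ (y.1, κ y) with hc
  have hcc : Continuous c := g1.continuous
  have hcd : Continuous (deriv c) := by
    rw [continuous_iff_continuousAt]
    exact fun t => (g1.hasDerivAt' t).continuousAt
  have f1 : ContinuousAt (fun q : ℝ × ℝ => (P₁ (c q.1), P₂ (c (1 + q.2)))) (0, 0) := by
    have : Continuous (fun q : ℝ × ℝ => (P₁ (c q.1), P₂ (c (1 + q.2)))) :=
      (P₁.continuous.comp (hcc.comp continuous_fst)).prodMk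
        (P₂.continuous.comp (hcc.comp (continuous_const.add continuous_snd)))
    exact this.continuousAt
  have f2 : ContinuousAt (fun q : ℝ × ℝ => c q.1) (0, 0) := (hcc.comp continuous_fst).continuousAt
  have f3 : ContinuousAt (fun q : ℝ × ℝ => c (1 + q.2)) (0, 0) :=
    (hcc.comp (continuous_const.add continuous_snd)).continuousAt
  have f4 : ContinuousAt (fun q : ℝ × ℝ => P₁ ((1 + q.2 - q.1) • deriv c q.1)) (0, 0) := by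
    have : Continuous (fun q : ℝ × ℝ => P₁ ((1 + q.2 - q.1) • deriv c q.1)) :=
      P₁.continuous.comp ((by fun_prop : Continuous fun q : ℝ × ℝ => 1 + q.2 - q.1).smul
        (hcd.comp continuous_fst))
    exact this.continuousAt
  have e1 : ∀ᶠ q : ℝ × ℝ in 𝓝 (0, 0), (P₁ (c q.1), P₂ (c (1 + q.2))) ∈ O := by
    refine f1.preimage_mem_nhds (hb.isOpen.mem_nhds ?_)
    show (P₁ (c 0), P₂ (c (1 + 0))) ∈ O
    rw [add_zero, g2, m4, hc₁.left _ m1, hc₂.left _ m2]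
    exact hy
  have e2 : ∀ᶠ q : ℝ × ℝ in 𝓝 (0, 0), c q.1 ∈ W₁ := by
    refine f2.preimage_mem_nhds (hc₁.W_open.mem_nhds ?_)
    show c 0 ∈ W₁
    rw [g2]; exact hc₁.maps _ m1
  have e3 : ∀ᶠ q : ℝ × ℝ in 𝓝 (0, 0), c (1 + q.2) ∈ W₂ := by
    refine f3.preimage_mem_nhds (hc₂.W_open.mem_nhds ?_)
    show c (1 + 0) ∈ W₂
    rw [add_zero, m4]; exact hc₂.maps _ m2
  have e4 : ∀ᶠ q : ℝ × ℝ in 𝓝 (0, 0), P₁ ((1 + q.2 - q.1) • deriv c q.1) ∈ V := by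
    refine f4.preimage_mem_nhds (hb.V_open.mem_nhds ?_)
    show P₁ ((1 + 0 - 0 : ℝ) • deriv c 0) ∈ V
    rw [add_zero, sub_zero, one_smul, g3, hc₁.P_fderiv m1]
    exact m3
  filter_upwards [e1, e2, e3, e4] with q h1 h2 h3 h4
  refine ⟨h1, ?_⟩
  have hT : (c q.1, deriv c q.1) ∈ TSet S := g1.mem_TSet q.1
  obtain ⟨k1, k2, k3⟩ := hc₁.of_TSet h2 hT
  have hgeo : ∀ t, G1 Φ ψ₁ (P₁ (c q.1), P₁ ((1 + q.2 - q.1) • deriv c q.1)) t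
      = c (q.1 + (1 + q.2 - q.1) * t) := by
    intro t
    show Geo Φ (ψ₁ (P₁ (c q.1))) (fderiv ℝ ψ₁ (P₁ (c q.1)) (P₁ ((1 + q.2 - q.1) • deriv c q.1))) t = _
    rw [map_smul, map_smul, k2, k3]
    exact h.Geo_add g1 q.1 (1 + q.2 - q.1) t
  have hu := hb.uniq _ h1 _ h4 (by
    show G1 Φ ψ₁ (P₁ (c q.1), P₁ ((1 + q.2 - q.1) • deriv c q.1)) 1 = ψ₂ (P₂ (c (1 + q.2)))
    rw [hgeo, (hc₂.right _ (g1.mem _) h3).2]
    congr 1; ring)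
  intro t
  show G1 Φ ψ₁ (P₁ (c q.1), κ (P₁ (c q.1), P₂ (c (1 + q.2)))) t = _
  rw [← hu]
  exact hgeo t

theorem Leaf.through (h : GFlow F S A K K₂ Φ) (hc₁ : Chart S Ω₁ ψ₁ P₁ W₁)
    (hc₂ : Chart S Ω₂ ψ₂ P₂ W₂) (hc₃ : Chart S Ω₃ ψ₃ P₃ W₃) {ζ : Pt → E}
    {O : Set Pt} {V : Set (ℝ × ℝ)} {κ : Pt → ℝ × ℝ} {θ : Pt → ℝ}
    (hl : Leaf Φ Ω₁ Ω₂ ψ₁ ψ₂ ζ O V κ θ) {y : Pt} (hy : y ∈ O) (hz : ζ y ∈ W₃) (hκ : κ y ≠ 0) :
    Through (fun x => P₃ (ζ x)) y (Chr ψ₂ y.2) (Chr ψ₃ (P₃ (ζ y)))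
      (fun s => P₁ (G1 Φ ψ₁ (y.1, κ y) (0 + s))) (fun s => P₂ (G1 Φ ψ₁ (y.1, κ y) (1 + s)))
      (fun s => P₃ (G1 Φ ψ₁ (y.1, κ y) (θ y + s)))
      (fun q => q.1 + (1 + q.2 - q.1) * θ (P₁ (G1 Φ ψ₁ (y.1, κ y) (0 + q.1)),
        P₂ (G1 Φ ψ₁ (y.1, κ y) (1 + q.2))) - θ y) ∧
    deriv (fun s => P₁ (G1 Φ ψ₁ (y.1, κ y) (0 + s))) 0 = κ y ∧
    deriv (fun s => P₂ (G1 Φ ψ₁ (y.1, κ y) (1 + s))) 0 = P₂ (deriv (G1 Φ ψ₁ (y.1, κ y)) 1) ∧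
    deriv (fun s => P₃ (G1 Φ ψ₁ (y.1, κ y) (θ y + s))) 0
      = P₃ (deriv (G1 Φ ψ₁ (y.1, κ y)) (θ y)) := by
  obtain ⟨m1, m2, m3, m4⟩ := hl.mem y hy
  obtain ⟨g1, g2, g3⟩ := h.isGeo_G1 hc₁.toPar m1 (κ y)
  have hcr : G1 Φ ψ₁ (y.1, κ y) (θ y) = ζ y := hl.cross y hy
  have hmove := hl.toBr.move h hc₁ hc₂ hy
  set c := G1 Φ ψ₁ (y.1, κ y) with hc
  obtain ⟨a1, a2, a3⟩ := geo_chart' hc₁ h.sub g1 (t := 0) (by rw [g2]; exact hc₁.maps _ m1)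
  obtain ⟨b1, b2, b3⟩ := geo_chart' hc₂ h.sub g1 (t := 1) (by rw [m4]; exact hc₂.maps _ m2)
  obtain ⟨c1, c2, c3⟩ := geo_chart' hc₃ h.sub g1 (t := θ y) (by rw [hcr]; exact hz)
  have hd : P₁ (deriv c 0) = κ y := by rw [g3, hc₁.P_fderiv m1]
  refine ⟨⟨a1.contDiffAt, b1.contDiffAt, c1.contDiffAt, ?_, ?_, ?_, ?_, ?_, ?_, ?_, ?_⟩,
    a2.trans hd, b2, c2⟩
  · have hθ : ContDiffAt ℝ ∞ θ y := contDiffAt_of_open hl.isOpen hl.smooth_θ hy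
    have h1 : ContDiff ℝ ∞ (fun q : ℝ × ℝ => (P₁ (c (0 + q.1)), P₂ (c (1 + q.2)))) :=
      (a1.comp contDiff_fst).prodMk (b1.comp contDiff_snd)
    have h2 : ContDiffAt ℝ ∞ (fun q : ℝ × ℝ => θ (P₁ (c (0 + q.1)), P₂ (c (1 + q.2)))) (0, 0) := by
      refine ContDiffAt.comp (0, 0) (g := θ) ?_ h1.contDiffAt
      show ContDiffAt ℝ ∞ θ (P₁ (c (0 + 0)), P₂ (c (1 + 0)))
      rw [add_zero, add_zero, g2, m4, hc₁.left _ m1, hc₂.left _ m2]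
      exact hθ
    exact (contDiffAt_fst.add (((contDiffAt_const.add contDiffAt_snd).sub contDiffAt_fst).mul h2)).sub
      contDiffAt_const
  · show P₁ (c (0 + 0)) = y.1
    rw [add_zero, g2, hc₁.left _ m1]
  · show P₂ (c (1 + 0)) = y.2
    rw [add_zero, m4, hc₂.left _ m2]
  · show (0 : ℝ) + (1 + 0 - 0) * θ (P₁ (c (0 + 0)), P₂ (c (1 + 0))) - θ y = 0
    rw [add_zero 0, add_zero 1, g2, m4, hc₁.left _ m1, hc₂.left _ m2]
    ring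
  · rw [b3, b2, m4, hc₂.left _ m2]
  · rw [c3, c2, hcr]
  · rw [a2, hd]; exact hκ
  · filter_upwards [hmove] with q hq
    obtain ⟨q1, q2⟩ := hq
    have h1 := hl.cross _ q1
    rw [q2] at h1
    show P₃ (ζ (P₁ (c (0 + q.1)), P₂ (c (1 + q.2)))) = P₃ (c (θ y + (q.1 + (1 + q.2 - q.1) *
      θ (P₁ (c (0 + q.1)), P₂ (c (1 + q.2))) - θ y)))
    rw [zero_add, ← h1]
    congr 2
    ring

end Pool.Agent.H91.GE
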