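import Pool.Agent.H91.GS.Resid

/-!
# Infinitely many geodesics through one blocking point
-/

set_option autoImplicit false

open scoped InnerProductSpace Topology ContDiff
open Set Filter

namespace Pool.Agent.H91.GE

variable {E F : Type*} [NormedAddCommGroup E] [InnerProductSpace ℝ E] [FiniteDimensional ℝ E]
  [NormedAddCommGroup F] [InnerProductSpace ℝ F] [FiniteDimensional ℝ F]
  {S : Set E} {A : E × E → E} {K K₂ : NNReal} {Φ : ℝ → E × E → E × E}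
  {Ω₁ Ω₂ : Set (ℝ × ℝ)} {ψ₁ ψ₂ : ℝ × ℝ → E} {P₁ P₂ : E →L[ℝ] ℝ × ℝ} {W₁ W₂ : Set E}

theorem GFlow.same_geo (h : GFlow F S A K K₂ Φ) {γ η : ℝ → E} (hγ : IsGeo S γ) (hη : IsGeo S η)
    {s s' c : ℝ} (h0 : γ s = η s') (h1 : deriv η s' = c • deriv γ s) (t : ℝ) :
    η (s' + t) = γ (s + c * t) := by
  have h2 := h.Geo_add hη s' 1 t
  have h3 := h.Geo_add hγ s c t
  rw [one_smul, one_mul, h1, ← h0] at h2
  rw [← h2, h3]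

theorem indep_of_ne (h : GFlow F S A K K₂ Φ) (hp₁ : Par S Ω₁ ψ₁) {x : Pt}
    (hl : ¬ Loop S (ψ₁ x.1) (ψ₂ x.2)) (hl' : ¬ Loop S (ψ₂ x.2) (ψ₁ x.1)) {w w' : ℝ × ℝ}
    (hx1 : x.1 ∈ Ω₁) (hw : G1 Φ ψ₁ (x.1, w) 1 = ψ₂ x.2) (hw' : G1 Φ ψ₁ (x.1, w') 1 = ψ₂ x.2)
    (hw0 : w ≠ 0) (hw0' : w' ≠ 0) (hne : w ≠ w') {s s' : ℝ}
    (he : G1 Φ ψ₁ (x.1, w) s = G1 Φ ψ₁ (x.1, w') s') :
    Indep (deriv (G1 Φ ψ₁ (x.1, w)) s) (deriv (G1 Φ ψ₁ (x.1, w')) s') := by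
  obtain ⟨g1, g2, g3⟩ := h.isGeo_G1 hp₁ hx1 w
  obtain ⟨k1, k2, k3⟩ := h.isGeo_G1 hp₁ hx1 w'
  set γ := G1 Φ ψ₁ (x.1, w) with hγ
  set η := G1 Φ ψ₁ (x.1, w') with hη
  have hd : ∀ u : ℝ × ℝ, u ≠ 0 → fderiv ℝ ψ₁ x.1 u ≠ 0 := fun u hu h0 =>
    hu (hp₁.inj x.1 hx1 (by rw [h0, map_zero]))
  have hγ0 : deriv γ 0 ≠ 0 := by rw [g3]; exact hd w hw0
  have hη0 : deriv η 0 ≠ 0 := by rw [k3]; exact hd w' hw0'
  have hγs : ∀ t, deriv γ t ≠ 0 := g1.deriv_ne S hγ0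
  have hηs : ∀ t, deriv η t ≠ 0 := k1.deriv_ne S hη0
  intro a b hab
  rcases eq_or_ne b 0 with hb | hb
  · rw [hb, zero_smul] at hab
    exact ⟨(smul_eq_zero.1 hab).resolve_right (hγs s), hb⟩
  exfalso
  obtain ⟨c, hc⟩ : ∃ c : ℝ, c = b⁻¹ * a := ⟨_, rfl⟩
  have h1 : deriv η s' = c • deriv γ s := by
    rw [hc, mul_smul, hab, smul_smul, inv_mul_cancel₀ hb, one_smul]
  have h2 := fun t => h.same_geo g1 k1 he h1 t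
  have h3 : s - c * s' = 0 := by
    by_contra hne0
    refine hl ⟨γ, g1, hγ0, g2, ⟨s - c * s', hne0, ?_⟩, 1, hw⟩
    have h4 := h2 (-s')
    rw [add_neg_cancel, k2] at h4
    rw [h4]; ring_nf
  have h4 : γ c = ψ₂ x.2 := by
    have h5 := h2 (1 - s')
    rw [show s' + (1 - s') = 1 by ring, hw'] at h5
    rw [h5]
    congr 1
    linear_combination -h3
  have h5 : c = 1 := by
    by_contra hne1
    have h6 : IsGeo S (fun t => γ (1 + 1 * t)) := g1.affine 1 1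
    have h7 := deriv_affine g1 1 1
    refine hl' ⟨fun t => γ (1 + 1 * t), h6, ?_, ?_, ⟨c - 1, sub_ne_zero.2 hne1, ?_⟩, -1, ?_⟩
    · rw [h7]
      show (1 : ℝ) • deriv γ (1 + 1 * 0) ≠ 0
      rw [one_smul]; exact hγs _
    · show γ (1 + 1 * 0) = ψ₂ x.2
      rw [mul_zero, add_zero]; exact hw
    · show γ (1 + 1 * (c - 1)) = ψ₂ x.2
      rw [← h4]; ring_nf
    · show γ (1 + 1 * (-1)) = ψ₁ x.1
      rw [← g2]; ring_nf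
  rw [h5] at h3
  have h6 : s = s' := by linarith
  have h7 : η = γ := by
    funext t
    have h8 := h2 (t - s')
    rw [h5, show s' + (t - s') = t by ring, h6, show s' + 1 * (t - s') = t by ring] at h8
    exact h8
  have h8 : fderiv ℝ ψ₁ x.1 w = fderiv ℝ ψ₁ x.1 w' := by rw [← g3, ← k3, h7]
  exact hne (hp₁.inj x.1 hx1 h8)

/-- Infinitely many nondegenerate geodesics from `ψ₁ x.1` to `ψ₂ x.2` through `z`. -/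
structure Web (Φ : ℝ → E × E → E × E) (Ω₁ Ω₂ : Set (ℝ × ℝ)) (ψ₁ ψ₂ : ℝ × ℝ → E) (x : Pt) (z : E)
    (w : ℕ → ℝ × ℝ) (s : ℕ → ℝ) : Prop where
  cfg : ∀ n, Cfg Φ Ω₁ Ω₂ ψ₁ ψ₂ x (w n)
  ne : ∀ n, w n ≠ 0
  inj : ∀ n m, n ≠ m → w n ≠ w m
  len : Tendsto (fun n => ‖fderiv ℝ ψ₁ x.1 (w n)‖) atTop atTop
  time : ∀ n, 0 < s n ∧ s n < 1
  pass : ∀ n, G1 Φ ψ₁ (x.1, w n) (s n) = z
  ind : ∀ n m, n ≠ m → ∀ t t', G1 Φ ψ₁ (x.1, w n) t = G1 Φ ψ₁ (x.1, w m) t' →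
    Indep (deriv (G1 Φ ψ₁ (x.1, w n)) t) (deriv (G1 Φ ψ₁ (x.1, w m)) t')
  good : ∀ y, Tri Φ Ω₁ Ω₂ ψ₁ ψ₂ x y → GoodT Φ ψ₁ ψ₂ x y

theorem exists_web (hdim : Module.finrank ℝ E = Module.finrank ℝ F + 2)
    (h : GFlow F S A K K₂ Φ) (hsec : Secure S) (hnw : NonWand Φ S) (hc₁ : Chart S Ω₁ ψ₁ P₁ W₁)
    (hc₂ : Chart S Ω₂ ψ₂ P₂ W₂) {x₀ : Pt} {w₀ : ℝ × ℝ} (hx₀ : Cfg Φ Ω₁ Ω₂ ψ₁ ψ₂ x₀ w₀)
    (hw₀ : w₀ ≠ 0) {N : Set Pt} (hN : N ∈ 𝓝 x₀) :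
    ∃ x ∈ N, ∃ z ∈ S, ∃ (w : ℕ → ℝ × ℝ) (s : ℕ → ℝ), Web Φ Ω₁ Ω₂ ψ₁ ψ₂ x z w s := by
  obtain ⟨x, hxN, hx1, hx2, hU, hl, hl', hgood⟩ :=
    exists_residual hdim h hsec hnw hc₁ hc₂ hx₀ hw₀ hN
  choose v hv hvn using hU
  have hlen : Tendsto (fun n => ‖fderiv ℝ ψ₁ x.1 (v n)‖) atTop atTop :=
    tendsto_atTop_mono (fun n => (hvn n).le) tendsto_natCast_atTop_atTop
  have hv0 : ∀ n, v n ≠ 0 := by
    intro n h0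
    have h1 := hvn n
    rw [h0, map_zero, norm_zero] at h1
    exact absurd h1 (not_lt.2 (Nat.cast_nonneg n))
  obtain ⟨B, hBS, -, -, hB⟩ := hsec (ψ₁ x.1) (hc₁.mem _ hx1) (ψ₂ x.2) (hc₂.mem _ hx2)
  have hb : ∀ n, ∃ t ∈ Ioo (0 : ℝ) 1, G1 Φ ψ₁ (x.1, v n) t ∈ B := by
    intro n
    obtain ⟨g1, g2, g3⟩ := h.isGeo_G1 hc₁.toPar hx1 (v n)
    refine hB _ g1 g2 (hv n).2.2.1 ?_
    rw [g3]
    exact fun h0 => hv0 n (hc₁.inj x.1 hx1 (by rw [h0, map_zero]))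
  choose r hr hrB using hb
  obtain ⟨z, hzB, hzinf⟩ := exists_infinite_fib (A := (univ : Set ℕ)) infinite_univ B.finite_toSet
    (fun n => G1 Φ ψ₁ (x.1, v n) (r n)) (fun n _ => hrB n)
  have hfreq : ∃ᶠ n in atTop, G1 Φ ψ₁ (x.1, v n) (r n) = z := by
    rw [Nat.frequently_atTop_iff_infinite]
    exact hzinf.mono fun n hn => hn.2
  obtain ⟨φ, hφ, hφz⟩ := extraction_of_frequently_atTop hfreq
  have hlen2 : Tendsto (fun n => ‖fderiv ℝ ψ₁ x.1 (v (φ n))‖) atTop atTop :=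
    hlen.comp hφ.tendsto_atTop
  obtain ⟨φ', hφ', hmono⟩ := strictMono_subseq_of_tendsto_atTop hlen2
  have hinj : ∀ n m, n ≠ m → v (φ (φ' n)) ≠ v (φ (φ' m)) := by
    intro n m hnm he
    refine hnm (hmono.injective ?_)
    show ‖fderiv ℝ ψ₁ x.1 (v (φ (φ' n)))‖ = ‖fderiv ℝ ψ₁ x.1 (v (φ (φ' m)))‖
    rw [he]
  refine ⟨x, hxN, z, hBS hzB, fun n => v (φ (φ' n)), fun n => r (φ (φ' n)), ⟨fun n => hv _, fun n => hv0 _,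
    hinj, hlen2.comp hφ'.tendsto_atTop, fun n => hr _, fun n => hφz _, fun n m hnm t t' he => ?_,
    hgood⟩⟩
  exact indep_of_ne h hc₁.toPar hl hl' hx1 (hv _).2.2.1 (hv _).2.2.1 (hv0 _) (hv0 _) (hinj n m hnm) he

/-- A smooth family of geodesics through the point `ζ`. -/
structure Leaf (Φ : ℝ → E × E → E × E) (Ω₁ Ω₂ : Set (ℝ × ℝ)) (ψ₁ ψ₂ : ℝ × ℝ → E) (ζ : Pt → E)
    (O : Set Pt) (V : Set (ℝ × ℝ)) (κ : Pt → ℝ × ℝ) (θ : Pt → ℝ) : Prop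
    extends Br Φ Ω₁ Ω₂ ψ₁ ψ₂ O V κ where
  smooth_θ : ContDiffOn ℝ ∞ θ O
  cross : ∀ x ∈ O, cF Φ ψ₁ κ x (θ x) = ζ x

theorem Br.mono {O O' : Set Pt} {V : Set (ℝ × ℝ)} {κ : Pt → ℝ × ℝ}
    (hb : Br Φ Ω₁ Ω₂ ψ₁ ψ₂ O V κ) (ho : IsOpen O') (hs : O' ⊆ O) : Br Φ Ω₁ Ω₂ ψ₁ ψ₂ O' V κ :=
  ⟨ho, hb.V_open, hb.smooth.mono hs, fun x hx => hb.mem x (hs hx), fun x hx => hb.uniq x (hs hx)⟩

theorem exists_leaves (hdim : Module.finrank ℝ E = Module.finrank ℝ F + 2)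
    (h : GFlow F S A K K₂ Φ) (hp₁ : Par S Ω₁ ψ₁) (hc₂ : Chart S Ω₂ ψ₂ P₂ W₂)
    {x : Pt} {z : E} {w : ℕ → ℝ × ℝ} {s : ℕ → ℝ} (hW : Web Φ Ω₁ Ω₂ ψ₁ ψ₂ x z w s) :
    ∃ ζ : Pt → E, ∀ n, ∃ (O : Set Pt) (V : Set (ℝ × ℝ)) (κ : Pt → ℝ × ℝ) (θ : Pt → ℝ),
      Leaf Φ Ω₁ Ω₂ ψ₁ ψ₂ ζ O V κ θ ∧ x ∈ O ∧ κ x = w n ∧ θ x = s n := by
  have hbr := fun n => exists_br h hp₁ hc₂ (hW.cfg n).1 (hW.cfg n).2.1 (hW.cfg n).2.2.1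
    (hW.cfg n).2.2.2
  choose O V κ hb hxO hwV hκ using hbr
  have hcr : ∀ n, n ≠ 0 → ∃ (O' : Set Pt) (V' : Set (ℝ × ℝ)) (σ : Pt → ℝ × ℝ), O' ⊆ O 0 ∩ O n ∧
      Cr (cF Φ ψ₁ (κ 0)) (cF Φ ψ₁ (κ n)) O' V' σ ∧ x ∈ O' ∧ (s 0, s n) ∈ V' ∧ σ x = (s 0, s n) := by
    intro n hn
    refine exists_cr hdim h hp₁ ((hb 0).isOpen.inter (hb n).isOpen)
      ((hb 0).smooth.mono inter_subset_left) ((hb n).smooth.mono inter_subset_right)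
      (fun y hy => ((hb 0).mem y hy.1).1) ⟨hxO 0, hxO n⟩ (s₀ := (s 0, s n)) ?_ ?_
    · show G1 Φ ψ₁ (x.1, κ 0 x) (s 0) = G1 Φ ψ₁ (x.1, κ n x) (s n)
      rw [hκ, hκ, hW.pass, hW.pass]
    · show Indep (deriv (G1 Φ ψ₁ (x.1, κ 0 x)) (s 0)) (deriv (G1 Φ ψ₁ (x.1, κ n x)) (s n))
      rw [hκ, hκ]
      exact hW.ind 0 n hn.symm _ _ (by rw [hW.pass, hW.pass])
  choose! O' V' σ hsub hcr hxO' hsV hσ using hcr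
  have hag : ∀ n, n ≠ 0 → ∀ᶠ x' in 𝓝 x, (σ 1 x').1 = (σ n x').1 := by
    intro n hn
    have htri : Tri Φ Ω₁ Ω₂ ψ₁ ψ₂ x ((w 0, w 1, w n), (s 0, s 1, s n)) := by
      refine ⟨hW.cfg 0, hW.cfg 1, hW.cfg n, ?_, ?_, ?_, ?_⟩
      · show G1 Φ ψ₁ (x.1, w 0) (s 0) = G1 Φ ψ₁ (x.1, w 1) (s 1)
        rw [hW.pass, hW.pass]
      · show G1 Φ ψ₁ (x.1, w 0) (s 0) = G1 Φ ψ₁ (x.1, w n) (s n)
        rw [hW.pass, hW.pass]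
      · exact hW.ind 0 1 (by norm_num) _ _ (by rw [hW.pass, hW.pass])
      · exact hW.ind 0 n hn.symm _ _ (by rw [hW.pass, hW.pass])
    have hg := hW.good _ htri
    set N : Set Y3 := {y | (y.1.1 ∈ V 0 ∧ y.1.2.1 ∈ V 1 ∧ y.1.2.2 ∈ V n) ∧
      ((y.2.1, y.2.2.1) ∈ V' 1 ∧ (y.2.1, y.2.2.2) ∈ V' n)} with hN
    have hNo : IsOpen N := by
      have f1 : Continuous fun b : Y3 => b.1.1 := by fun_prop
      have f2 : Continuous fun b : Y3 => b.1.2.1 := by fun_prop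
      have f3 : Continuous fun b : Y3 => b.1.2.2 := by fun_prop
      have f4 : Continuous fun b : Y3 => (b.2.1, b.2.2.1) := by fun_prop
      have f5 : Continuous fun b : Y3 => (b.2.1, b.2.2.2) := by fun_prop
      exact (((hb 0).V_open.preimage f1).inter (((hb 1).V_open.preimage f2).inter
        ((hb n).V_open.preimage f3))).inter
        (((hcr 1 one_ne_zero).V_open.preimage f4).inter ((hcr n hn).V_open.preimage f5))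
    have hyN : ((w 0, w 1, w n), (s 0, s 1, s n)) ∈ N :=
      ⟨⟨hwV 0, hwV 1, hwV n⟩, hsV 1 one_ne_zero, hsV n hn⟩
    filter_upwards [hg N (hNo.mem_nhds hyN), (hcr 1 one_ne_zero).isOpen.mem_nhds (hxO' 1 one_ne_zero),
      (hcr n hn).isOpen.mem_nhds (hxO' n hn)] with x' h1 h2 h3
    obtain ⟨⟨⟨v1, v2, v3⟩, t1, t2, t3⟩, ⟨⟨n1, n2, n3⟩, n4, n5⟩, q1, q2, q3, q4, q5⟩ := h1
    simp only at n1 n2 n3 n4 n5 q1 q2 q3 q4 q5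
    have u1 : v1 = κ 0 x' := (hb 0).uniq x' (hsub 1 one_ne_zero h2).1 v1 n1 q1
    have u2 : v2 = κ 1 x' := (hb 1).uniq x' (hsub 1 one_ne_zero h2).2 v2 n2 q2
    have u3 : v3 = κ n x' := (hb n).uniq x' (hsub n hn h3).2 v3 n3 q3
    have u4 : (t1, t2) = σ 1 x' := (hcr 1 one_ne_zero).uniq x' h2 (t1, t2) n4 (by
      show G1 Φ ψ₁ (x'.1, κ 0 x') t1 = G1 Φ ψ₁ (x'.1, κ 1 x') t2
      rw [← u1, ← u2]; exact q4)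
    have u5 : (t1, t3) = σ n x' := (hcr n hn).uniq x' h3 (t1, t3) n5 (by
      show G1 Φ ψ₁ (x'.1, κ 0 x') t1 = G1 Φ ψ₁ (x'.1, κ n x') t3
      rw [← u1, ← u3]; exact q5)
    rw [← u4, ← u5]
  refine ⟨fun x' => cF Φ ψ₁ (κ 0) x' (σ 1 x').1, fun n => ?_⟩
  rcases eq_or_ne n 0 with rfl | hn
  · refine ⟨O' 1, V 0, κ 0, fun x' => (σ 1 x').1, ⟨(hb 0).mono (hcr 1 one_ne_zero).isOpen
      fun y hy => (hsub 1 one_ne_zero hy).1, (hcr 1 one_ne_zero).smooth.fst, fun y _ => rfl⟩,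
      hxO' 1 one_ne_zero, hκ 0, ?_⟩
    show (σ 1 x).1 = s 0
    rw [hσ 1 one_ne_zero]
  · obtain ⟨N, hN, hNo, hxN⟩ := mem_nhds_iff.1 (hag n hn)
    have hNO : N ∩ O' n ⊆ O n := fun y hy => (hsub n hn hy.2).2
    refine ⟨N ∩ O' n, V n, κ n, fun x' => (σ n x').2, ⟨(hb n).mono (hNo.inter (hcr n hn).isOpen) hNO,
      (hcr n hn).smooth.snd.mono inter_subset_right, fun y hy => ?_⟩, ⟨hxN, hxO' n hn⟩, hκ n, ?_⟩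
    · have h1 := ((hcr n hn).mem y hy.2).2
      have h2 : (σ 1 y).1 = (σ n y).1 := hN hy.1
      show cF Φ ψ₁ (κ n) y (σ n y).2 = cF Φ ψ₁ (κ 0) y (σ 1 y).1
      rw [h2]; exact h1.symm
    · show (σ n x).2 = s n
      rw [hσ n hn]

end Pool.Agent.H91.GE
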